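import Mathlib

/-! Products of consecutive layers, polynomial functions, rank lemmas. -/

namespace Pool.Agent.UO

open Matrix

section Seg

variable {M N : Type*} [Monoid M] [Monoid N]

/-- The product `T i * T (i+1) * ... * T (j-1)`. -/
def seg (T : ℕ → M) (i j : ℕ) : M := ((List.range' i (j - i)).map T).prod

theorem seg_self (T : ℕ → M) (i : ℕ) : seg T i i = 1 := by
  simp [seg]

theorem seg_mul (T : ℕ → M) {i j k : ℕ} (h1 : i ≤ j) (h2 : j ≤ k) :
    seg T i j * seg T j k = seg T i k := by
  unfold seg
  rw [← List.prod_append, ← List.map_append]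
  congr 2
  have h := @List.range'_append i (j - i) (k - j) 1
  rw [one_mul] at h
  have e1 : i + (j - i) = j := by omega
  have e2 : (j - i) + (k - j) = k - i := by omega
  rw [e1, e2] at h
  exact h

theorem seg_succ (T : ℕ → M) (i : ℕ) : seg T i (i + 1) = T i := by
  simp [seg]

theorem seg_congr {T T' : ℕ → M} {i j : ℕ} (h : ∀ k, i ≤ k → k < j → T k = T' k) :
    seg T i j = seg T' i j := by
  unfold seg
  congr 1
  apply List.map_congr_left
  intro k hk
  rw [List.mem_range'_1] at hk
  exact h k hk.1 (by omega)

theorem map_seg (f : M →* N) (T : ℕ → M) (i j : ℕ) :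
    f (seg T i j) = seg (fun k => f (T k)) i j := by
  unfold seg
  rw [map_list_prod, List.map_map]
  rfl

theorem seg_shift (T : ℕ → M) (i j a : ℕ) :
    seg (fun k => T (k + a)) i j = seg T (i + a) (j + a) := by
  unfold seg
  have : j + a - (i + a) = j - i := by omega
  rw [this]
  congr 1
  apply List.ext_getElem
  · simp
  · intro n h1 h2
    simp only [List.getElem_map, List.getElem_range']
    congr 1
    ring

theorem seg_induction {T : ℕ → M} {p : M → Prop} {i j : ℕ} (h1 : p 1)
    (hm : ∀ a b, p a → p b → p (a * b)) (h : ∀ k, i ≤ k → k < j → p (T k)) :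
    p (seg T i j) := by
  unfold seg
  have : ∀ l : List ℕ, (∀ k ∈ l, p (T k)) → p ((l.map T).prod) := by
    intro l
    induction l with
    | nil => intro _; simpa using h1
    | cons a l ih =>
      intro hl
      rw [List.map_cons, List.prod_cons]
      exact hm _ _ (hl a (by simp)) (ih fun k hk => hl k (by simp [hk]))
  apply this
  intro k hk
  rw [List.mem_range'_1] at hk
  exact h k hk.1 (by omega)

end Seg

section PolyFun

variable {F : Type*} [Field F] {σ : Type*}

/-- A function on `σ → F` given by a polynomial. -/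
def IsPoly (f : (σ → F) → F) : Prop := ∃ p : MvPolynomial σ F, ∀ y, f y = MvPolynomial.eval y p

theorem IsPoly.const (c : F) : IsPoly (fun _ : σ → F => c) :=
  ⟨MvPolynomial.C c, fun y => by simp⟩

theorem IsPoly.coord (i : σ) : IsPoly (fun y : σ → F => y i) :=
  ⟨MvPolynomial.X i, fun y => by simp⟩

theorem IsPoly.add {f g : (σ → F) → F} (hf : IsPoly f) (hg : IsPoly g) :
    IsPoly (fun y => f y + g y) := by
  obtain ⟨p, hp⟩ := hf
  obtain ⟨q, hq⟩ := hg
  exact ⟨p + q, fun y => by rw [map_add, ← hp, ← hq]⟩

theorem IsPoly.mul {f g : (σ → F) → F} (hf : IsPoly f) (hg : IsPoly g) :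
    IsPoly (fun y => f y * g y) := by
  obtain ⟨p, hp⟩ := hf
  obtain ⟨q, hq⟩ := hg
  exact ⟨p * q, fun y => by rw [map_mul, ← hp, ← hq]⟩

theorem IsPoly.sum {ι : Type*} (s : Finset ι) {f : ι → (σ → F) → F}
    (hf : ∀ i ∈ s, IsPoly (f i)) : IsPoly (fun y => ∑ i ∈ s, f i y) := by
  classical
  induction s using Finset.induction_on with
  | empty => simpa using IsPoly.const (0 : F)
  | insert a s ha ih =>
    simp only [Finset.sum_insert ha]
    exact (hf a (by simp)).add (ih fun i hi => hf i (by simp [hi]))

theorem IsPoly.prod {ι : Type*} (s : Finset ι) {f : ι → (σ → F) → F}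
    (hf : ∀ i ∈ s, IsPoly (f i)) : IsPoly (fun y => ∏ i ∈ s, f i y) := by
  classical
  induction s using Finset.induction_on with
  | empty => simpa using IsPoly.const (1 : F)
  | insert a s ha ih =>
    simp only [Finset.prod_insert ha]
    exact (hf a (by simp)).mul (ih fun i hi => hf i (by simp [hi]))

/-- Composition with a polynomial map. -/
theorem IsPoly.comp {τ : Type*} {f : (σ → F) → F} (hf : IsPoly f) {g : (τ → F) → (σ → F)}
    (hg : ∀ i, IsPoly (fun y => g y i)) : IsPoly (fun y => f (g y)) := by
  obtain ⟨p, hp⟩ := hf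
  choose q hq using hg
  refine ⟨MvPolynomial.bind₁ q p, fun y => ?_⟩
  have e : g y = fun i => MvPolynomial.eval y (q i) := by
    ext i
    exact hq i y
  show f (g y) = _
  rw [hp, e]
  have h := MvPolynomial.aeval_bind₁ y q p
  rw [MvPolynomial.aeval_eq_eval, MvPolynomial.aeval_eq_eval] at h
  exact h.symm

/-- Matrix valued polynomial functions. -/
def IsPolyMat {m n : Type*} (T : (σ → F) → Matrix m n F) : Prop :=
  ∀ i j, IsPoly (fun y => T y i j)

theorem IsPolyMat.const {m n : Type*} (A : Matrix m n F) :
    IsPolyMat (fun _ : σ → F => A) := fun _ _ => IsPoly.const _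

theorem IsPolyMat.mul {m n l : Type*} [Fintype n] {S : (σ → F) → Matrix m n F}
    {T : (σ → F) → Matrix n l F} (hS : IsPolyMat S) (hT : IsPolyMat T) :
    IsPolyMat (fun y => S y * T y) := by
  intro i j
  simp only [Matrix.mul_apply]
  exact IsPoly.sum _ fun k _ => (hS i k).mul (hT k j)

theorem IsPolyMat.seg {n : Type*} [Fintype n] [DecidableEq n]
    {T : ℕ → (σ → F) → Matrix n n F} (hT : ∀ k, IsPolyMat (T k)) (i j : ℕ) :
    IsPolyMat (fun y => seg (fun k => T k y) i j) := by
  unfold Pool.Agent.UO.seg
  have : ∀ l : List ℕ, IsPolyMat (fun y => ((l.map fun k => T k y).prod)) := by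
    intro l
    induction l with
    | nil => simpa using IsPolyMat.const (1 : Matrix n n F)
    | cons a l ih =>
      simp only [List.map_cons, List.prod_cons]
      exact (hT a).mul ih
  exact this _

theorem IsPolyMat.det {n : Type*} [Fintype n] [DecidableEq n] {T : (σ → F) → Matrix n n F}
    (hT : IsPolyMat T) : IsPoly (fun y => (T y).det) := by
  simp only [Matrix.det_apply']
  refine IsPoly.sum _ fun g _ => ?_
  exact (IsPoly.const _).mul (IsPoly.prod _ fun i _ => hT _ _)

theorem IsPolyMat.linear {m n : Type*} [Fintype m] [Fintype n] [DecidableEq m] [DecidableEq n]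
    {T : (σ → F) → Matrix m n F} (hT : IsPolyMat T) (φ : Matrix m n F →ₗ[F] F) :
    IsPoly (fun y => φ (T y)) := by
  have h : ∀ y, φ (T y) = ∑ i, ∑ j, T y i j * φ (Matrix.single i j 1) := by
    intro y
    conv_lhs => rw [Matrix.matrix_eq_sum_single (T y)]
    rw [map_sum]
    refine Finset.sum_congr rfl fun i _ => ?_
    rw [map_sum]
    refine Finset.sum_congr rfl fun j _ => ?_
    have : Matrix.single i j (T y i j) = (T y i j) • Matrix.single i j (1 : F) := by
      rw [Matrix.smul_single, smul_eq_mul, mul_one]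
    rw [this, map_smul, smul_eq_mul]
  simp only [h]
  exact IsPoly.sum _ fun i _ => IsPoly.sum _ fun j _ => (hT i j).mul (IsPoly.const _)

/-- Two polynomial conditions met at two points of a line hold together somewhere on it. -/
theorem exists_on_line [Infinite F] {f g : (σ → F) → F} (hf : IsPoly f) (hg : IsPoly g)
    {y0 y1 : σ → F} (h0 : f y0 ≠ 0) (h1 : g y1 ≠ 0) :
    ∃ t : F, f (fun i => y0 i + t * (y1 i - y0 i)) ≠ 0 ∧
      g (fun i => y0 i + t * (y1 i - y0 i)) ≠ 0 := by
  obtain ⟨p, hp⟩ := hf
  obtain ⟨q, hq⟩ := hg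
  let L : σ → Polynomial F := fun i => Polynomial.C (y0 i) + Polynomial.X * Polynomial.C (y1 i - y0 i)
  have key : ∀ (P : MvPolynomial σ F) (t : F),
      (MvPolynomial.aeval L P).eval t = MvPolynomial.eval (fun i => y0 i + t * (y1 i - y0 i)) P := by
    intro P t
    induction P using MvPolynomial.induction_on with
    | C a => simp [L]
    | add p q hp hq => rw [map_add, Polynomial.eval_add, hp, hq, map_add]
    | mul_X p i hp => rw [map_mul, Polynomial.eval_mul, hp, map_mul]; simp [L]
  have hP : MvPolynomial.aeval L p ≠ 0 := by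
    intro h
    apply h0
    rw [hp, ← (show (fun i => y0 i + 0 * (y1 i - y0 i)) = y0 by ext i; ring), ← key, h]
    simp
  have hQ : MvPolynomial.aeval L q ≠ 0 := by
    intro h
    apply h1
    rw [hq, ← (show (fun i => y0 i + 1 * (y1 i - y0 i)) = y1 by ext i; ring), ← key, h]
    simp
  have hPQ := mul_ne_zero hP hQ
  obtain ⟨t, ht⟩ : ∃ t : F, (MvPolynomial.aeval L p * MvPolynomial.aeval L q).eval t ≠ 0 := by
    by_contra hcon
    push Not at hcon
    exact hPQ (Polynomial.funext fun t => by rw [hcon t]; simp)
  rw [Polynomial.eval_mul, key, key] at ht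
  exact ⟨t, by rw [hp]; exact left_ne_zero_of_mul ht, by rw [hq]; exact right_ne_zero_of_mul ht⟩

/-- Finitely many polynomial conditions, each met somewhere, are met together somewhere. -/
theorem exists_common [Infinite F] {ι : Type*} (s : Finset ι) {f : ι → (σ → F) → F}
    (hf : ∀ i ∈ s, IsPoly (f i)) (h : ∀ i ∈ s, ∃ y, f i y ≠ 0) : ∃ y, ∀ i ∈ s, f i y ≠ 0 := by
  classical
  choose! p hp using hf
  have hne : ∏ i ∈ s, p i ≠ 0 := by
    rw [Finset.prod_ne_zero_iff]
    intro i hi h0
    obtain ⟨y, hy⟩ := h i hi
    apply hy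
    rw [hp i hi, h0, map_zero]
  obtain ⟨y, hy⟩ : ∃ y, MvPolynomial.eval y (∏ i ∈ s, p i) ≠ 0 := by
    by_contra hcon
    push Not at hcon
    exact hne (MvPolynomial.funext fun y => by rw [hcon y, map_zero])
  refine ⟨y, fun i hi => ?_⟩
  rw [map_prod, Finset.prod_ne_zero_iff] at hy
  rw [hp i hi]
  exact hy i hi

end PolyFun

section Rank

variable {F : Type*} [Field F]

/-- If the rank does not drop, the left factor can be recovered. -/
theorem exists_recover {n m l : Type*} [Fintype n] [DecidableEq n] [Fintype m] [DecidableEq m]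
    [Fintype l] [DecidableEq l] (A : Matrix n m F) (B : Matrix m l F)
    (h : A.rank ≤ (A * B).rank) : ∃ Z : Matrix l m F, A * B * Z = A := by
  have hsub : LinearMap.range (A * B).mulVecLin ≤ LinearMap.range A.mulVecLin := by
    rw [Matrix.mulVecLin_mul]
    exact LinearMap.range_comp_le_range _ _
  have heq : LinearMap.range (A * B).mulVecLin = LinearMap.range A.mulVecLin := by
    apply Submodule.eq_of_le_of_finrank_le hsub
    exact h
  have hex : ∀ j : m, ∃ z : l → F, (A * B).mulVec z = A.mulVec (Pi.single j 1) := by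
    intro j
    have : A.mulVecLin (Pi.single j 1) ∈ LinearMap.range (A * B).mulVecLin := by
      rw [heq]; exact ⟨_, rfl⟩
    obtain ⟨z, hz⟩ := this
    exact ⟨z, by simpa using hz⟩
  choose z hz using hex
  refine ⟨Matrix.of fun i j => z j i, ?_⟩
  ext i j
  have h1 := congrFun (hz j) i
  rw [Matrix.mulVec_single_one] at h1
  rw [Matrix.mul_apply]
  simpa [Matrix.mulVec, dotProduct] using h1

/-- A certificate for a lower bound of the rank. -/
theorem exists_cert {n m : Type*} [Fintype n] [DecidableEq n] [Fintype m] [DecidableEq m]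
    (A : Matrix n m F) {k : ℕ} (h : k ≤ A.rank) :
    ∃ (U : Matrix (Fin k) n F) (V : Matrix m (Fin k) F), U * A * V = 1 := by
  obtain ⟨v, hv⟩ : ∃ v : Fin k → LinearMap.range A.mulVecLin, LinearIndependent F v := by
    have := exists_linearIndependent_of_le_finrank (R := F) (M := LinearMap.range A.mulVecLin) h
    exact this
  have hv' : LinearIndependent F (fun i => ((v i : LinearMap.range A.mulVecLin) : n → F)) := by
    exact hv.map' (Submodule.subtype _) (Submodule.ker_subtype _)
  choose w hw using fun i => (v i).2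
  have hinj : Function.Injective (Matrix.of (fun i j => ((v j : LinearMap.range A.mulVecLin) : n → F) i) :
      Matrix n (Fin k) F).mulVecLin := by
    have : ∀ x : Fin k → F, (Matrix.of (fun i j => ((v j : LinearMap.range A.mulVecLin) : n → F) i) :
      Matrix n (Fin k) F).mulVecLin x = ∑ j, x j • ((v j : LinearMap.range A.mulVecLin) : n → F) := by
      intro x
      ext i
      simp [Matrix.mulVec, dotProduct, mul_comm]
    rw [← LinearMap.ker_eq_bot, LinearMap.ker_eq_bot']
    intro x hx
    rw [this] at hx
    ext j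
    exact (Fintype.linearIndependent_iff.mp hv') x hx j
  obtain ⟨g, hg⟩ := LinearMap.exists_leftInverse_of_injective _ (LinearMap.ker_eq_bot.mpr hinj)
  refine ⟨LinearMap.toMatrix' g, Matrix.of fun i j => w j i, ?_⟩
  have e1 : A * (Matrix.of fun i j => w j i : Matrix m (Fin k) F) =
      (Matrix.of (fun i j => ((v j : LinearMap.range A.mulVecLin) : n → F) i) :
      Matrix n (Fin k) F) := by
    ext i j
    have := congrFun (hw j) i
    simpa [Matrix.mul_apply, Matrix.mulVec, dotProduct] using this
  rw [Matrix.mul_assoc, e1]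
  have e2 : ∀ X : Matrix n (Fin k) F, LinearMap.toMatrix' X.mulVecLin = X := by
    intro X
    rw [← Matrix.toLin'_apply', LinearMap.toMatrix'_toLin']
  rw [← e2 (Matrix.of (fun i j => ((v j : LinearMap.range A.mulVecLin) : n → F) i) :
      Matrix n (Fin k) F), ← LinearMap.toMatrix'_comp, hg, LinearMap.toMatrix'_id]

theorem le_rank_of_cert {n m : Type*} [Fintype n] [DecidableEq n] [Fintype m] [DecidableEq m]
    (A : Matrix n m F) {k : ℕ} (U : Matrix (Fin k) n F) (V : Matrix m (Fin k) F)
    (h : (U * A * V).det ≠ 0) : k ≤ A.rank := by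
  have h1 : (U * A * V).rank = k := by
    rw [Matrix.rank_of_isUnit _ ((Matrix.isUnit_iff_isUnit_det _).mpr (isUnit_iff_ne_zero.mpr h))]
    simp
  calc k = (U * A * V).rank := h1.symm
    _ ≤ (U * A).rank := Matrix.rank_mul_le_left _ _
    _ ≤ A.rank := Matrix.rank_mul_le_right _ _

/-- Frobenius rank inequality. -/
theorem frobenius {n : Type*} [Fintype n] [DecidableEq n] (A B C : Matrix n n F) :
    (A * B).rank + (B * C).rank ≤ B.rank + (A * B * C).rank := by
  -- rank(AB) - rank(ABC) ≤ rank B - rank (BC)
  -- range(BC) ≤ range(B), A maps range B onto range AB and range BC onto range ABC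
  have h1 : ∀ X : Matrix n n F, (A * X).rank + Module.finrank F
      (LinearMap.ker (A.mulVecLin.domRestrict (LinearMap.range X.mulVecLin))) = X.rank := by
    intro X
    have := LinearMap.finrank_range_add_finrank_ker
      (A.mulVecLin.domRestrict (LinearMap.range X.mulVecLin))
    have e : LinearMap.range (A.mulVecLin.domRestrict (LinearMap.range X.mulVecLin)) =
        LinearMap.range (A * X).mulVecLin := by
      rw [Matrix.mulVecLin_mul, LinearMap.range_comp, LinearMap.range_domRestrict]
    rw [e] at this
    exact this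
  have h2 := h1 B
  have h3 := h1 (B * C)
  have hle : LinearMap.range (B * C).mulVecLin ≤ LinearMap.range B.mulVecLin := by
    rw [Matrix.mulVecLin_mul]
    exact LinearMap.range_comp_le_range _ _
  have h4 : Module.finrank F (LinearMap.ker (A.mulVecLin.domRestrict (LinearMap.range (B * C).mulVecLin)))
      ≤ Module.finrank F (LinearMap.ker (A.mulVecLin.domRestrict (LinearMap.range B.mulVecLin))) := by
    let ι := Submodule.inclusion hle
    have hmap : Submodule.map ι (LinearMap.ker (A.mulVecLin.domRestrict (LinearMap.range (B * C).mulVecLin)))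
        ≤ LinearMap.ker (A.mulVecLin.domRestrict (LinearMap.range B.mulVecLin)) := by
      rintro _ ⟨x, hx, rfl⟩
      simpa [ι] using hx
    calc _ = Module.finrank F (Submodule.map ι (LinearMap.ker (A.mulVecLin.domRestrict
        (LinearMap.range (B * C).mulVecLin)))) := by
          exact (Submodule.equivMapOfInjective ι (Submodule.inclusion_injective hle) _).finrank_eq
      _ ≤ _ := Submodule.finrank_mono hmap
  rw [← Matrix.mul_assoc] at h3
  omega

end Rank

end Pool.Agent.UO
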