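import Mathlib
import Pool.Agent.Helper12_UO.Seg

/-! The generator `SV` and tensor powers of matrices. -/

namespace Pool.Agent.UO

open Matrix

section Kpow

variable {F : Type*} [Field F] {r : ℕ}

/-- Tensor powers of square matrices. -/
def kpow (k : ℕ) : Matrix (Fin r) (Fin r) F →* Matrix (Fin k → Fin r) (Fin k → Fin r) F where
  toFun A := Matrix.of fun a b => ∏ i, A (a i) (b i)
  map_one' := by
    ext a b
    rw [Matrix.of_apply]
    by_cases h : a = b
    · subst h
      simp
    · rw [Matrix.one_apply_ne h]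
      obtain ⟨i, hi⟩ : ∃ i, a i ≠ b i := by
        by_contra hcon
        push Not at hcon
        exact h (funext hcon)
      exact Finset.prod_eq_zero (Finset.mem_univ i) (Matrix.one_apply_ne hi)
  map_mul' A B := by
    ext a b
    simp only [Matrix.of_apply, Matrix.mul_apply]
    rw [Finset.prod_univ_sum, Fintype.piFinset_univ]
    refine Finset.sum_congr rfl fun c _ => ?_
    rw [Finset.prod_mul_distrib]

theorem kpow_apply (k : ℕ) (A : Matrix (Fin r) (Fin r) F) (a b : Fin k → Fin r) :
    kpow k A a b = ∏ i, A (a i) (b i) := rfl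

theorem kpow_poly {σ : Type*} (k : ℕ) (T : (σ → F) → Matrix (Fin r) (Fin r) F)
    (hT : IsPolyMat T) : IsPolyMat (fun y => kpow k (T y)) := by
  intro a b
  simp only [kpow_apply]
  exact IsPoly.prod _ fun i _ => hT _ _

/-- The functional `Y ↦ ∑ sgn ∏ U Y V` with `φ (kpow X) = det (U X V)`. -/
def detFun {k : ℕ} (U : Matrix (Fin k) (Fin r) F) (V : Matrix (Fin r) (Fin k) F) :
    Matrix (Fin k → Fin r) (Fin k → Fin r) F →ₗ[F] F where
  toFun Y := ∑ g : Equiv.Perm (Fin k), ∑ a : Fin k → Fin r, ∑ b : Fin k → Fin r,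
    ((Equiv.Perm.sign g : ℤ) : F) * ((∏ i, U (g i) (a i)) * (Y a b * ∏ i, V (b i) i))
  map_add' X Y := by
    simp only [Matrix.add_apply, add_mul, mul_add, Finset.sum_add_distrib]
  map_smul' c Y := by
    simp only [Matrix.smul_apply, smul_eq_mul, RingHom.id_apply, Finset.mul_sum]
    refine Finset.sum_congr rfl fun g _ => Finset.sum_congr rfl fun a _ =>
      Finset.sum_congr rfl fun b _ => ?_
    ring

theorem detFun_kpow {k : ℕ} (U : Matrix (Fin k) (Fin r) F) (V : Matrix (Fin r) (Fin k) F)
    (X : Matrix (Fin r) (Fin r) F) : detFun U V (kpow k X) = (U * X * V).det := by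
  rw [Matrix.det_apply']
  show ∑ g : Equiv.Perm (Fin k), ∑ a : Fin k → Fin r, ∑ b : Fin k → Fin r,
    ((Equiv.Perm.sign g : ℤ) : F) * ((∏ i, U (g i) (a i)) * (kpow k X a b * ∏ i, V (b i) i)) = _
  refine Finset.sum_congr rfl fun g _ => ?_
  have h1 : ∀ i, (U * X * V) (g i) i = ∑ b, ∑ a, U (g i) a * X a b * V b i := by
    intro i
    rw [Matrix.mul_apply]
    refine Finset.sum_congr rfl fun b _ => ?_
    rw [Matrix.mul_apply, Finset.sum_mul]
  simp only [h1]
  rw [Finset.prod_univ_sum, Fintype.piFinset_univ, Finset.mul_sum, Finset.sum_comm]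
  refine Finset.sum_congr rfl fun b _ => ?_
  rw [Finset.prod_univ_sum, Fintype.piFinset_univ, Finset.mul_sum]
  refine Finset.sum_congr rfl fun a _ => ?_
  rw [kpow_apply, Finset.prod_mul_distrib, Finset.prod_mul_distrib]
  ring

end Kpow

section SV

variable {F : Type*} [Field F] {σ : Type*} [Fintype σ] [DecidableEq σ]

/-- The generator: `y_i = ∑_j z_j ∏_{k ≠ i} (w_j - c_k)`. -/
def SV (c : σ → F) {t : ℕ} (w z : Fin t → F) (i : σ) : F :=
  ∑ j, z j * ∏ k ∈ Finset.univ.erase i, (w j - c k)

/-- The image of the generator. -/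
def Im (c : σ → F) (t : ℕ) : Set (σ → F) := {y | ∃ w z : Fin t → F, y = SV c w z}

theorem Im_zero (c : σ → F) (t : ℕ) : (0 : σ → F) ∈ Im c t :=
  ⟨0, 0, by ext i; simp [SV]⟩

theorem Im_add (c : σ → F) {s t : ℕ} {y y' : σ → F} (h : y ∈ Im c s) (h' : y' ∈ Im c t) :
    y + y' ∈ Im c (s + t) := by
  obtain ⟨w, z, rfl⟩ := h
  obtain ⟨w', z', rfl⟩ := h'
  refine ⟨Fin.append w w', Fin.append z z', ?_⟩
  ext i
  simp only [SV, Pi.add_apply, Fin.sum_univ_add, Fin.append_left, Fin.append_right]

theorem Im_mono (c : σ → F) {s t : ℕ} (hst : s ≤ t) {y : σ → F} (h : y ∈ Im c s) :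
    y ∈ Im c t := by
  have := Im_add c h (Im_zero c (t - s))
  rw [add_zero, Nat.add_sub_cancel' hst] at this
  exact this

theorem Im_single {c : σ → F} (hc : Function.Injective c) (i : σ) (x : F) :
    (Pi.single i x : σ → F) ∈ Im c 1 := by
  have hne : ∏ k ∈ Finset.univ.erase i, (c i - c k) ≠ 0 := by
    rw [Finset.prod_ne_zero_iff]
    intro k hk
    rw [Finset.mem_erase] at hk
    exact sub_ne_zero.mpr fun h => hk.1 (hc h).symm
  refine ⟨fun _ => c i, fun _ => x / ∏ k ∈ Finset.univ.erase i, (c i - c k), ?_⟩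
  ext j
  simp only [SV, Finset.univ_unique, Finset.sum_singleton]
  by_cases hij : j = i
  · subst hij
    rw [Pi.single_eq_same, div_mul_cancel₀ _ hne]
  · rw [Pi.single_eq_of_ne hij]
    have : ∏ k ∈ Finset.univ.erase j, (c i - c k) = 0 := by
      apply Finset.prod_eq_zero (i := i)
      · rw [Finset.mem_erase]
        exact ⟨fun h => hij h.symm, Finset.mem_univ _⟩
      · ring
    rw [this, mul_zero]

theorem Im_support {c : σ → F} (hc : Function.Injective c) (S : Finset σ) :
    ∀ y : σ → F, (∀ i, i ∉ S → y i = 0) → y ∈ Im c S.card := by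
  induction S using Finset.induction_on with
  | empty =>
    intro y hy
    have : y = 0 := funext fun i => hy i (Finset.notMem_empty i)
    rw [this]
    exact Im_zero c _
  | insert a S ha ih =>
    intro y hy
    rw [Finset.card_insert_of_notMem ha]
    have h1 := ih (Function.update y a 0) (by
      intro i hi
      by_cases hia : i = a
      · subst hia
        simp
      · rw [Function.update_of_ne hia]
        exact hy i (by simp [hia, hi]))
    have h2 := Im_add c h1 (Im_single hc a (y a))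
    have e : Function.update y a 0 + Pi.single a (y a) = y := by
      ext i
      by_cases hia : i = a
      · subst hia
        simp
      · simp [hia]
    rw [e] at h2
    exact h2

/-- Perturbing few coordinates of a point of the image. -/
theorem Im_perturb {c : σ → F} (hc : Function.Injective c) {t k : ℕ} {y y' : σ → F}
    (hy : y ∈ Im c t) (S : Finset σ) (hS : S.card ≤ k) (h : ∀ i, i ∉ S → y' i = y i) :
    y' ∈ Im c (t + k) := by
  have h1 := Im_mono c hS (Im_support hc S (y' - y) fun i hi => by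
    rw [Pi.sub_apply, h i hi, sub_self])
  have h2 := Im_add c hy h1
  rwa [add_sub_cancel] at h2

/-- Finitely many polynomial conditions met on the image are met together on the image. -/
theorem Im_common [Infinite F] (c : σ → F) (t : ℕ) {ι : Type*} (s : Finset ι)
    {f : ι → (σ → F) → F} (hf : ∀ i ∈ s, IsPoly (f i)) (h : ∀ i ∈ s, ∃ y ∈ Im c t, f i y ≠ 0) :
    ∃ y ∈ Im c t, ∀ i ∈ s, f i y ≠ 0 := by
  classical
  let G : ((Fin t ⊕ Fin t) → F) → (σ → F) := fun u => SV c (fun j => u (Sum.inl j))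
    (fun j => u (Sum.inr j))
  have hG : ∀ i, IsPoly (fun u => G u i) := by
    intro i
    show IsPoly (fun u : (Fin t ⊕ Fin t) → F =>
      ∑ j, u (Sum.inr j) * ∏ k ∈ Finset.univ.erase i, (u (Sum.inl j) - c k))
    refine IsPoly.sum _ fun j _ => (IsPoly.coord _).mul (IsPoly.prod _ fun k _ => ?_)
    have := (IsPoly.coord (F := F) (Sum.inl j : Fin t ⊕ Fin t)).add (IsPoly.const (-c k))
    simpa only [sub_eq_add_neg] using this
  obtain ⟨u, hu⟩ := exists_common s (f := fun i u => f i (G u)) (fun i hi => (hf i hi).comp hG)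
    (fun i hi => by
      obtain ⟨y, ⟨w, z, rfl⟩, hy⟩ := h i hi
      exact ⟨Sum.elim w z, hy⟩)
  exact ⟨G u, ⟨_, _, rfl⟩, hu⟩

end SV

end Pool.Agent.UO
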