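import Mathlib

/-! Branching programs as polynomials, the generator, and the number of its terms. -/

namespace Pool.Agent.UO

open Matrix

section Program

variable {E : Type*} [CommRing E]

/-- The variables that occur in the entries of a matrix of polynomials. -/
noncomputable def layerVars {r : ℕ} (M : Matrix (Fin r) (Fin r) (MvPolynomial ℕ E)) : Finset ℕ :=
  Finset.univ.biUnion fun a => Finset.univ.biUnion fun b => (M a b).vars

/-- `f = u M_0 M_1 ... M_(m-1) v`, where the `M_l` are `r × r` matrices of polynomials in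
`x_0, ..., x_(n-1)`, at most `q` variables occur in each `M_l`, each variable occurs in at most `k`
of the `M_l`, and `u`, `v` are constant vectors. -/
def IsProgram (n r k q : ℕ) (f : MvPolynomial ℕ E) : Prop :=
  ∃ (m : ℕ) (M : Fin m → Matrix (Fin r) (Fin r) (MvPolynomial ℕ E)) (u v : Fin r → E),
    (∀ l, layerVars (M l) ⊆ Finset.range n) ∧ (∀ l, (layerVars (M l)).card ≤ q) ∧
    (∀ i, (Finset.univ.filter fun l => i ∈ layerVars (M l)).card ≤ k) ∧
    f = (fun a => MvPolynomial.C (u a)) ⬝ᵥ
      ((List.ofFn M).prod *ᵥ fun a => MvPolynomial.C (v a))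

end Program

/-- The point `x_i = ∑ j, z_j ∏ l < n, l ≠ i, (w_j - l)` for `i < n`, and `x_i = 0` for `i ≥ n`. -/
def point {R : Type*} [CommRing R] {t : ℕ} (n : ℕ) (w z : Fin t → R) (i : ℕ) : R :=
  if i < n then ∑ j, z j * ∏ l ∈ (Finset.range n).erase i, (w j - (l : R)) else 0

/-- The sum of the absolute values of the coefficients. -/
noncomputable def length (f : MvPolynomial ℕ ℤ) : ℕ := ∑ d ∈ f.support, (f.coeff d).natAbs

/-- Auxiliary numbers for `seedLength`. -/
def alN : ℕ → ℕ → ℕ
  | 0, M => M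
  | k + 1, M => 2 ^ ((alN k (alN k (2 ^ (M + M))) + 1) + M)

/-- Auxiliary numbers for `seedLength`. -/
def kM (r k R : ℕ) : ℕ := (2 * (R ^ (2 ^ k) * R ^ (2 ^ k)) + 3) ^ (2 ^ k * r + 1)

/-- Auxiliary numbers for `seedLength`. -/
def kB (r k q R : ℕ) : ℕ := 2 ^ ((k * q + 2) + alN k (kM r k R))

/-- Auxiliary numbers for `seedLength`. -/
def kBs (r k q : ℕ) : ℕ := ∑ κ ∈ Finset.range (r + 1), kB r k q (r ^ κ)

/-- The number of terms of the generator: it depends on `r`, `k`, `q` only. -/
def seedLength (r k q : ℕ) : ℕ := q + (r - 1) * (kBs r k q + 2 * q)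

end Pool.Agent.UO
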