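import Mathlib
import Pool.Agent.Helper12_UO.Defs

/-! Ramsey's theorem for pairs and the alignment of the occurrences of many variables. -/

namespace Pool.Agent.UO

/-- Finite Ramsey theorem for two colours, with the bound `2 ^ (a + b)`. -/
theorem ramsey {α : Type*} [DecidableEq α] (G : α → α → Prop) (hG : ∀ x y, G x y → G y x) :
    ∀ (n a b : ℕ), a + b = n → ∀ s : Finset α, 2 ^ n ≤ s.card →
    (∃ t ⊆ s, t.card = a ∧ ∀ x ∈ t, ∀ y ∈ t, x ≠ y → G x y) ∨
    (∃ t ⊆ s, t.card = b ∧ ∀ x ∈ t, ∀ y ∈ t, x ≠ y → ¬ G x y) := by
  classical
  intro n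
  induction n with
  | zero =>
    intro a b hab s _
    left
    refine ⟨∅, Finset.empty_subset _, ?_, by simp⟩
    rw [Finset.card_empty]
    omega
  | succ n ih =>
    intro a b hab s hs
    rcases Nat.eq_zero_or_pos a with ha | ha
    · left
      exact ⟨∅, Finset.empty_subset _, by rw [Finset.card_empty, ha], by simp⟩
    rcases Nat.eq_zero_or_pos b with hb | hb
    · right
      exact ⟨∅, Finset.empty_subset _, by rw [Finset.card_empty, hb], by simp⟩
    have hpos : 0 < s.card := lt_of_lt_of_le (by positivity) hs
    obtain ⟨x, hx⟩ := Finset.card_pos.mp hpos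
    have hcard := Finset.card_erase_of_mem hx
    have hsplit := Finset.card_filter_add_card_filter_not (s := s.erase x) (fun y => G x y)
    have hpow : 2 ^ (n + 1) = 2 ^ n + 2 ^ n := by ring
    rcases Nat.lt_or_ge ((s.erase x).filter fun y => G x y).card (2 ^ n) with h1 | h1
    · have h2 : 2 ^ n ≤ ((s.erase x).filter fun y => ¬ G x y).card := by omega
      rcases ih a (b - 1) (by omega) _ h2 with ⟨t, ht, hc, hG'⟩ | ⟨t, ht, hc, hG'⟩
      · left
        exact ⟨t, ht.trans ((Finset.filter_subset _ _).trans (Finset.erase_subset _ _)), hc, hG'⟩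
      · right
        have hxt : x ∉ t := fun h => by
          have := ht h
          rw [Finset.mem_filter, Finset.mem_erase] at this
          exact this.1.1 rfl
        refine ⟨insert x t, ?_, ?_, ?_⟩
        · intro y hy
          rw [Finset.mem_insert] at hy
          rcases hy with rfl | hy
          · exact hx
          · exact Finset.mem_of_mem_erase (Finset.mem_filter.mp (ht hy)).1
        · rw [Finset.card_insert_of_notMem hxt, hc]
          omega
        · intro y hy z hz hyz
          rw [Finset.mem_insert] at hy hz
          rcases hy with rfl | hy <;> rcases hz with rfl | hz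
          · exact absurd rfl hyz
          · exact (Finset.mem_filter.mp (ht hz)).2
          · exact fun h => (Finset.mem_filter.mp (ht hy)).2 (hG _ _ h)
          · exact hG' y hy z hz hyz
    · rcases ih (a - 1) b (by omega) _ h1 with ⟨t, ht, hc, hG'⟩ | ⟨t, ht, hc, hG'⟩
      · left
        have hxt : x ∉ t := fun h => by
          have := ht h
          rw [Finset.mem_filter, Finset.mem_erase] at this
          exact this.1.1 rfl
        refine ⟨insert x t, ?_, ?_, ?_⟩
        · intro y hy
          rw [Finset.mem_insert] at hy
          rcases hy with rfl | hy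
          · exact hx
          · exact Finset.mem_of_mem_erase (Finset.mem_filter.mp (ht hy)).1
        · rw [Finset.card_insert_of_notMem hxt, hc]
          omega
        · intro y hy z hz hyz
          rw [Finset.mem_insert] at hy hz
          rcases hy with rfl | hy <;> rcases hz with rfl | hz
          · exact absurd rfl hyz
          · exact (Finset.mem_filter.mp (ht hz)).2
          · exact hG _ _ (Finset.mem_filter.mp (ht hy)).2
          · exact hG' y hy z hz hyz
      · right
        exact ⟨t, ht.trans ((Finset.filter_subset _ _).trans (Finset.erase_subset _ _)), hc, hG'⟩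

/-- Increasing enumeration of a finite set of natural numbers. -/
theorem exists_enum (t : Finset ℕ) : ∃ g : ℕ → ℕ, (∀ a, a < t.card → g a ∈ t) ∧
    (∀ a b, a < b → b < t.card → g a < g b) := by
  classical
  refine ⟨fun a => if h : a < t.card then t.orderEmbOfFin rfl ⟨a, h⟩ else 0, ?_, ?_⟩
  · intro a ha
    simp only [ha, ↓reduceDIte]
    exact Finset.orderEmbOfFin_mem _ _ _
  · intro a b hab hb
    have ha : a < t.card := by omega
    simp only [ha, hb, ↓reduceDIte]
    exact (t.orderEmbOfFin rfl).strictMono (by exact hab)

section Align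

variable {σ : Type*}

/-- One pass over the variables `s 0, ..., s (M-1)` in the layers `[x, x')`: the layers are divided
into intervals, one for each variable, ordered increasingly (`d = true`) or decreasingly, such
that the interval of a variable does not read the other variables. -/
def PassOK (V : ℕ → Finset σ) (M : ℕ) (s : ℕ → σ) (x x' : ℕ) (d : Bool) (c : ℕ → ℕ) : Prop :=
  (d = true → c 0 = x ∧ c M = x' ∧ ∀ a, a < M → c a ≤ c (a + 1) ∧
    ∀ l, c a ≤ l → l < c (a + 1) → ∀ a', a' < M → a' ≠ a → s a' ∉ V l) ∧
  (d = false → c M = x ∧ c 0 = x' ∧ ∀ a, a < M → c (a + 1) ≤ c a ∧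
    ∀ l, c (a + 1) ≤ l → l < c a → ∀ a', a' < M → a' ≠ a → s a' ∉ V l)

/-- `p` consecutive passes. -/
def Align (V : ℕ → Finset σ) (M : ℕ) (s : ℕ → σ) (p x x' : ℕ) : Prop :=
  ∃ (e : ℕ → ℕ) (d : ℕ → Bool) (c : ℕ → ℕ → ℕ), e 0 = x ∧ e p = x' ∧
    ∀ i, i < p → e i ≤ e (i + 1) ∧ PassOK V M s (e i) (e (i + 1)) (d i) (c i)

theorem mono_of_step' {p : ℕ → ℕ} {m : ℕ} (h : ∀ a, a < m → p a ≤ p (a + 1)) :
    ∀ a b, a ≤ b → b ≤ m → p a ≤ p b := by
  intro a b hab hb
  induction b, hab using Nat.le_induction with
  | base => exact le_rfl
  | succ b _ ih => exact (ih (by omega)).trans (h b (by omega))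

theorem anti_of_step' {p : ℕ → ℕ} {m : ℕ} (h : ∀ a, a < m → p (a + 1) ≤ p a) :
    ∀ a b, a ≤ b → b ≤ m → p b ≤ p a := by
  intro a b hab hb
  induction b, hab using Nat.le_induction with
  | base => exact le_rfl
  | succ b _ ih => exact (h b (by omega)).trans (ih (by omega))

/-- Restriction to a subsequence. -/
theorem PassOK.sub {V : ℕ → Finset σ} {M : ℕ} {s : ℕ → σ} {x x' : ℕ} {d : Bool} {c : ℕ → ℕ}
    (h : PassOK V M s x x' d c) {M' : ℕ} (hM' : 0 < M') {g : ℕ → ℕ} (hg : ∀ a, a < M' → g a < M)
    (hmono : ∀ a b, a < b → b < M' → g a < g b) :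
    PassOK V M' (fun a => s (g a)) x x' d
      (fun a => if a = 0 then c 0 else if a < M' then c (g a) else c M) := by
  constructor
  · intro hd
    obtain ⟨h0, hM, hst⟩ := h.1 hd
    have hm := mono_of_step' fun a ha => (hst a ha).1
    refine ⟨by simp [h0], ?_, ?_⟩
    · have h1 : ¬ M' = 0 := by omega
      simp only [h1, ↓reduceIte, lt_self_iff_false, hM]
    · intro a ha
      have hga := hg a ha
      have e1 : (if a + 1 = 0 then c 0 else if a + 1 < M' then c (g (a + 1)) else c M) =
          if a + 1 < M' then c (g (a + 1)) else c M := by simp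
      have hlow : (if a = 0 then c 0 else if a < M' then c (g a) else c M) ≤ c (g a) := by
        split_ifs with h1
        · exact hm 0 _ (by omega) (by omega)
        · exact le_rfl
      have hhigh : c (g a) ≤ if a + 1 < M' then c (g (a + 1)) else c M := by
        split_ifs with h1
        · exact hm _ _ (hmono a (a + 1) (by omega) h1).le (hg _ h1).le
        · exact hm _ _ hga.le le_rfl
      refine ⟨?_, ?_⟩
      · show (if a = 0 then c 0 else if a < M' then c (g a) else c M) ≤
          (if a + 1 = 0 then c 0 else if a + 1 < M' then c (g (a + 1)) else c M)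
        rw [e1]
        exact hlow.trans hhigh
      · intro l hl1 hl2 a' ha' hne hmem
        have hl1' : (if a = 0 then c 0 else if a < M' then c (g a) else c M) ≤ l := hl1
        have hl2' : l < (if a + 1 = 0 then c 0 else if a + 1 < M' then c (g (a + 1)) else c M) := hl2
        rw [e1] at hl2'
        have hga' := hg a' ha'
        -- the layer `l` is read in the interval of some index `j`
        have hlM : l < c M := by
          refine lt_of_lt_of_le hl2' ?_
          split_ifs with h1
          · exact hm _ _ (hg _ h1).le le_rfl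
          · exact le_rfl
        have hl0 : c 0 ≤ l := by
          refine le_trans ?_ hl1'
          split_ifs with h1
          · exact le_rfl
          · exact hm 0 _ (by omega) (by omega)
        obtain ⟨j, hj, hj1, hj2⟩ : ∃ j, j < M ∧ c j ≤ l ∧ l < c (j + 1) := by
          by_contra hcon
          push Not at hcon
          have : ∀ j, j ≤ M → c j ≤ l := by
            intro j
            induction j with
            | zero => intro _; exact hl0
            | succ j ih =>
              intro hj
              exact hcon j (by omega) (ih (by omega))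
          exact absurd hlM (not_lt.mpr (this M le_rfl))
        have hjeq : j = g a' := by
          by_contra hne'
          exact (hst j hj).2 l hj1 hj2 (g a') hga' (fun h => hne' h.symm) hmem
        subst hjeq
        rcases Nat.lt_or_gt_of_ne hne with hlt | hgt
        · -- a' < a
          have h1 := hmono a' a hlt ha
          have h2 : ¬ a = 0 := by omega
          rw [if_neg h2, if_pos ha] at hl1'
          have h3 := hm (g a' + 1) (g a) (by omega) (by omega)
          omega
        · have h1 : a + 1 < M' := by omega
          rw [if_pos h1] at hl2'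
          have h2 : g (a + 1) ≤ g a' := by
            rcases Nat.eq_or_lt_of_le (show a + 1 ≤ a' from hgt) with h | h
            · rw [h]
            · exact (hmono _ _ h ha').le
          have h3 := hm _ _ h2 (by omega)
          omega
  · intro hd
    obtain ⟨hM, h0, hst⟩ := h.2 hd
    have hm := anti_of_step' fun a ha => (hst a ha).1
    refine ⟨?_, by simp [h0], ?_⟩
    · have h1 : ¬ M' = 0 := by omega
      simp only [h1, ↓reduceIte, lt_self_iff_false, hM]
    · intro a ha
      have hga := hg a ha
      have e1 : (if a + 1 = 0 then c 0 else if a + 1 < M' then c (g (a + 1)) else c M) =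
          if a + 1 < M' then c (g (a + 1)) else c M := by simp
      have hlow : c (g a) ≤ (if a = 0 then c 0 else if a < M' then c (g a) else c M) := by
        split_ifs with h1
        · exact hm 0 _ (by omega) (by omega)
        · exact le_rfl
      have hhigh : (if a + 1 < M' then c (g (a + 1)) else c M) ≤ c (g a) := by
        split_ifs with h1
        · exact hm _ _ (hmono a (a + 1) (by omega) h1).le (hg _ h1).le
        · exact hm _ _ hga.le le_rfl
      refine ⟨?_, ?_⟩
      · show (if a + 1 = 0 then c 0 else if a + 1 < M' then c (g (a + 1)) else c M) ≤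
          (if a = 0 then c 0 else if a < M' then c (g a) else c M)
        rw [e1]
        exact hhigh.trans hlow
      · intro l hl1 hl2 a' ha' hne hmem
        have hl1' : (if a + 1 = 0 then c 0 else if a + 1 < M' then c (g (a + 1)) else c M) ≤ l := hl1
        have hl2' : l < (if a = 0 then c 0 else if a < M' then c (g a) else c M) := hl2
        rw [e1] at hl1'
        have hga' := hg a' ha'
        have hlM : c M ≤ l := by
          refine le_trans ?_ hl1'
          split_ifs with h1
          · exact hm _ _ (hg _ h1).le le_rfl
          · exact le_rfl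
        have hl0 : l < c 0 := by
          refine lt_of_lt_of_le hl2' ?_
          split_ifs with h1
          · exact le_rfl
          · exact hm 0 _ (by omega) (by omega)
        obtain ⟨j, hj, hj1, hj2⟩ : ∃ j, j < M ∧ c (j + 1) ≤ l ∧ l < c j := by
          by_contra hcon
          push Not at hcon
          have : ∀ j, j ≤ M → l < c j := by
            intro j
            induction j with
            | zero => intro _; exact hl0
            | succ j ih =>
              intro hj
              by_contra h2
              push Not at h2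
              exact absurd (ih (by omega)) (not_lt.mpr (hcon j (by omega) h2))
          exact absurd (this M le_rfl) (not_lt.mpr hlM)
        have hjeq : j = g a' := by
          by_contra hne'
          exact (hst j hj).2 l hj1 hj2 (g a') hga' (fun h => hne' h.symm) hmem
        subst hjeq
        rcases Nat.lt_or_gt_of_ne hne with hlt | hgt
        · have h1 := hmono a' a hlt ha
          have h2 : ¬ a = 0 := by omega
          rw [if_neg h2, if_pos ha] at hl2'
          have h3 := hm (g a' + 1) (g a) (by omega) (by omega)
          omega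
        · have h1 : a + 1 < M' := by omega
          rw [if_pos h1] at hl1'
          have h2 : g (a + 1) ≤ g a' := by
            rcases Nat.eq_or_lt_of_le (show a + 1 ≤ a' from hgt) with h | h
            · rw [h]
            · exact (hmono _ _ h ha').le
          have h3 := hm _ _ h2 (by omega)
          omega

/-- Reversing the order of the variables. -/
theorem PassOK.rev {V : ℕ → Finset σ} {M : ℕ} {s : ℕ → σ} {x x' : ℕ} {d : Bool} {c : ℕ → ℕ}
    (h : PassOK V M s x x' d c) :
    PassOK V M (fun a => s (M - 1 - a)) x x' (!d) (fun a => c (M - a)) := by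
  constructor
  · intro hd
    have hd' : d = false := by simpa using hd
    obtain ⟨hM, h0, hst⟩ := h.2 hd'
    refine ⟨by simpa using hM, by simpa using h0, ?_⟩
    intro a ha
    have e : M - 1 - a + 1 = M - a := by omega
    have e' : M - (a + 1) = M - 1 - a := by omega
    have := hst (M - 1 - a) (by omega)
    rw [e] at this
    show c (M - a) ≤ c (M - (a + 1)) ∧ ∀ l, c (M - a) ≤ l → l < c (M - (a + 1)) →
      ∀ a', a' < M → a' ≠ a → s (M - 1 - a') ∉ V l
    rw [e']
    refine ⟨this.1, ?_⟩
    intro l hl1 hl2 a' ha' hne
    exact this.2 l hl1 hl2 (M - 1 - a') (by omega) (by omega)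
  · intro hd
    have hd' : d = true := by simpa using hd
    obtain ⟨h0, hM, hst⟩ := h.1 hd'
    refine ⟨by simpa using h0, by simpa using hM, ?_⟩
    intro a ha
    have e : M - 1 - a + 1 = M - a := by omega
    have e' : M - (a + 1) = M - 1 - a := by omega
    have := hst (M - 1 - a) (by omega)
    rw [e] at this
    show c (M - (a + 1)) ≤ c (M - a) ∧ ∀ l, c (M - (a + 1)) ≤ l → l < c (M - a) →
      ∀ a', a' < M → a' ≠ a → s (M - 1 - a') ∉ V l
    rw [e']
    refine ⟨this.1, ?_⟩
    intro l hl1 hl2 a' ha' hne
    exact this.2 l hl1 hl2 (M - 1 - a') (by omega) (by omega)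

theorem Align.sub {V : ℕ → Finset σ} {M : ℕ} {s : ℕ → σ} {p x x' : ℕ}
    (h : Align V M s p x x') {M' : ℕ} (hM' : 0 < M') {g : ℕ → ℕ} (hg : ∀ a, a < M' → g a < M)
    (hmono : ∀ a b, a < b → b < M' → g a < g b) :
    Align V M' (fun a => s (g a)) p x x' := by
  obtain ⟨e, d, c, h0, h1, h2⟩ := h
  exact ⟨e, d, _, h0, h1, fun i hi => ⟨(h2 i hi).1, (h2 i hi).2.sub hM' hg hmono⟩⟩

theorem Align.rev {V : ℕ → Finset σ} {M : ℕ} {s : ℕ → σ} {p x x' : ℕ}
    (h : Align V M s p x x') : Align V M (fun a => s (M - 1 - a)) p x x' := by
  obtain ⟨e, d, c, h0, h1, h2⟩ := h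
  exact ⟨e, fun i => !(d i), _, h0, h1, fun i hi => ⟨(h2 i hi).1, (h2 i hi).2.rev⟩⟩

theorem Align.append {V : ℕ → Finset σ} {M : ℕ} {s : ℕ → σ} {p p' x x' x'' : ℕ}
    (h : Align V M s p x x') (h' : Align V M s p' x' x'') : Align V M s (p + p') x x'' := by
  obtain ⟨e, d, c, h0, h1, h2⟩ := h
  obtain ⟨e', d', c', h0', h1', h2'⟩ := h'
  refine ⟨fun i => if i < p then e i else e' (i - p), fun i => if i < p then d i else d' (i - p),
    fun i => if i < p then c i else c' (i - p), ?_, ?_, ?_⟩
  · by_cases hp : 0 < p
    · simp [hp, h0]
    · have : p = 0 := by omega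
      subst this
      simp [h0', ← h1, h0]
  · simp [h1']
  · intro i hi
    by_cases h3 : i < p
    · by_cases h4 : i + 1 < p
      · simpa [h3, h4] using h2 i h3
      · have h5 : i + 1 = p := by omega
        have := h2 i h3
        rw [h5] at this
        simp only [h3, h4, ↓reduceIte]
        rw [show i + 1 - p = 0 by omega, h0', ← h1]
        exact this
    · have h4 : ¬ i + 1 < p := by omega
      simp only [h3, h4, ↓reduceIte]
      rw [show i + 1 - p = (i - p) + 1 by omega]
      exact h2' (i - p) (by omega)

/-- Adding trivial passes. -/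
theorem Align.pad {V : ℕ → Finset σ} {M : ℕ} {s : ℕ → σ} {p x x' : ℕ}
    (h : Align V M s p x x') {p' : ℕ} (hp : p ≤ p') : Align V M s p' x x' := by
  have ht : Align V M s (p' - p) x' x' := by
    refine ⟨fun _ => x', fun _ => true, fun _ _ => x', rfl, rfl, fun i _ => ⟨le_rfl, ?_, ?_⟩⟩
    · intro _
      exact ⟨rfl, rfl, fun a _ => ⟨le_rfl, fun l (h1 : x' ≤ l) (h2 : l < x') => absurd h2 (by omega)⟩⟩
    · intro h
      cases h
  have := h.append ht
  rwa [Nat.add_sub_cancel' hp] at this

theorem PassOK.congr {V : ℕ → Finset σ} {M : ℕ} {s s' : ℕ → σ} {x x' : ℕ} {d : Bool} {c : ℕ → ℕ}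
    (h : PassOK V M s x x' d c) (hs : ∀ a, a < M → s a = s' a) : PassOK V M s' x x' d c := by
  constructor
  · intro hd
    obtain ⟨h0, h1, h2⟩ := h.1 hd
    exact ⟨h0, h1, fun a ha => ⟨(h2 a ha).1, fun l hl1 hl2 a' ha' hne => by
      rw [← hs a' ha']
      exact (h2 a ha).2 l hl1 hl2 a' ha' hne⟩⟩
  · intro hd
    obtain ⟨h0, h1, h2⟩ := h.2 hd
    exact ⟨h0, h1, fun a ha => ⟨(h2 a ha).1, fun l hl1 hl2 a' ha' hne => by
      rw [← hs a' ha']
      exact (h2 a ha).2 l hl1 hl2 a' ha' hne⟩⟩

theorem Align.congr {V : ℕ → Finset σ} {M : ℕ} {s s' : ℕ → σ} {p x x' : ℕ}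
    (h : Align V M s p x x') (hs : ∀ a, a < M → s a = s' a) : Align V M s' p x x' := by
  obtain ⟨e, d, c, h0, h1, h2⟩ := h
  exact ⟨e, d, c, h0, h1, fun i hi => ⟨(h2 i hi).1, (h2 i hi).2.congr hs⟩⟩

/-- The number of layers in `[lo, hi)` that read `v`. -/
def occ [DecidableEq σ] (V : ℕ → Finset σ) (v : σ) (lo hi : ℕ) : ℕ :=
  ((Finset.Ico lo hi).filter fun l => v ∈ V l).card

theorem occ_add [DecidableEq σ] (V : ℕ → Finset σ) (v : σ) {lo x hi : ℕ} (h1 : lo ≤ x)
    (h2 : x ≤ hi) : occ V v lo x + occ V v x hi = occ V v lo hi := by
  unfold occ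
  rw [← Finset.card_union_of_disjoint]
  · rw [← Finset.filter_union, Finset.Ico_union_Ico_eq_Ico h1 h2]
  · rw [Finset.disjoint_left]
    intro l hl hl'
    rw [Finset.mem_filter, Finset.mem_Ico] at hl hl'
    omega

theorem alN_pos (k : ℕ) {M : ℕ} (hM : 0 < M) : 0 < alN k M := by
  cases k with
  | zero => exact hM
  | succ k => exact Nat.pow_pos (by norm_num)

/-- **Alignment.** -/
theorem align_exists [DecidableEq σ] (V : ℕ → Finset σ) : ∀ (k M : ℕ), 0 < M →
    ∀ (lo hi : ℕ), lo ≤ hi → ∀ S : Finset σ, alN k M ≤ S.card →
    (∀ l, ∀ v ∈ S, ∀ w ∈ S, v ∈ V l → w ∈ V l → v = w) →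
    (∀ v ∈ S, occ V v lo hi ≤ k) →
    ∃ s : ℕ → σ, (∀ a, a < M → s a ∈ S) ∧ (∀ a b, a < b → b < M → s a ≠ s b) ∧
      Align V M s (2 ^ k) lo hi := by
  classical
  intro k
  induction k with
  | zero =>
    intro M hM lo hi hlh S hS _ hocc
    have hpos : 0 < S.card := lt_of_lt_of_le hM hS
    obtain ⟨v0, hv0⟩ := Finset.card_pos.mp hpos
    let s : ℕ → σ := fun a => if h : a < S.card then (S.equivFin.symm ⟨a, h⟩ : S).1 else v0
    have hsS : ∀ a, s a ∈ S := by
      intro a
      show (if h : a < S.card then (S.equivFin.symm ⟨a, h⟩ : S).1 else v0) ∈ S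
      split_ifs with h
      · exact (S.equivFin.symm ⟨a, h⟩).2
      · exact hv0
    refine ⟨s, fun a _ => hsS a, ?_, ?_⟩
    · intro a b hab hb heq
      have hb' : b < S.card := lt_of_lt_of_le hb hS
      have ha' : a < S.card := hab.trans hb'
      have : (S.equivFin.symm ⟨a, ha'⟩ : S) = S.equivFin.symm ⟨b, hb'⟩ := by
        apply Subtype.ext
        simpa [s, ha', hb'] using heq
      have h2 := S.equivFin.symm.injective this
      rw [Fin.mk.injEq] at h2
      omega
    · refine ⟨fun i => if i = 0 then lo else hi, fun _ => true,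
        fun _ a => if a = 0 then lo else hi, by simp, by simp, ?_⟩
      intro i hi'
      have : i = 0 := by
        rw [pow_zero] at hi'
        omega
      subst this
      refine ⟨by simpa using hlh, ?_, fun h => by cases h⟩
      intro _
      refine ⟨by simp, by simp [hM.ne'], ?_⟩
      intro a ha
      refine ⟨?_, ?_⟩
      · by_cases h : a = 0
        · simp [h, hlh]
        · simp [h]
      · intro l hl1 hl2 a' _ _ hmem
        have hl1' : lo ≤ l := by
          by_cases h : a = 0
          · simpa [h] using hl1
          · have : hi ≤ l := by simpa [h] using hl1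
            omega
        have hl2' : l < hi := by simpa using hl2
        have h0 := hocc (s a') (hsS a')
        unfold occ at h0
        rw [Nat.le_zero, Finset.card_eq_zero, Finset.filter_eq_empty_iff] at h0
        exact h0 (Finset.mem_Ico.mpr ⟨hl1', hl2'⟩) hmem
  | succ k ih =>
    intro M hM lo hi hlh S hS hdis hocc
    -- first and last occurrence
    let O : σ → Finset ℕ := fun v => (Finset.Ico lo hi).filter fun l => v ∈ V l
    let f : σ → ℕ := fun v => if h : (O v).Nonempty then (O v).min' h else hi
    let g : σ → ℕ := fun v => if h : (O v).Nonempty then (O v).max' h else hi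
    have hO : ∀ v l, l ∈ O v ↔ (lo ≤ l ∧ l < hi) ∧ v ∈ V l := by
      intro v l
      show l ∈ (Finset.Ico lo hi).filter (fun l => v ∈ V l) ↔ _
      rw [Finset.mem_filter, Finset.mem_Ico]
    have hf : ∀ v l, l ∈ O v → f v ≤ l := by
      intro v l hl
      have hne : (O v).Nonempty := ⟨l, hl⟩
      show (if h : (O v).Nonempty then (O v).min' h else hi) ≤ l
      rw [dif_pos hne]
      exact Finset.min'_le _ _ hl
    have hg : ∀ v l, l ∈ O v → l ≤ g v := by
      intro v l hl
      have hne : (O v).Nonempty := ⟨l, hl⟩
      show l ≤ (if h : (O v).Nonempty then (O v).max' h else hi)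
      rw [dif_pos hne]
      exact Finset.le_max' _ _ hl
    have hfO : ∀ v, (O v).Nonempty → f v ∈ O v := by
      intro v hne
      show (if h : (O v).Nonempty then (O v).min' h else hi) ∈ O v
      rw [dif_pos hne]
      exact Finset.min'_mem _ _
    have hgO : ∀ v, (O v).Nonempty → g v ∈ O v := by
      intro v hne
      show (if h : (O v).Nonempty then (O v).max' h else hi) ∈ O v
      rw [dif_pos hne]
      exact Finset.max'_mem _ _
    have hfhi : ∀ v, f v ≤ hi := by
      intro v
      by_cases hne : (O v).Nonempty
      · have := (hO v _).mp (hfO v hne)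
        omega
      · show (if h : (O v).Nonempty then (O v).min' h else hi) ≤ hi
        rw [dif_neg hne]
    have hlof : ∀ v, lo ≤ f v := by
      intro v
      by_cases hne : (O v).Nonempty
      · have := (hO v _).mp (hfO v hne)
        omega
      · show lo ≤ (if h : (O v).Nonempty then (O v).min' h else hi)
        rw [dif_neg hne]
        exact hlh
    have hfg : ∀ v, f v ≤ g v := by
      intro v
      by_cases hne : (O v).Nonempty
      · exact hg v _ (hfO v hne)
      · show (if h : (O v).Nonempty then (O v).min' h else hi) ≤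
          (if h : (O v).Nonempty then (O v).max' h else hi)
        rw [dif_neg hne, dif_neg hne]
    rcases ramsey (fun v w : σ => f v ≤ g w ∧ f w ≤ g v) (fun x y h => ⟨h.2, h.1⟩) _ _ _ rfl S hS
      with ⟨t, htS, htc, htG⟩ | ⟨t, htS, htc, htG⟩
    · -- a common point
      have htne : t.Nonempty := by
        rw [← Finset.card_pos, htc]
        omega
      obtain ⟨v0, hv0, hv0m⟩ := Finset.exists_max_image t f htne
      obtain ⟨x0, hx0⟩ : ∃ x0, x0 = f v0 := ⟨_, rfl⟩
      have hx0g : ∀ v ∈ t, x0 ≤ g v := by
        intro v hv
        by_cases h : v = v0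
        · rw [h, hx0]
          exact hfg v0
        · rw [hx0]
          exact (htG v hv v0 hv0 h).2
      have hfx0 : ∀ v ∈ t, f v ≤ x0 := fun v hv => by rw [hx0]; exact hv0m v hv
      let t' := t.filter fun v => v ∉ V x0
      have ht'c : alN k (alN k (2 ^ (M + M))) ≤ t'.card := by
        have h1 := Finset.card_filter_add_card_filter_not (s := t) (fun v => v ∈ V x0)
        have h2 : (t.filter fun v => v ∈ V x0).card ≤ 1 := by
          rw [Finset.card_le_one]
          intro v hv w hw
          rw [Finset.mem_filter] at hv hw
          exact hdis x0 v (htS hv.1) w (htS hw.1) hv.2 hw.2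
        show _ ≤ (t.filter fun v => v ∉ V x0).card
        omega
      have hlo0 : lo ≤ x0 := by rw [hx0]; exact hlof v0
      have h0hi : x0 ≤ hi := by rw [hx0]; exact hfhi v0
      have hocc' : ∀ v ∈ t', occ V v lo x0 ≤ k ∧ occ V v x0 hi ≤ k := by
        intro v hv
        have hv' := Finset.mem_filter.mp hv
        have hsum := occ_add V v hlo0 h0hi
        have hle := hocc v (htS hv'.1)
        by_cases hne : (O v).Nonempty
        · have g1 := (hO v _).mp (hfO v hne)
          have g2 := (hO v _).mp (hgO v hne)
          have g3 := hfx0 v hv'.1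
          have g4 := hx0g v hv'.1
          have g5 : f v ≠ x0 := fun h => hv'.2 (by rw [← h]; exact g1.2)
          have o1 : 0 < occ V v lo x0 := by
            unfold occ
            rw [Finset.card_pos]
            exact ⟨f v, by rw [Finset.mem_filter, Finset.mem_Ico]; exact ⟨⟨g1.1.1, by omega⟩, g1.2⟩⟩
          have o2 : 0 < occ V v x0 hi := by
            unfold occ
            rw [Finset.card_pos]
            exact ⟨g v, by rw [Finset.mem_filter, Finset.mem_Ico]; exact ⟨⟨g4, g2.1.2⟩, g2.2⟩⟩
          omega
        · have : occ V v lo hi = 0 := by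
            unfold occ
            rw [Finset.card_eq_zero]
            exact Finset.not_nonempty_iff_eq_empty.mp hne
          omega
      have ht'S : t' ⊆ S := (Finset.filter_subset _ _).trans htS
      obtain ⟨s1, hs1, hs1i, hs1A⟩ := ih (alN k (2 ^ (M + M))) (alN_pos k (by positivity)) lo x0 hlo0
        t' ht'c (fun l v hv w hw => hdis l v (ht'S hv) w (ht'S hw)) (fun v hv => (hocc' v hv).1)
      let S2 := (Finset.range (alN k (2 ^ (M + M)))).image s1
      have hinj1 : Set.InjOn s1 (Finset.range (alN k (2 ^ (M + M))) : Set ℕ) := by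
        intro a ha b hb hab
        rw [Finset.mem_coe, Finset.mem_range] at ha hb
        rcases lt_trichotomy a b with h | h | h
        · exact absurd hab (hs1i a b h hb)
        · exact h
        · exact absurd hab.symm (hs1i b a h ha)
      have hS2c : alN k (2 ^ (M + M)) ≤ S2.card := by
        show _ ≤ ((Finset.range (alN k (2 ^ (M + M)))).image s1).card
        rw [Finset.card_image_of_injOn hinj1, Finset.card_range]
      have hS2t : ∀ v ∈ S2, v ∈ t' := by
        intro v hv
        obtain ⟨a, ha, rfl⟩ := Finset.mem_image.mp hv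
        exact hs1 a (Finset.mem_range.mp ha)
      obtain ⟨s2, hs2, hs2i, hs2A⟩ := ih (2 ^ (M + M)) (by positivity) x0 hi h0hi S2 hS2c
        (fun l v hv w hw => hdis l v (ht'S (hS2t v hv)) w (ht'S (hS2t w hw)))
        (fun v hv => (hocc' v (hS2t v hv)).2)
      have hidx : ∀ a, ∃ b, a < 2 ^ (M + M) → b < alN k (2 ^ (M + M)) ∧ s1 b = s2 a := by
        intro a
        by_cases ha : a < 2 ^ (M + M)
        · obtain ⟨b, hb, hb'⟩ := Finset.mem_image.mp (hs2 a ha)
          exact ⟨b, fun _ => ⟨Finset.mem_range.mp hb, hb'⟩⟩
        · exact ⟨0, fun h => absurd h ha⟩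
      choose g2 hg2 using hidx
      have hg2i : ∀ a b, a < 2 ^ (M + M) → b < 2 ^ (M + M) → a ≠ b → g2 a ≠ g2 b := by
        intro a b ha hb hab heq
        have h1 := (hg2 a ha).2
        have h2 := (hg2 b hb).2
        rw [heq, h2] at h1
        rcases Nat.lt_or_gt_of_ne hab with h | h
        · exact hs2i a b h hb h1.symm
        · exact hs2i b a h ha h1
      rcases ramsey (fun x y : ℕ => (x < y ∧ g2 x < g2 y) ∨ (y < x ∧ g2 y < g2 x))
        (fun x y h => h.symm) (M + M) M M rfl (Finset.range (2 ^ (M + M))) (by simp)
        with ⟨t2, ht2, ht2c, ht2G⟩ | ⟨t2, ht2, ht2c, ht2G⟩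
      · -- the same order
        obtain ⟨h, hh, hhm⟩ := exists_enum t2
        rw [ht2c] at hh hhm
        have hlt : ∀ a, a < M → h a < 2 ^ (M + M) := fun a ha => Finset.mem_range.mp (ht2 (hh a ha))
        have hgm : ∀ a b, a < b → b < M → g2 (h a) < g2 (h b) := by
          intro a b hab hb
          have h1 := hhm a b hab hb
          rcases ht2G _ (hh a (by omega)) _ (hh b hb) (by omega) with h2 | h2
          · exact h2.2
          · omega
        refine ⟨fun a => s2 (h a), fun a ha => ht'S (hS2t _ (hs2 _ (hlt a ha))), ?_, ?_⟩
        · intro a b hab hb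
          exact hs2i _ _ (hhm a b hab hb) (hlt b hb)
        · have A1 := (hs1A.sub hM (g := fun a => g2 (h a)) (fun a ha => (hg2 _ (hlt a ha)).1)
            hgm).congr (s' := fun a => s2 (h a)) (fun a ha => (hg2 _ (hlt a ha)).2)
          have A2 := hs2A.sub hM (g := h) hlt hhm
          have := A1.append A2
          rw [← two_mul, ← pow_succ'] at this
          exact this
      · -- the reversed order
        obtain ⟨h, hh, hhm⟩ := exists_enum t2
        rw [ht2c] at hh hhm
        have hlt : ∀ a, a < M → h a < 2 ^ (M + M) := fun a ha => Finset.mem_range.mp (ht2 (hh a ha))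
        have hgm : ∀ a b, a < b → b < M → g2 (h b) < g2 (h a) := by
          intro a b hab hb
          have h1 := hhm a b hab hb
          have h2 := ht2G _ (hh a (by omega)) _ (hh b hb) (by omega)
          have h3 := hg2i _ _ (hlt a (by omega)) (hlt b hb) (by omega)
          by_contra hcon
          exact h2 (Or.inl ⟨h1, by omega⟩)
        refine ⟨fun a => s2 (h (M - 1 - a)),
          fun a ha => ht'S (hS2t _ (hs2 _ (hlt _ (by omega)))), ?_, ?_⟩
        · intro a b hab hb heq
          exact hs2i _ _ (hhm (M - 1 - b) (M - 1 - a) (by omega) (by omega)) (hlt _ (by omega))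
            heq.symm
        · have A1 := (hs1A.sub hM (g := fun a => g2 (h (M - 1 - a)))
            (fun a ha => (hg2 _ (hlt _ (by omega))).1)
            (fun a b hab hb => hgm _ _ (by omega) (by omega))).congr
            (s' := fun a => s2 (h (M - 1 - a))) (fun a ha => (hg2 _ (hlt _ (by omega))).2)
          have A2 := (hs2A.sub hM (g := h) hlt hhm).rev
          have := A1.append A2
          rw [← two_mul, ← pow_succ'] at this
          exact this
    · -- disjoint spans
      have hfi : Set.InjOn f (t : Set σ) := by
        intro v hv w hw hvw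
        by_contra hne
        apply htG v hv w hw hne
        exact ⟨by rw [hvw]; exact hfg w, by rw [← hvw]; exact hfg v⟩
      obtain ⟨h, hh, hhm⟩ := exists_enum (t.image f)
      rw [Finset.card_image_of_injOn hfi, htc] at hh hhm
      have hex : ∀ a, ∃ v, a < M → v ∈ t ∧ f v = h a := by
        intro a
        by_cases ha : a < M
        · obtain ⟨v, hv, hv'⟩ := Finset.mem_image.mp (hh a ha)
          exact ⟨v, fun _ => ⟨hv, hv'⟩⟩
        · obtain ⟨v, hv⟩ := Finset.card_pos.mp (show 0 < t.card by omega)
          exact ⟨v, fun h => absurd h ha⟩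
      choose s hs using hex
      have hfm : ∀ a b, a < b → b < M → f (s a) < f (s b) := by
        intro a b hab hb
        rw [(hs a (by omega)).2, (hs b hb).2]
        exact hhm a b hab hb
      have hgf : ∀ a b, a < b → b < M → g (s a) < f (s b) := by
        intro a b hab hb
        have h1 := hfm a b hab hb
        have hne : s a ≠ s b := fun h => by rw [h] at h1; omega
        have h2 := htG _ (hs a (by omega)).1 _ (hs b hb).1 hne
        by_contra hcon
        apply h2
        exact ⟨h1.le.trans (hfg _), by omega⟩
      refine ⟨s, fun a ha => htS (hs a ha).1, fun a b hab hb heq => ?_, ?_⟩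
      · have := hfm a b hab hb
        rw [heq] at this
        omega
      · apply Align.pad (p := 1) _ (Nat.one_le_two_pow)
        refine ⟨fun i => if i = 0 then lo else hi, fun _ => true,
          fun _ a => if a = 0 then lo else if a < M then f (s a) else hi, by simp, by simp, ?_⟩
        intro i hi'
        have : i = 0 := by omega
        subst this
        refine ⟨by simpa using hlh, ?_, fun h => by cases h⟩
        intro _
        refine ⟨by simp, by simp [hM.ne'], ?_⟩
        intro a ha
        have e1 : (if a + 1 = 0 then lo else if a + 1 < M then f (s (a + 1)) else hi) =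
            if a + 1 < M then f (s (a + 1)) else hi := by simp
        refine ⟨?_, ?_⟩
        · show (if a = 0 then lo else if a < M then f (s a) else hi) ≤
            (if a + 1 = 0 then lo else if a + 1 < M then f (s (a + 1)) else hi)
          rw [e1]
          split_ifs with h1 h2 h3
          · exact hlof _
          · exact hlh
          · exact (hfm a (a + 1) (by omega) h3).le
          · exact hfhi _
        · intro l hl1 hl2 a' ha' hne hmem
          have hl1' : (if a = 0 then lo else if a < M then f (s a) else hi) ≤ l := hl1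
          have hl2' : l < (if a + 1 = 0 then lo else if a + 1 < M then f (s (a + 1)) else hi) := hl2
          rw [e1] at hl2'
          have hlo' : lo ≤ l := by
            refine le_trans ?_ hl1'
            split_ifs
            · exact le_rfl
            · exact hlof _
          have hhi' : l < hi := by
            refine lt_of_lt_of_le hl2' ?_
            split_ifs
            · exact hfhi _
            · exact le_rfl
          have hlO : l ∈ O (s a') := (hO _ _).mpr ⟨⟨hlo', hhi'⟩, hmem⟩
          rcases Nat.lt_or_gt_of_ne hne with hlt | hgt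
          · have h1 : ¬ a = 0 := by omega
            rw [if_neg h1, if_pos ha] at hl1'
            have h2 := hgf a' a hlt ha
            have h3 := hg _ _ hlO
            omega
          · have h1 : a + 1 < M := by omega
            rw [if_pos h1] at hl2'
            have h2 : f (s (a + 1)) ≤ f (s a') := by
              rcases Nat.eq_or_lt_of_le (show a + 1 ≤ a' from hgt) with h | h
              · rw [h]
              · exact (hfm _ _ h ha').le
            have h3 := hf _ _ hlO
            omega

end Align

end Pool.Agent.UO
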