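import Mathlib
import Pool.Agent.Helper12_UO.Seg

/-! Tensor products of finitely many passes. -/

namespace Pool.Agent.UO

open Matrix

variable {F : Type*} [Field F] {r : ℕ}

/-- The tensor product of the images of the members of a family. -/
def tens {ι R : Type*} [Fintype ι] [DecidableEq ι] [Fintype R] [DecidableEq R]
    (Θ : Matrix (Fin r) (Fin r) F →* Matrix R R F) :
    (ι → Matrix (Fin r) (Fin r) F) →* Matrix (ι → R) (ι → R) F where
  toFun G := Matrix.of fun a b => ∏ e, Θ (G e) (a e) (b e)
  map_one' := by
    ext a b
    rw [Matrix.of_apply]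
    simp only [Pi.one_apply, map_one]
    by_cases h : a = b
    · subst h
      simp
    · rw [Matrix.one_apply_ne h]
      obtain ⟨i, hi⟩ : ∃ i, a i ≠ b i := by
        by_contra hcon
        push Not at hcon
        exact h (funext hcon)
      exact Finset.prod_eq_zero (Finset.mem_univ i) (Matrix.one_apply_ne hi)
  map_mul' A B := by
    ext a b
    simp only [Matrix.of_apply, Matrix.mul_apply, Pi.mul_apply, map_mul]
    rw [Finset.prod_univ_sum, Fintype.piFinset_univ]
    refine Finset.sum_congr rfl fun c _ => ?_
    rw [Finset.prod_mul_distrib]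

theorem tens_apply {ι R : Type*} [Fintype ι] [DecidableEq ι] [Fintype R] [DecidableEq R]
    (Θ : Matrix (Fin r) (Fin r) F →* Matrix R R F) (G : ι → Matrix (Fin r) (Fin r) F)
    (a b : ι → R) : tens Θ G a b = ∏ e, Θ (G e) (a e) (b e) := rfl

/-- A linear functional of an ordered product is a linear functional of the tensor product of the
factors, some of them transposed. -/
theorem exists_pathFun {R : Type*} [Fintype R] [DecidableEq R] (d : ℕ → Bool) :
    ∀ (p : ℕ) (φ0 : Matrix R R F →ₗ[F] F),
    ∃ φ : Matrix (Fin p → R) (Fin p → R) F →ₗ[F] F, ∀ G : ℕ → Matrix R R F,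
      φ (Matrix.of fun a b => ∏ e : Fin p,
        (if d e = true then G e else (G e)ᵀ) (a e) (b e)) = φ0 (seg G 0 p) := by
  intro p
  induction p with
  | zero =>
    intro φ0
    refine ⟨⟨⟨fun Z => Z Fin.elim0 Fin.elim0 * φ0 1, ?_⟩, ?_⟩, ?_⟩
    · intro X Y
      simp only [Matrix.add_apply, add_mul]
    · intro c X
      simp only [Matrix.smul_apply, smul_eq_mul, RingHom.id_apply, mul_assoc]
    · intro G
      rw [seg_self]
      show (∏ e : Fin 0, (if d e = true then G e else (G e)ᵀ) (Fin.elim0 e) (Fin.elim0 e)) *
        φ0 1 = φ0 1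
      rw [Finset.univ_eq_empty, Finset.prod_empty, one_mul]
  | succ p ih =>
    intro φ0
    choose φ hφ using fun zw : R × R => ih (φ0.comp (LinearMap.mulRight F (Matrix.single zw.1 zw.2 (1 : F))))
    refine ⟨⟨⟨fun Z => ∑ zw : R × R, φ zw (Matrix.of fun a b =>
      Z (Fin.snoc a (if d p = true then zw.1 else zw.2))
        (Fin.snoc b (if d p = true then zw.2 else zw.1))), ?_⟩, ?_⟩, ?_⟩
    · intro X Y
      rw [← Finset.sum_add_distrib]
      refine Finset.sum_congr rfl fun zw _ => ?_
      rw [← map_add]
      congr 1
    · intro c X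
      rw [RingHom.id_apply, smul_eq_mul, Finset.mul_sum]
      refine Finset.sum_congr rfl fun zw _ => ?_
      rw [← smul_eq_mul, ← map_smul]
      congr 1
    · intro G
      show ∑ zw : R × R, φ zw (Matrix.of fun a b => (∏ e : Fin (p + 1),
        (if d e = true then G e else (G e)ᵀ)
          ((Fin.snoc a (if d p = true then zw.1 else zw.2) : Fin (p + 1) → R) e)
          ((Fin.snoc b (if d p = true then zw.2 else zw.1) : Fin (p + 1) → R) e))) = _
      have hstep : ∀ zw : R × R, φ zw (Matrix.of fun a b => (∏ e : Fin (p + 1),
          (if d e = true then G e else (G e)ᵀ)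
          ((Fin.snoc a (if d p = true then zw.1 else zw.2) : Fin (p + 1) → R) e)
          ((Fin.snoc b (if d p = true then zw.2 else zw.1) : Fin (p + 1) → R) e))) =
          G p zw.1 zw.2 * φ0 (seg G 0 p * Matrix.single zw.1 zw.2 1) := by
        intro zw
        have h1 : (Matrix.of fun a b => (∏ e : Fin (p + 1),
            (if d e = true then G e else (G e)ᵀ)
            ((Fin.snoc a (if d p = true then zw.1 else zw.2) : Fin (p + 1) → R) e)
            ((Fin.snoc b (if d p = true then zw.2 else zw.1) : Fin (p + 1) → R) e))) =
            G p zw.1 zw.2 • (Matrix.of fun a b => ∏ e : Fin p,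
              (if d e = true then G e else (G e)ᵀ) (a e) (b e)) := by
          ext a b
          rw [Matrix.of_apply, Matrix.smul_apply, Matrix.of_apply, Fin.prod_univ_castSucc,
            smul_eq_mul, mul_comm]
          congr 1
          · simp only [Fin.snoc_last, Fin.val_last]
            split_ifs
            · rfl
            · rfl
          · refine Finset.prod_congr rfl fun e _ => ?_
            simp only [Fin.snoc_castSucc, Fin.val_castSucc]
        rw [h1, map_smul, hφ zw, smul_eq_mul]
        rfl
      rw [Finset.sum_congr rfl fun zw _ => hstep zw]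
      have h2 : seg G 0 (p + 1) = seg G 0 p * G p := by
        rw [← seg_mul G (Nat.zero_le p) (Nat.le_succ p)]
        congr 1
        exact seg_succ G p
      rw [h2]
      conv_rhs => rw [Matrix.matrix_eq_sum_single (G p), Matrix.mul_sum, map_sum]
      rw [Fintype.sum_prod_type]
      refine Finset.sum_congr rfl fun z _ => ?_
      rw [Matrix.mul_sum, map_sum]
      refine Finset.sum_congr rfl fun w _ => ?_
      have h3 : Matrix.single z w (G p z w) = G p z w • Matrix.single z w (1 : F) := by
        rw [Matrix.smul_single, smul_eq_mul, mul_one]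
      rw [h3, Matrix.mul_smul, map_smul, smul_eq_mul]

end Pool.Agent.UO
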