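import Mathlib

/-! Cutting an interval that contains many marked positions. -/

namespace Pool.Agent.UO

/-- The number of marked positions in `[i, j)`. -/
def cnt (K : Finset ℕ) (i j : ℕ) : ℕ := (K.filter fun k => i ≤ k ∧ k < j).card

theorem cnt_self (K : Finset ℕ) (i : ℕ) : cnt K i i = 0 := by
  unfold cnt
  rw [Finset.card_eq_zero, Finset.filter_eq_empty_iff]
  intro k _ h
  omega

theorem cnt_add (K : Finset ℕ) {i j l : ℕ} (h1 : i ≤ j) (h2 : j ≤ l) :
    cnt K i j + cnt K j l = cnt K i l := by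
  unfold cnt
  rw [← Finset.card_union_of_disjoint]
  · congr 1
    ext k
    simp only [Finset.mem_union, Finset.mem_filter]
    constructor
    · rintro (⟨a, b, c⟩ | ⟨a, b, c⟩)
      · exact ⟨a, b, by omega⟩
      · exact ⟨a, by omega, c⟩
    · rintro ⟨a, b, c⟩
      by_cases hk : k < j
      · exact Or.inl ⟨a, b, hk⟩
      · exact Or.inr ⟨a, by omega, c⟩
  · rw [Finset.disjoint_left]
    intro k hk hk'
    rw [Finset.mem_filter] at hk hk'
    omega

theorem cnt_succ (K : Finset ℕ) (i : ℕ) : cnt K i (i + 1) ≤ 1 := by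
  unfold cnt
  rw [Finset.card_le_one]
  intro a ha b hb
  rw [Finset.mem_filter] at ha hb
  omega

theorem exists_of_cnt_pos {K : Finset ℕ} {i j : ℕ} (h : 0 < cnt K i j) :
    ∃ k ∈ K, i ≤ k ∧ k < j := by
  unfold cnt at h
  obtain ⟨k, hk⟩ := Finset.card_pos.mp h
  rw [Finset.mem_filter] at hk
  exact ⟨k, hk.1, hk.2⟩

/-- There is a cut after exactly `c` marked positions. -/
theorem exists_cut (K : Finset ℕ) {i j c : ℕ} (hij : i ≤ j) (h : c ≤ cnt K i j) :
    ∃ q, i ≤ q ∧ q ≤ j ∧ cnt K i q = c := by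
  induction j, hij using Nat.le_induction with
  | base =>
    rw [cnt_self] at h
    exact ⟨i, le_rfl, le_rfl, by rw [cnt_self]; omega⟩
  | succ j hj ih =>
    by_cases hc : c ≤ cnt K i j
    · obtain ⟨q, h1, h2, h3⟩ := ih hc
      exact ⟨q, h1, by omega, h3⟩
    · refine ⟨j + 1, by omega, le_rfl, ?_⟩
      have h1 := cnt_add K hj (Nat.le_succ j)
      have h2 := cnt_succ K j
      simp only [Nat.succ_eq_add_one] at h1
      omega

/-- Splitting an interval into `m` consecutive parts with many marked positions each. -/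
theorem exists_split (K : Finset ℕ) (c : ℕ) : ∀ (m : ℕ) {i j : ℕ}, i ≤ j → m * c ≤ cnt K i j →
    ∃ p : ℕ → ℕ, p 0 = i ∧ p m ≤ j ∧ ∀ a, a < m → p a ≤ p (a + 1) ∧ c ≤ cnt K (p a) (p (a + 1)) := by
  intro m
  induction m with
  | zero =>
    intro i j hij _
    exact ⟨fun _ => i, rfl, hij, fun a ha => absurd ha (by omega)⟩
  | succ m ih =>
    intro i j hij h
    have hmc : c ≤ cnt K i j := by nlinarith [Nat.zero_le (m * c)]
    obtain ⟨q, h1, h2, h3⟩ := exists_cut K hij hmc
    have h4 := cnt_add K h1 h2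
    have h5 : m * c ≤ cnt K q j := by
      rw [h3] at h4
      have : (m + 1) * c = m * c + c := by ring
      omega
    obtain ⟨p, hp0, hpm, hp⟩ := ih h2 h5
    refine ⟨fun a => if a = 0 then i else p (a - 1), by simp, ?_, ?_⟩
    · simp only [Nat.add_eq_zero_iff, one_ne_zero, and_false, ↓reduceIte, Nat.add_sub_cancel]
      exact hpm
    · intro a ha
      by_cases ha0 : a = 0
      · subst ha0
        simp only [↓reduceIte, zero_add, one_ne_zero, Nat.sub_self, hp0]
        exact ⟨h1, h3.ge⟩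
      · have e : a - 1 + 1 = a := by omega
        have := hp (a - 1) (by omega)
        rw [e] at this
        simp only [ha0, ↓reduceIte, Nat.add_eq_zero_iff, one_ne_zero, and_false,
          Nat.add_sub_cancel]
        exact this

theorem mono_of_step {p : ℕ → ℕ} {m : ℕ} (h : ∀ a, a < m → p a ≤ p (a + 1)) :
    ∀ a b, a ≤ b → b ≤ m → p a ≤ p b := by
  intro a b hab hb
  induction b, hab using Nat.le_induction with
  | base => exact le_rfl
  | succ b _ ih => exact (ih (by omega)).trans (h b (by omega))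

/-- For a rank function decreasing under inclusion of intervals, an interval with many marked
positions contains `m` consecutive blocks with marked positions such that all blocks and their
union have the same rank. -/
theorem exists_blocks (K : Finset ℕ) (rk : ℕ → ℕ → ℕ) (r m : ℕ) (hm : 0 < m)
    (hr : ∀ i j, rk i j ≤ r)
    (hmono : ∀ i i' j' j, i ≤ i' → i' ≤ j' → j' ≤ j → rk i j ≤ rk i' j') :
    ∀ (h : ℕ) {lo hi : ℕ}, lo ≤ hi → r ≤ rk lo hi + h → m ^ (h + 1) ≤ cnt K lo hi →
    ∃ p : ℕ → ℕ, lo ≤ p 0 ∧ p m ≤ hi ∧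
      (∀ a, a < m → p a ≤ p (a + 1) ∧ 0 < cnt K (p a) (p (a + 1))) ∧
      ∀ a, a < m → rk (p a) (p (a + 1)) = rk (p 0) (p m) := by
  intro h
  induction h with
  | zero =>
    intro lo hi hle hrk hc
    obtain ⟨p, h0, h1, h2⟩ := exists_split K 1 m hle (by simpa using hc)
    have hmn := mono_of_step fun a ha => (h2 a ha).1
    refine ⟨p, h0.ge, h1, fun a ha => ⟨(h2 a ha).1, (h2 a ha).2⟩, ?_⟩
    have key : ∀ i j, lo ≤ i → i ≤ j → j ≤ hi → rk i j = r := by
      intro i j ha hb hc'
      have := hmono lo i j hi ha hb hc'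
      have := hr i j
      omega
    intro a ha
    rw [key _ _ _ (h2 a ha).1 _, key _ _ h0.ge (hmn 0 m (by omega) le_rfl) h1]
    · rw [← h0]; exact hmn 0 a (by omega) (by omega)
    · exact (hmn (a + 1) m (by omega) le_rfl).trans h1
  | succ h ih =>
    intro lo hi hle hrk hc
    obtain ⟨p, h0, h1, h2⟩ := exists_split K (m ^ (h + 1)) m hle
      (by rw [← pow_succ']; exact hc)
    have hmn := mono_of_step fun a ha => (h2 a ha).1
    by_cases hall : ∀ a, a < m → rk (p a) (p (a + 1)) = rk lo hi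
    · have e0 : rk (p 0) (p m) = rk lo hi := by
        apply le_antisymm
        · rw [← hall 0 hm]
          exact hmono _ _ _ _ le_rfl (hmn 0 1 (by omega) (by omega)) (hmn 1 m (by omega) le_rfl)
        · exact hmono _ _ _ _ h0.ge (hmn 0 m (by omega) le_rfl) h1
      refine ⟨p, h0.ge, h1, fun a ha => ⟨(h2 a ha).1, ?_⟩, fun a ha => by rw [hall a ha, e0]⟩
      exact lt_of_lt_of_le (by positivity) (h2 a ha).2
    · push Not at hall
      obtain ⟨a, ha, hne⟩ := hall
      have hlo : lo ≤ p a := by rw [← h0]; exact hmn 0 a (by omega) (by omega)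
      have hhi : p (a + 1) ≤ hi := (hmn (a + 1) m (by omega) le_rfl).trans h1
      have hge := hmono lo (p a) (p (a + 1)) hi hlo (h2 a ha).1 hhi
      obtain ⟨p', g0, g1, g2, g3⟩ := ih (h2 a ha).1 (by omega) (h2 a ha).2
      exact ⟨p', hlo.trans g0, g1.trans hhi, g2, g3⟩

end Pool.Agent.UO
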