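import Mathlib
import Pool.Agent.Helper12_UO.Seg
import Pool.Agent.Helper12_UO.Cuts

/-! Low support perturbations of a base point at which all intervals have maximal rank; version for
families of products. -/

namespace Pool.Agent.UO

open Matrix

/-- A family (indexed by `ε`) of read-once programs of width `r` that read the variables in the same
order: layer `k` is a family of polynomial matrices in the variables `i` with `lay i = k`. -/
structure VProg (F : Type*) [Field F] (σ ε : Type*) (r : ℕ) where
  T : ℕ → (σ → F) → (ε → Matrix (Fin r) (Fin r) F)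
  lay : σ → ℕ
  poly : ∀ k e, IsPolyMat (fun y => T k y e)
  dep : ∀ k (y y' : σ → F), (∀ i, lay i = k → y i = y' i) → T k y = T k y'

namespace VProg

variable {F : Type*} [Field F] {σ ε : Type*} {r : ℕ} (A : VProg F σ ε r)

/-- The product of the layers `i, ..., j-1`. -/
def P (i j : ℕ) (y : σ → F) : ε → Matrix (Fin r) (Fin r) F := seg (fun k => A.T k y) i j

theorem P_apply (i j : ℕ) (y : σ → F) (e : ε) : A.P i j y e = seg (fun k => A.T k y e) i j :=
  map_seg (Pi.evalMonoidHom (fun _ : ε => Matrix (Fin r) (Fin r) F) e) _ i j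

theorem P_self (i : ℕ) (y : σ → F) : A.P i i y = 1 := seg_self _ _

theorem P_succ (i : ℕ) (y : σ → F) : A.P i (i + 1) y = A.T i y := seg_succ _ _

theorem P_mul {i j k : ℕ} (h1 : i ≤ j) (h2 : j ≤ k) (y : σ → F) :
    A.P i j y * A.P j k y = A.P i k y := seg_mul _ h1 h2

theorem P_congr {i j : ℕ} {y y' : σ → F} (h : ∀ v, i ≤ A.lay v → A.lay v < j → y v = y' v) :
    A.P i j y = A.P i j y' := by
  unfold P
  apply seg_congr
  intro k h1 h2
  apply A.dep
  intro v hv
  exact h v (by omega) (by omega)

theorem P_poly (i j : ℕ) (e : ε) : IsPolyMat (fun y => A.P i j y e) := by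
  have := IsPolyMat.seg (T := fun k y => A.T k y e) (fun k => A.poly k e) i j
  intro a b
  have h := this a b
  simpa only [P_apply] using h

theorem rank_mono (y : σ → F) (e : ε) {i i' j' j : ℕ} (h1 : i ≤ i') (h2 : i' ≤ j') (h3 : j' ≤ j) :
    (A.P i j y e).rank ≤ (A.P i' j' y e).rank := by
  rw [← A.P_mul h1 (h2.trans h3) y, ← A.P_mul h2 h3 y, Pi.mul_apply, Pi.mul_apply]
  exact (Matrix.rank_mul_le_right _ _).trans (Matrix.rank_mul_le_left _ _)

end VProg

section

variable {F : Type*} [Field F]

/-- Right multiplication as a linear map. -/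
def mulR {R : Type*} [Fintype R] [DecidableEq R] (B : Matrix R R F) :
    Matrix R R F →ₗ[F] Matrix R R F := LinearMap.mulRight F B

theorem mulR_apply {R : Type*} [Fintype R] [DecidableEq R] (B x : Matrix R R F) :
    mulR B x = x * B := rfl

theorem map_mulR_mulR {R : Type*} [Fintype R] [DecidableEq R] (B C : Matrix R R F)
    (L : Submodule F (Matrix R R F)) : (L.map (mulR B)).map (mulR C) = L.map (mulR (B * C)) := by
  rw [← Submodule.map_comp]
  congr 1
  ext1 x
  simp only [LinearMap.comp_apply, mulR_apply, Matrix.mul_assoc]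

end

/-- **Lemma A**, for families of products read in the same order. -/
theorem vlemmaA {F : Type*} [Field F] [Infinite F] {σ ε : Type*} [Fintype ε] {r : ℕ}
    (A : VProg F σ ε r)
    (b : σ → F) (lo hi : ℕ) (hlohi : lo ≤ hi)
    (hb : ∀ i j, lo ≤ i → i ≤ j → j ≤ hi → ∀ y e, (A.P i j y e).rank ≤ (A.P i j b e).rank)
    {R : Type*} [Fintype R] [DecidableEq R]
    (Θ : (ε → Matrix (Fin r) (Fin r) F) →* Matrix R R F)
    (hΘ : ∀ T : (σ → F) → (ε → Matrix (Fin r) (Fin r) F), (∀ e, IsPolyMat (fun y => T y e)) →
      IsPolyMat (fun y => Θ (T y)))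
    (φ : Matrix R R F →ₗ[F] F) (h : ∃ y, φ (Θ (A.P lo hi y)) ≠ 0) :
    ∃ (K : Finset ℕ) (y : σ → F),
      K.card < (2 * (Fintype.card R * Fintype.card R) + 3) ^ (Fintype.card ε * r + 1) ∧
      K ⊆ Finset.Ico lo hi ∧ (∀ i, A.lay i ∉ K → y i = b i) ∧ φ (Θ (A.P lo hi y)) ≠ 0 := by
  classical
  obtain ⟨m, hm⟩ : ∃ m, m = 2 * (Fintype.card R * Fintype.card R) + 3 := ⟨_, rfl⟩
  rw [← hm]
  -- minimal set of layers
  have hex : ∃ c, ∃ K : Finset ℕ, K.card = c ∧ K ⊆ Finset.Ico lo hi ∧
      ∃ y : σ → F, (∀ i, A.lay i ∉ K → y i = b i) ∧ φ (Θ (A.P lo hi y)) ≠ 0 := by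
    obtain ⟨y, hy⟩ := h
    refine ⟨_, Finset.Ico lo hi, rfl, Finset.Subset.refl _,
      fun i => if A.lay i ∈ Finset.Ico lo hi then y i else b i, ?_, ?_⟩
    · intro i hi
      simp only [hi, ↓reduceIte]
    · rw [A.P_congr (y' := y)]
      · exact hy
      · intro v h1 h2
        simp only [Finset.mem_Ico, h1, h2, and_self, ↓reduceIte]
  obtain ⟨K, hKc, hKs, y1, hy1, hf1⟩ := Nat.find_spec hex
  have hmin : ∀ K' : Finset ℕ, K' ⊆ Finset.Ico lo hi → K'.card < K.card →
      ∀ y : σ → F, (∀ i, A.lay i ∉ K' → y i = b i) → φ (Θ (A.P lo hi y)) = 0 := by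
    intro K' hK' hc y hy
    by_contra hne
    have := Nat.find_min hex (m := K'.card) (by rw [← hKc]; exact hc)
    exact this ⟨K', rfl, hK', y, hy, hne⟩
  refine ⟨K, y1, ?_, hKs, hy1, hf1⟩
  by_contra hcard
  push Not at hcard
  have hcnt : cnt K lo hi = K.card := by
    unfold cnt
    rw [Finset.filter_true_of_mem]
    intro k hk
    exact Finset.mem_Ico.mp (hKs hk)
  obtain ⟨p, hp0, hpm, hp, hrk⟩ := exists_blocks K (fun i j => ∑ e, (A.P i j b e).rank)
    (Fintype.card ε * r) m (by omega)
    (fun i j => by
      calc ∑ e, (A.P i j b e).rank ≤ ∑ _e : ε, r := Finset.sum_le_sum fun e _ => by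
            simpa using Matrix.rank_le_card_width (A.P i j b e)
        _ = Fintype.card ε * r := by simp)
    (fun i i' j' j h1 h2 h3 => Finset.sum_le_sum fun e _ => A.rank_mono b e h1 h2 h3)
    (Fintype.card ε * r) hlohi (by omega)
    (by rw [hcnt]; exact hcard)
  have hmn := mono_of_step fun a ha => (hp a ha).1
  obtain ⟨s, hs⟩ : ∃ s : ε → ℕ, ∀ e, s e = (A.P (p 0) (p m) b e).rank := ⟨_, fun _ => rfl⟩
  have hrk' : ∀ a, a < m → ∀ e, (A.P (p a) (p (a + 1)) b e).rank = s e := fun a ha e => by
    have h1 : ∀ e ∈ (Finset.univ : Finset ε),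
        (A.P (p 0) (p m) b e).rank ≤ (A.P (p a) (p (a + 1)) b e).rank := fun e _ =>
      A.rank_mono b e (hmn 0 a (by omega) (by omega)) (hmn a (a + 1) (by omega) (by omega))
        (hmn (a + 1) m (by omega) le_rfl)
    have h2 := (Finset.sum_eq_sum_iff_of_le h1).mp (hrk a ha).symm e (Finset.mem_univ e)
    rw [hs e]
    exact h2.symm
  -- spans of the left products
  let L : ℕ → Submodule F (Matrix R R F) := fun a =>
    Submodule.span F {x | ∃ y : σ → F, (∀ i, A.lay i ∉ K → y i = b i) ∧ x = Θ (A.P lo (p a) y)}
  let E : ℕ → (ε → Matrix (Fin r) (Fin r) F) := fun a => A.P (p a) (p (a + 1)) b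
  let n : ℕ → ℕ := fun a => Module.finrank F ((L a).map (mulR (Θ (E a))))
  have hlop : ∀ a, a ≤ m → lo ≤ p a := fun a ha => hp0.trans (hmn 0 a (by omega) ha)
  have hphi : ∀ a, a ≤ m → p a ≤ hi := fun a ha => (hmn a m ha le_rfl).trans hpm
  -- the key step
  have hstep : ∀ a, a + 3 ≤ m → n a < n (a + 2) := by
    intro a ha
    by_contra hle
    push Not at hle
    have s01 := (hp a (by omega)).1
    have s12 : p (a + 1) ≤ p (a + 2) := (hp (a + 1) (by omega)).1
    have s23 : p (a + 2) ≤ p (a + 3) := (hp (a + 2) (by omega)).1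
    -- the certificate for the three middle blocks at the base point
    have hE3 : ∀ e, s e ≤ (E a e * E (a + 1) e * E (a + 2) e).rank := by
      intro e
      have e1 : E a e * E (a + 1) e * E (a + 2) e = A.P (p a) (p (a + 3)) b e := by
        have e2 : E a * E (a + 1) * E (a + 2) = A.P (p a) (p (a + 3)) b := by
          show A.P (p a) (p (a + 1)) b * A.P (p (a + 1)) (p (a + 1 + 1)) b *
            A.P (p (a + 2)) (p (a + 2 + 1)) b = _
          rw [A.P_mul s01 s12, A.P_mul (s01.trans s12) s23]
        rw [← e2, Pi.mul_apply, Pi.mul_apply]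
      rw [e1, hs]
      exact A.rank_mono b e (hmn 0 a (by omega) (by omega)) (hmn a (a + 3) (by omega) ha)
        (hmn (a + 3) m (by omega) le_rfl)
    choose U V hUV using fun e => exists_cert _ (hE3 e)
    let g : (σ → F) → F := fun y =>
      ∏ e, (U e * (E a e * A.P (p (a + 1)) (p (a + 2)) y e * E (a + 2) e) * V e).det
    have hg : IsPoly g := by
      refine IsPoly.prod _ fun e _ => ?_
      apply IsPolyMat.det
      exact ((IsPolyMat.const (U e)).mul (((IsPolyMat.const _).mul (A.P_poly _ _ e)).mul
        (IsPolyMat.const _))).mul (IsPolyMat.const (V e))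
    have hf : IsPoly (fun y => φ (Θ (A.P lo hi y))) := (hΘ _ (A.P_poly lo hi)).linear φ
    let y0 : σ → F := fun i => if p (a + 1) ≤ A.lay i ∧ A.lay i < p (a + 2) then b i else y1 i
    have hg0 : g y0 ≠ 0 := by
      have e0 : A.P (p (a + 1)) (p (a + 2)) y0 = E (a + 1) := by
        apply A.P_congr
        intro v h1 h2
        simp only [y0, h1, h2, and_self, ↓reduceIte]
      show ∏ e, (U e * (E a e * A.P (p (a + 1)) (p (a + 2)) y0 e * E (a + 2) e) * V e).det ≠ 0
      rw [Finset.prod_ne_zero_iff]
      intro e _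
      rw [e0, hUV e, Matrix.det_one]
      exact one_ne_zero
    obtain ⟨t, hgt, hft⟩ := exists_on_line hg hf hg0 hf1
    obtain ⟨y, hy⟩ : ∃ y : σ → F, y = fun i => y0 i + t * (y1 i - y0 i) := ⟨_, rfl⟩
    rw [← hy] at hgt hft
    have hyK : ∀ i, A.lay i ∉ K → y i = b i := by
      intro i hi
      have e1 := hy1 i hi
      have e0 : y0 i = b i := by
        show (if p (a + 1) ≤ A.lay i ∧ A.lay i < p (a + 2) then b i else y1 i) = b i
        split_ifs
        · rfl
        · exact e1
      rw [hy]
      show y0 i + t * (y1 i - y0 i) = b i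
      rw [e0, e1]
      ring
    -- the middle block
    obtain ⟨B, hB⟩ : ∃ B, B = A.P (p (a + 1)) (p (a + 2)) y := ⟨_, rfl⟩
    have hgB : ∀ e, s e ≤ (E a e * B e * E (a + 2) e).rank := by
      intro e
      apply le_rank_of_cert _ (U e) (V e)
      rw [hB]
      have := Finset.prod_ne_zero_iff.mp hgt e (Finset.mem_univ e)
      exact this
    have hBs : ∀ e, (B e).rank ≤ s e := by
      intro e
      rw [hB, ← hrk' (a + 1) (by omega) e]
      exact hb _ _ (hlop _ (by omega)) s12 (hphi _ (by omega)) y e
    have hZex : ∀ e, ∃ Z, B e * E (a + 2) e * Z = B e := fun e =>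
      exists_recover (B e) (E (a + 2) e) (by
        calc (B e).rank ≤ s e := hBs e
          _ ≤ (E a e * B e * E (a + 2) e).rank := hgB e
          _ ≤ (B e * E (a + 2) e).rank := by
            rw [Matrix.mul_assoc]
            exact Matrix.rank_mul_le_right _ _)
    have hZex' : ∀ e, ∃ Z, E a e * B e * Z = E a e := fun e =>
      exists_recover (E a e) (B e) (by
        calc (E a e).rank = s e := hrk' a (by omega) e
          _ ≤ (E a e * B e * E (a + 2) e).rank := hgB e
          _ ≤ (E a e * B e).rank := Matrix.rank_mul_le_left _ _)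
    choose Z hZ using hZex
    choose Z' hZ' using hZex'
    have hZt : Θ B * Θ (E (a + 2)) * Θ Z = Θ B := by
      rw [← map_mul, ← map_mul]
      congr 1
      exact funext hZ
    have hZt' : Θ (E a) * Θ B * Θ Z' = Θ (E a) := by
      rw [← map_mul, ← map_mul]
      congr 1
      exact funext hZ'
    -- the subspaces
    let N := (L a).map (mulR (Θ (E a)))
    let NB := N.map (mulR (Θ B))
    let Q := (L (a + 1)).map (mulR (Θ B))
    have hNL : N ≤ L (a + 1) := by
      show (L a).map (mulR (Θ (E a))) ≤ L (a + 1)
      rw [Submodule.map_span_le]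
      rintro _ ⟨y', hy', rfl⟩
      apply Submodule.subset_span
      refine ⟨fun i => if A.lay i < p a then y' i else b i, ?_, ?_⟩
      · intro i hi
        show (if A.lay i < p a then y' i else b i) = b i
        split_ifs
        · exact hy' i hi
        · rfl
      · rw [mulR_apply, ← map_mul]
        congr 1
        rw [← A.P_mul (hlop a (by omega)) s01]
        congr 1
        · apply A.P_congr
          intro v _ h2
          simp only [h2, ↓reduceIte]
        · apply A.P_congr
          intro v h1 _
          have : ¬ A.lay v < p a := by omega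
          simp only [this, ↓reduceIte]
    have hNBQ : NB ≤ Q := Submodule.map_mono hNL
    have hQL : Q ≤ L (a + 2) := by
      show (L (a + 1)).map (mulR (Θ B)) ≤ L (a + 2)
      rw [Submodule.map_span_le]
      rintro _ ⟨y', hy', rfl⟩
      apply Submodule.subset_span
      refine ⟨fun i => if A.lay i < p (a + 1) then y' i else y i, ?_, ?_⟩
      · intro i hi
        show (if A.lay i < p (a + 1) then y' i else y i) = b i
        split_ifs
        · exact hy' i hi
        · exact hyK i hi
      · rw [mulR_apply, ← map_mul, hB]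
        congr 1
        rw [← A.P_mul (hlop (a + 1) (by omega)) s12]
        congr 1
        · apply A.P_congr
          intro v _ h2
          simp only [h2, ↓reduceIte]
        · apply A.P_congr
          intro v h1 _
          have : ¬ A.lay v < p (a + 1) := by omega
          simp only [this, ↓reduceIte]
    have hN : N = NB.map (mulR (Θ Z')) := by
      show (L a).map (mulR (Θ (E a))) =
        (((L a).map (mulR (Θ (E a)))).map (mulR (Θ B))).map (mulR (Θ Z'))
      rw [map_mulR_mulR, map_mulR_mulR, ← mul_assoc, hZt']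
    have hQ : Q = (Q.map (mulR (Θ (E (a + 2))))).map (mulR (Θ Z)) := by
      show (L (a + 1)).map (mulR (Θ B)) =
        (((L (a + 1)).map (mulR (Θ B))).map (mulR (Θ (E (a + 2))))).map (mulR (Θ Z))
      rw [map_mulR_mulR, map_mulR_mulR, ← mul_assoc, hZt]
    have d1 : Module.finrank F N ≤ Module.finrank F NB := by
      conv_lhs => rw [hN]
      exact Submodule.finrank_map_le _ _
    have d2 : Module.finrank F Q ≤ Module.finrank F (Q.map (mulR (Θ (E (a + 2))))) := by
      conv_lhs => rw [hQ]
      exact Submodule.finrank_map_le _ _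
    have d3 : Module.finrank F (Q.map (mulR (Θ (E (a + 2))))) ≤ n (a + 2) :=
      Submodule.finrank_mono (Submodule.map_mono hQL)
    have hna : n a = Module.finrank F N := rfl
    have heq : NB = Q := Submodule.eq_of_le_of_finrank_le hNBQ (by omega)
    -- the contradiction
    have hx : Θ (A.P lo (p (a + 1)) y) * Θ B ∈ NB := by
      rw [heq]
      exact ⟨_, Submodule.subset_span ⟨y, hyK, rfl⟩, rfl⟩
    have hker : NB ≤ LinearMap.ker (φ.comp (mulR (Θ (A.P (p (a + 2)) hi y)))) := by
      show ((L a).map (mulR (Θ (E a)))).map (mulR (Θ B)) ≤ _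
      rw [map_mulR_mulR, Submodule.map_span_le]
      rintro _ ⟨y', hy', rfl⟩
      rw [LinearMap.mem_ker, LinearMap.comp_apply, mulR_apply, mulR_apply, ← map_mul, ← map_mul,
        ← map_mul]
      -- the value of the functional at a point whose block `a` is reset
      let y'' : σ → F := fun i => if A.lay i < p a then y' i else
        if A.lay i < p (a + 1) then b i else y i
      have e : A.P lo (p a) y' * (E a * B) * A.P (p (a + 2)) hi y = A.P lo hi y'' := by
        have e1 : A.P lo (p a) y' = A.P lo (p a) y'' := by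
          apply A.P_congr
          intro v _ h2
          simp only [y'', h2, ↓reduceIte]
        have e2 : E a = A.P (p a) (p (a + 1)) y'' := by
          apply A.P_congr
          intro v h1 h2
          have h3 : ¬ A.lay v < p a := by omega
          simp only [y'', h3, h2, ↓reduceIte]
        have e3 : B = A.P (p (a + 1)) (p (a + 2)) y'' := by
          rw [hB]
          apply A.P_congr
          intro v h1 _
          have h3 : ¬ A.lay v < p a := by omega
          have h4 : ¬ A.lay v < p (a + 1) := by omega
          simp only [y'', h3, h4, ↓reduceIte]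
        have e4 : A.P (p (a + 2)) hi y = A.P (p (a + 2)) hi y'' := by
          apply A.P_congr
          intro v h1 _
          have h3 : ¬ A.lay v < p a := by omega
          have h4 : ¬ A.lay v < p (a + 1) := by omega
          simp only [y'', h3, h4, ↓reduceIte]
        rw [e1, e2, e3, e4, A.P_mul s01 s12, A.P_mul (hlop a (by omega)) (s01.trans s12),
          A.P_mul (hlop (a + 2) (by omega)) (hphi (a + 2) (by omega))]
      rw [e]
      obtain ⟨k, hkK, hk1, hk2⟩ := exists_of_cnt_pos (hp a (by omega)).2
      apply hmin (K.erase k) ((Finset.erase_subset _ _).trans hKs)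
        (Finset.card_lt_card (Finset.erase_ssubset hkK))
      intro i hi
      show (if A.lay i < p a then y' i else if A.lay i < p (a + 1) then b i else y i) = b i
      by_cases hik : A.lay i = k
      · have h3 : ¬ A.lay i < p a := by omega
        have h4 : A.lay i < p (a + 1) := by omega
        simp only [h3, h4, ↓reduceIte]
      · have hiK : A.lay i ∉ K := fun hc => hi (Finset.mem_erase.mpr ⟨hik, hc⟩)
        split_ifs
        · exact hy' i hiK
        · rfl
        · exact hyK i hiK
    have hzero := hker hx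
    rw [LinearMap.mem_ker, LinearMap.comp_apply, mulR_apply, ← map_mul, ← map_mul, hB,
      A.P_mul (hlop (a + 1) (by omega)) s12, A.P_mul (hlop (a + 2) (by omega))
      (hphi (a + 2) (by omega))] at hzero
    exact hft hzero
  -- counting
  have hgrow : ∀ j, 2 * j + 1 ≤ m → j ≤ n (2 * j) := by
    intro j
    induction j with
    | zero => intro _; exact Nat.zero_le _
    | succ j ih =>
      intro hj
      have h1 := ih (by omega)
      have h2 := hstep (2 * j) (by omega)
      have e : 2 * (j + 1) = 2 * j + 2 := by ring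
      rw [e]
      omega
  have h1 := hgrow (Fintype.card R * Fintype.card R + 1) (by omega)
  have h2 : n (2 * (Fintype.card R * Fintype.card R + 1)) ≤ Fintype.card R * Fintype.card R := by
    calc n _ ≤ Module.finrank F (Matrix R R F) := Submodule.finrank_le _
      _ = Fintype.card R * Fintype.card R := by
        rw [Module.finrank_matrix]
        simp
  omega

end Pool.Agent.UO
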