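import Mathlib
import Pool.Agent.Helper12_UO.VLemmaA
import Pool.Agent.Helper12_UO.Align
import Pool.Agent.Helper12_UO.Tensor

/-! Low support perturbations for programs that read each variable a bounded number of times. -/

namespace Pool.Agent.UO

open Matrix

/-- A program of width `r`: layer `k` is a polynomial matrix in the variables `V k`. -/
structure KProg (F : Type*) [Field F] (σ : Type*) (r : ℕ) where
  T : ℕ → (σ → F) → Matrix (Fin r) (Fin r) F
  V : ℕ → Finset σ
  poly : ∀ k, IsPolyMat (T k)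
  dep : ∀ k (y y' : σ → F), (∀ i ∈ V k, y i = y' i) → T k y = T k y'

namespace KProg

variable {F : Type*} [Field F] {σ : Type*} {r : ℕ} (A : KProg F σ r)

/-- The product of the layers `i, ..., j-1`. -/
def P (i j : ℕ) (y : σ → F) : Matrix (Fin r) (Fin r) F := seg (fun k => A.T k y) i j

theorem P_self (i : ℕ) (y : σ → F) : A.P i i y = 1 := seg_self _ _

theorem P_succ (i : ℕ) (y : σ → F) : A.P i (i + 1) y = A.T i y := seg_succ _ _

theorem P_mul {i j k : ℕ} (h1 : i ≤ j) (h2 : j ≤ k) (y : σ → F) :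
    A.P i j y * A.P j k y = A.P i k y := seg_mul _ h1 h2

theorem P_congr {i j : ℕ} {y y' : σ → F}
    (h : ∀ l, i ≤ l → l < j → ∀ v ∈ A.V l, y v = y' v) : A.P i j y = A.P i j y' := by
  unfold P
  apply seg_congr
  intro k h1 h2
  exact A.dep k _ _ (h k h1 h2)

theorem P_poly (i j : ℕ) : IsPolyMat (A.P i j) := IsPolyMat.seg A.poly i j

theorem rank_mono (y : σ → F) {i i' j' j : ℕ} (h1 : i ≤ i') (h2 : i' ≤ j') (h3 : j' ≤ j) :
    (A.P i j y).rank ≤ (A.P i' j' y).rank := by
  rw [← A.P_mul h1 (h2.trans h3) y, ← A.P_mul h2 h3 y]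
  exact (Matrix.rank_mul_le_right _ _).trans (Matrix.rank_mul_le_left _ _)

/-- Telescoping over increasing cuts. -/
theorem tele {c : ℕ → ℕ} {M : ℕ} (hc : ∀ a, a < M → c a ≤ c (a + 1)) (y : σ → F) :
    ∀ α β, α ≤ β → β ≤ M → seg (fun a => A.P (c a) (c (a + 1)) y) α β = A.P (c α) (c β) y := by
  intro α β hab hb
  induction β, hab using Nat.le_induction with
  | base => rw [seg_self, A.P_self]
  | succ β hab ih =>
    rw [← seg_mul _ hab (Nat.le_succ β), ih (by omega)]
    rw [show seg (fun a => A.P (c a) (c (a + 1)) y) β β.succ = A.P (c β) (c (β + 1)) y from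
      seg_succ _ _]
    exact A.P_mul (mono_of_step' (m := M) hc α β hab (by omega)) (hc β (by omega)) y

/-- Telescoping over decreasing cuts, with transposed matrices. -/
theorem tele' {c : ℕ → ℕ} {M : ℕ} (hc : ∀ a, a < M → c (a + 1) ≤ c a) (y : σ → F) :
    ∀ α β, α ≤ β → β ≤ M →
      seg (fun a => (A.P (c (a + 1)) (c a) y)ᵀ) α β = (A.P (c β) (c α) y)ᵀ := by
  intro α β hab hb
  induction β, hab using Nat.le_induction with
  | base => rw [seg_self, A.P_self, Matrix.transpose_one]
  | succ β hab ih =>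
    rw [← seg_mul _ hab (Nat.le_succ β), ih (by omega)]
    rw [show seg (fun a => (A.P (c (a + 1)) (c a) y)ᵀ) β β.succ = (A.P (c (β + 1)) (c β) y)ᵀ from
      seg_succ _ _, ← Matrix.transpose_mul]
    congr 1
    exact A.P_mul (hc β (by omega)) (anti_of_step' (m := M) hc α β hab (by omega)) y

end KProg

/-- **Lemma K.** -/
theorem lemmaK {F : Type*} [Field F] [Infinite F] {σ : Type*} [Fintype σ] [DecidableEq σ] {r : ℕ}
    (A : KProg F σ r) (b : σ → F) (lo hi : ℕ) (hlohi : lo ≤ hi)
    (hb : ∀ i j, lo ≤ i → i ≤ j → j ≤ hi → ∀ y, (A.P i j y).rank ≤ (A.P i j b).rank)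
    (k q : ℕ) (hk : ∀ v, occ A.V v lo hi ≤ k) (hq : ∀ l, (A.V l).card ≤ q)
    {R : Type*} [Fintype R] [DecidableEq R]
    (Θ : Matrix (Fin r) (Fin r) F →* Matrix R R F)
    (hΘ : ∀ T : (σ → F) → Matrix (Fin r) (Fin r) F, IsPolyMat T → IsPolyMat (fun y => Θ (T y)))
    (hΘT : ∀ X, Θ Xᵀ = (Θ X)ᵀ)
    (φ : Matrix R R F →ₗ[F] F) (h : ∃ y, φ (Θ (A.P lo hi y)) ≠ 0) :
    ∃ (S : Finset σ) (y : σ → F), S.card < kB r k q (Fintype.card R) ∧
      (∀ v, v ∉ S → y v = b v) ∧ φ (Θ (A.P lo hi y)) ≠ 0 := by
  classical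
  -- minimal set of variables
  have hex : ∃ c, ∃ S : Finset σ, S.card = c ∧
      ∃ y : σ → F, (∀ v, v ∉ S → y v = b v) ∧ φ (Θ (A.P lo hi y)) ≠ 0 := by
    obtain ⟨y, hy⟩ := h
    exact ⟨_, Finset.univ, rfl, y, fun v hv => absurd (Finset.mem_univ v) hv, hy⟩
  obtain ⟨S, hSc, y1, hy1, hf1⟩ := Nat.find_spec hex
  have hmin : ∀ S' : Finset σ, S'.card < S.card →
      ∀ y : σ → F, (∀ v, v ∉ S' → y v = b v) → φ (Θ (A.P lo hi y)) = 0 := by
    intro S' hc y hy
    by_contra hne
    have := Nat.find_min hex (m := S'.card) (by rw [← hSc]; exact hc)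
    exact this ⟨S', rfl, y, hy, hne⟩
  refine ⟨S, y1, ?_, hy1, hf1⟩
  by_contra hcard
  push Not at hcard
  obtain ⟨M, hM⟩ : ∃ M, M = kM r k (Fintype.card R) := ⟨_, rfl⟩
  have hMpos : 0 < M := by
    rw [hM]
    unfold kM
    positivity
  -- variables that do not share a layer
  obtain ⟨t, htS, htc, htG⟩ : ∃ t ⊆ S, t.card = alN k M ∧ ∀ x ∈ t, ∀ y ∈ t, x ≠ y →
      ¬ ∃ l, (lo ≤ l ∧ l < hi) ∧ x ∈ A.V l ∧ y ∈ A.V l := by
    unfold kB at hcard
    rw [← hM] at hcard
    rcases ramsey (fun v w : σ => ∃ l, (lo ≤ l ∧ l < hi) ∧ v ∈ A.V l ∧ w ∈ A.V l)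
      (fun x y ⟨l, h1, h2, h3⟩ => ⟨l, h1, h3, h2⟩) _ _ _ rfl S hcard with
      ⟨t, htS, htc, htG⟩ | h
    · exfalso
      have htne : t.Nonempty := by
        rw [← Finset.card_pos, htc]
        omega
      obtain ⟨v0, hv0⟩ := htne
      have hsub : t.erase v0 ⊆ ((Finset.Ico lo hi).filter fun l => v0 ∈ A.V l).biUnion A.V := by
        intro v hv
        rw [Finset.mem_erase] at hv
        obtain ⟨l, hl, h1, h2⟩ := htG v hv.2 v0 hv0 hv.1
        rw [Finset.mem_biUnion]
        exact ⟨l, by rw [Finset.mem_filter, Finset.mem_Ico]; exact ⟨hl, h2⟩, h1⟩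
      have h1 := Finset.card_le_card hsub
      have h2 : (((Finset.Ico lo hi).filter fun l => v0 ∈ A.V l).biUnion A.V).card ≤ k * q :=
        (Finset.card_biUnion_le_card_mul _ _ q fun l _ => hq l).trans
          (Nat.mul_le_mul_right q (hk v0))
      rw [Finset.card_erase_of_mem hv0, htc] at h1
      omega
    · exact h
  -- alignment
  let V' : ℕ → Finset σ := fun l => if lo ≤ l ∧ l < hi then A.V l else ∅
  have hV' : ∀ l, lo ≤ l → l < hi → V' l = A.V l := by
    intro l h1 h2
    simp only [V', h1, h2, and_self, ↓reduceIte]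
  have hV'' : ∀ l v, v ∈ V' l → (lo ≤ l ∧ l < hi) ∧ v ∈ A.V l := by
    intro l v hv
    by_cases h : lo ≤ l ∧ l < hi
    · simp only [V', h, and_self, ↓reduceIte] at hv
      exact ⟨h, hv⟩
    · simp only [V', h, ↓reduceIte] at hv
      exact absurd hv (Finset.notMem_empty v)
  obtain ⟨s, hs, hsi, e, d, c, he0, hep, hpass⟩ := align_exists V' k M hMpos lo hi hlohi t htc.ge
    (by
      intro l v hv w hw h1 h2
      by_contra hne
      exact htG v hv w hw hne ⟨l, (hV'' l v h1).1, (hV'' l v h1).2, (hV'' l w h2).2⟩)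
    (by
      intro v _
      refine le_trans ?_ (hk v)
      unfold occ
      apply Finset.card_le_card
      intro l hl
      rw [Finset.mem_filter] at hl ⊢
      exact ⟨hl.1, (hV'' l v hl.2).2⟩)
  obtain ⟨p, hp⟩ : ∃ p, p = 2 ^ k := ⟨_, rfl⟩
  rw [← hp] at hep hpass
  have hstep_e : ∀ i, i < p → e i ≤ e (i + 1) := fun i hi => (hpass i hi).1
  have hemono := mono_of_step' hstep_e
  have hsinj : ∀ a a', a < M → a' < M → s a = s a' → a = a' := by
    intro a a' ha ha' hss
    rcases lt_trichotomy a a' with h | h | h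
    · exact absurd hss (hsi a a' h ha')
    · exact h
    · exact absurd hss.symm (hsi a' a h ha)
  -- the set of aligned variables
  let S' : Finset σ := (Finset.range M).image s
  have hS'mem : ∀ v, v ∈ S' ↔ ∃ a, a < M ∧ s a = v := by
    intro v
    show v ∈ (Finset.range M).image s ↔ _
    rw [Finset.mem_image]
    constructor
    · rintro ⟨a, ha, rfl⟩
      exact ⟨a, Finset.mem_range.mp ha, rfl⟩
    · rintro ⟨a, ha, rfl⟩
      exact ⟨a, Finset.mem_range.mpr ha, rfl⟩
  have hS'S : S' ⊆ S := by
    intro v hv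
    obtain ⟨a, ha, rfl⟩ := (hS'mem v).mp hv
    exact htS (hs a ha)
  have hS'c : S'.card = M := by
    show ((Finset.range M).image s).card = M
    rw [Finset.card_image_of_injOn, Finset.card_range]
    intro a ha a' ha' haa'
    rw [Finset.mem_coe, Finset.mem_range] at ha ha'
    exact hsinj a a' ha ha' haa'
  -- a generic witness
  have hcert : ∀ ij : ℕ × ℕ, ∃ (U : Matrix (Fin (A.P ij.1 ij.2 b).rank) (Fin r) F)
      (W : Matrix (Fin r) (Fin (A.P ij.1 ij.2 b).rank) F), U * A.P ij.1 ij.2 b * W = 1 :=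
    fun ij => exists_cert _ le_rfl
  choose U W hUW using hcert
  let reset : (σ → F) → (σ → F) := fun y v => if v ∈ S' then b v else y v
  have hresetpoly : ∀ v, IsPoly (fun y : σ → F => reset y v) := by
    intro v
    by_cases hv : v ∈ S'
    · simpa only [reset, hv, ↓reduceIte] using IsPoly.const (b v)
    · simpa only [reset, hv, ↓reduceIte] using IsPoly.coord v
  let g : (σ → F) → F := fun y => ∏ ij ∈ Finset.range (hi + 1) ×ˢ Finset.range (hi + 1),
    (U ij * A.P ij.1 ij.2 (reset y) * W ij).det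
  have hg : IsPoly g := by
    refine IsPoly.prod _ fun ij _ => ?_
    exact (IsPolyMat.det (((IsPolyMat.const (U ij)).mul (A.P_poly _ _)).mul
      (IsPolyMat.const (W ij)))).comp (g := reset) hresetpoly
  have hg0 : g b ≠ 0 := by
    show ∏ ij ∈ Finset.range (hi + 1) ×ˢ Finset.range (hi + 1),
      (U ij * A.P ij.1 ij.2 (reset b) * W ij).det ≠ 0
    rw [Finset.prod_ne_zero_iff]
    intro ij _
    have : reset b = b := by
      ext v
      show (if v ∈ S' then b v else b v) = b v
      split_ifs <;> rfl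
    rw [this, hUW, Matrix.det_one]
    exact one_ne_zero
  have hf : IsPoly (fun y => φ (Θ (A.P lo hi y))) := (hΘ _ (A.P_poly lo hi)).linear φ
  obtain ⟨τ, hgτ, hfτ⟩ := exists_on_line hg hf hg0 hf1
  obtain ⟨y2, hy2⟩ : ∃ y2 : σ → F, y2 = fun i => b i + τ * (y1 i - b i) := ⟨_, rfl⟩
  rw [← hy2] at hgτ hfτ
  have hy2S : ∀ v, v ∉ S → y2 v = b v := by
    intro v hv
    rw [hy2]
    show b v + τ * (y1 v - b v) = b v
    rw [hy1 v hv]
    ring
  have hrank2 : ∀ i j, lo ≤ i → i ≤ j → j ≤ hi → ∀ y,
      (A.P i j y).rank ≤ (A.P i j (reset y2)).rank := by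
    intro i j h1 h2 h3 y
    refine (hb i j h1 h2 h3 y).trans ?_
    apply le_rank_of_cert _ (U (i, j)) (W (i, j))
    have := Finset.prod_ne_zero_iff.mp hgτ (i, j) (by
      rw [Finset.mem_product, Finset.mem_range, Finset.mem_range]
      exact ⟨by show i < hi + 1; omega, by show j < hi + 1; omega⟩)
    exact this
  -- the family of programs
  let hat : (σ → F) → (σ → F) := fun y v => if v ∈ S' then y v else y2 v
  have hhatpoly : ∀ v, IsPoly (fun y : σ → F => hat y v) := by
    intro v
    by_cases hv : v ∈ S'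
    · simpa only [hat, hv, ↓reduceIte] using IsPoly.coord v
    · simpa only [hat, hv, ↓reduceIte] using IsPoly.const (y2 v)
  let lay : σ → ℕ := fun v => if h : ∃ a, a < M ∧ s a = v then h.choose else M
  have hlay : ∀ a, a < M → lay (s a) = a := by
    intro a ha
    have h : ∃ a', a' < M ∧ s a' = s a := ⟨a, ha, rfl⟩
    show (if h : ∃ a', a' < M ∧ s a' = s a then h.choose else M) = a
    rw [dif_pos h]
    exact hsinj _ _ h.choose_spec.1 ha h.choose_spec.2
  have hcint : ∀ i, i < p → (∀ α β, α ≤ β → β ≤ M → d i = true →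
      e i ≤ c i α ∧ c i α ≤ c i β ∧ c i β ≤ e (i + 1)) ∧
      (∀ α β, α ≤ β → β ≤ M → d i = false →
      e i ≤ c i β ∧ c i β ≤ c i α ∧ c i α ≤ e (i + 1)) := by
    intro i hip
    constructor
    · intro α β hab hb' hd
      obtain ⟨h0, h1, h2⟩ := (hpass i hip).2.1 hd
      have hm := mono_of_step' fun a ha => (h2 a ha).1
      exact ⟨by rw [← h0]; exact hm 0 α (by omega) (by omega), hm α β hab hb',
        by rw [← h1]; exact hm β M hb' le_rfl⟩
    · intro α β hab hb' hd
      obtain ⟨h0, h1, h2⟩ := (hpass i hip).2.2 hd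
      have hm := anti_of_step' fun a ha => (h2 a ha).1
      exact ⟨by rw [← h0]; exact hm β M hb' le_rfl, hm α β hab hb',
        by rw [← h1]; exact hm 0 α (by omega) (by omega)⟩
  have heb : ∀ i, i < p → lo ≤ e i ∧ e (i + 1) ≤ hi := by
    intro i hip
    exact ⟨by rw [← he0]; exact hemono 0 i (by omega) (by omega),
      by rw [← hep]; exact hemono (i + 1) p (by omega) le_rfl⟩
  let B : VProg F σ (Fin p) r :=
    { T := fun a y i => if a < M then (if d i = true then A.P (c i a) (c i (a + 1)) (hat y)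
        else (A.P (c i (a + 1)) (c i a) (hat y))ᵀ) else 1
      lay := lay
      poly := by
        intro a i
        by_cases ha : a < M
        · by_cases hd : d i = true
          · simp only [ha, hd, ↓reduceIte]
            exact fun u v => (A.P_poly _ _ u v).comp hhatpoly
          · simp only [ha, hd, ↓reduceIte]
            exact fun u v => (A.P_poly _ _ v u).comp hhatpoly
        · simp only [ha, ↓reduceIte]
          exact IsPolyMat.const 1
      dep := by
        intro a y y' hyy'
        funext i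
        by_cases ha : a < M
        · have hkey : ∀ l, lo ≤ l → l < hi → (∀ a', a' < M → a' ≠ a → s a' ∉ V' l) →
              ∀ v ∈ A.V l, hat y v = hat y' v := by
            intro l hl1 hl2 hl3 v hv
            show (if v ∈ S' then y v else y2 v) = (if v ∈ S' then y' v else y2 v)
            split_ifs with hvS
            · obtain ⟨a', ha', rfl⟩ := (hS'mem v).mp hvS
              have : a' = a := by
                by_contra hne
                exact hl3 a' ha' hne (by rw [hV' l hl1 hl2]; exact hv)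
              subst this
              exact hyy' _ (hlay a' ha')
            · rfl
          by_cases hd : d i = true
          · simp only [ha, hd, ↓reduceIte]
            apply A.P_congr
            intro l hl1 hl2
            have h1 := (hcint i i.2).1 a (a + 1) (by omega) (by omega) hd
            have h2 := heb i i.2
            exact hkey l (by omega) (by omega) ((((hpass i i.2).2.1 hd).2.2 a ha).2 l hl1 hl2)
          · simp only [ha, hd, ↓reduceIte]
            have hd' : d i = false := by simpa using hd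
            apply congrArg Matrix.transpose
            apply A.P_congr
            intro l hl1 hl2
            have h1 := (hcint i i.2).2 a (a + 1) (by omega) (by omega) hd'
            have h2 := heb i i.2
            exact hkey l (by omega) (by omega) ((((hpass i i.2).2.2 hd').2.2 a ha).2 l hl1 hl2)
        · simp only [ha, ↓reduceIte] }
  -- products of the family
  have hBP : ∀ (y : σ → F) (α β : ℕ), α ≤ β → β ≤ M → ∀ i : Fin p,
      B.P α β y i = if d i = true then A.P (c i α) (c i β) (hat y)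
        else (A.P (c i β) (c i α) (hat y))ᵀ := by
    intro y α β hab hb' i
    rw [B.P_apply]
    by_cases hd : d i = true
    · have h2 := ((hpass i i.2).2.1 hd).2.2
      rw [if_pos hd, ← A.tele (M := M) (fun a ha => (h2 a ha).1) (hat y) α β hab hb']
      apply seg_congr
      intro a _ ha
      have ha' : a < M := by omega
      show (if a < M then (if d i = true then A.P (c i a) (c i (a + 1)) (hat y)
        else (A.P (c i (a + 1)) (c i a) (hat y))ᵀ) else 1) = _
      rw [if_pos ha', if_pos hd]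
    · have hd' : d i = false := by simpa using hd
      have h2 := ((hpass i i.2).2.2 hd').2.2
      rw [if_neg hd, ← A.tele' (M := M) (fun a ha => (h2 a ha).1) (hat y) α β hab hb']
      apply seg_congr
      intro a _ ha
      have ha' : a < M := by omega
      show (if a < M then (if d i = true then A.P (c i a) (c i (a + 1)) (hat y)
        else (A.P (c i (a + 1)) (c i a) (hat y))ᵀ) else 1) = _
      rw [if_pos ha', if_neg hd]
  have hhatb : hat b = reset y2 := rfl
  have hBb : ∀ α β, 0 ≤ α → α ≤ β → β ≤ M → ∀ y i, (B.P α β y i).rank ≤ (B.P α β b i).rank := by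
    intro α β _ hab hb' y i
    rw [hBP y α β hab hb' i, hBP b α β hab hb' i, hhatb]
    have h2 := heb i i.2
    by_cases hd : d i = true
    · rw [if_pos hd, if_pos hd]
      have h1 := (hcint i i.2).1 α β hab hb' hd
      exact hrank2 _ _ (by omega) h1.2.1 (by omega) _
    · rw [if_neg hd, if_neg hd, Matrix.rank_transpose, Matrix.rank_transpose]
      have hd' : d i = false := by simpa using hd
      have h1 := (hcint i i.2).2 α β hab hb' hd'
      exact hrank2 _ _ (by omega) h1.2.1 (by omega) _
  -- the functional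
  obtain ⟨ψ, hψ⟩ := exists_pathFun d p φ
  have hval : ∀ y, ψ (tens Θ (B.P 0 M y)) = φ (Θ (A.P lo hi (hat y))) := by
    intro y
    have h1 := hψ (fun i => Θ (A.P (e i) (e (i + 1)) (hat y)))
    rw [← map_seg Θ, A.tele (M := p) hstep_e (hat y) 0 p (Nat.zero_le p) le_rfl, he0, hep] at h1
    rw [← h1]
    congr 1
    ext u v
    rw [tens_apply, Matrix.of_apply]
    refine Finset.prod_congr rfl fun i _ => ?_
    rw [hBP y 0 M (Nat.zero_le M) le_rfl i]
    by_cases hd : d i = true
    · obtain ⟨g0, g1, _⟩ := (hpass i i.2).2.1 hd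
      rw [if_pos hd, if_pos hd, g0, g1]
    · have hd' : d i = false := by simpa using hd
      obtain ⟨g0, g1, _⟩ := (hpass i i.2).2.2 hd'
      rw [if_neg hd, if_neg hd, g0, g1, hΘT]
  have htens : ∀ T : (σ → F) → (Fin p → Matrix (Fin r) (Fin r) F),
      (∀ i, IsPolyMat (fun y => T y i)) → IsPolyMat (fun y => tens Θ (T y)) := by
    intro T hT u v
    simp only [tens_apply]
    exact IsPoly.prod _ fun i _ => hΘ _ (hT i) _ _
  have hhaty2 : hat y2 = y2 := by
    ext v
    show (if v ∈ S' then y2 v else y2 v) = y2 v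
    split_ifs <;> rfl
  obtain ⟨K, y3, hKc, hKs, hy3, hf3⟩ := vlemmaA B b 0 M (Nat.zero_le M) hBb (tens Θ) htens ψ
    ⟨y2, by rw [hval, hhaty2]; exact hfτ⟩
  rw [hval] at hf3
  have hKM : K.card < M := by
    rw [hM]
    unfold kM
    rw [Fintype.card_fun, Fintype.card_fin, hp] at hKc
    exact hKc
  -- the contradiction
  let S4 : Finset σ := (S \ S') ∪ K.image s
  have hS4c : S4.card < S.card := by
    have h1 : S4.card ≤ (S \ S').card + (K.image s).card := Finset.card_union_le _ _
    have h2 := Finset.card_sdiff_add_card_eq_card hS'S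
    have h3 : (K.image s).card ≤ K.card := Finset.card_image_le
    omega
  apply hf3
  apply hmin S4 hS4c
  intro v hv
  show (if v ∈ S' then y3 v else y2 v) = b v
  split_ifs with hvS
  · obtain ⟨a, ha, rfl⟩ := (hS'mem v).mp hvS
    apply hy3
    show lay (s a) ∉ K
    rw [hlay a ha]
    intro haK
    exact hv (Finset.mem_union_right _ (Finset.mem_image_of_mem s haK))
  · apply hy2S
    intro hvS2
    exact hv (Finset.mem_union_left _ (Finset.mem_sdiff.mpr ⟨hvS2, hvS⟩))

end Pool.Agent.UO
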