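import Mathlib
import Pool.Agent.Helper12_UO.Gen
import Pool.Agent.Helper12_UO.LemmaK

/-! All ranks are attained on the image of the generator. -/

namespace Pool.Agent.UO

open Matrix

/-- Number of terms of the generator after `h` steps. -/
def tK (r k q h : ℕ) : ℕ := q + h * (kBs r k q + 2 * q)

theorem tK_succ (r k q h : ℕ) : tK r k q (h + 1) = tK r k q h + (kBs r k q + 2 * q) := by
  unfold tK
  ring

section

variable {F : Type*} [Field F] {σ : Type*} {r : ℕ}

theorem det_of_rank {A : Matrix (Fin r) (Fin r) F} (h : r ≤ A.rank) : A.det ≠ 0 := by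
  obtain ⟨U, V, hUV⟩ := exists_cert A h
  intro h0
  have := congrArg Matrix.det hUV
  rw [Matrix.det_mul, Matrix.det_mul, h0, mul_zero, zero_mul, Matrix.det_one] at this
  exact zero_ne_one this

theorem rank_of_det {A : Matrix (Fin r) (Fin r) F} (h : A.det ≠ 0) : A.rank = r := by
  rw [Matrix.rank_of_isUnit _ ((Matrix.isUnit_iff_isUnit_det _).mpr (isUnit_iff_ne_zero.mpr h))]
  simp

theorem kpow_transpose (k : ℕ) (X : Matrix (Fin r) (Fin r) F) : kpow k Xᵀ = (kpow k X)ᵀ := by
  ext a b
  rw [Matrix.transpose_apply, kpow_apply, kpow_apply]
  rfl

/-- Attaining finitely many rank conditions together on the image. -/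
theorem common_rank [Infinite F] [Fintype σ] [DecidableEq σ] (A : KProg F σ r) (c : σ → F)
    (t : ℕ) {ι : Type*} (s : Finset ι)
    (i j κ : ι → ℕ) (h : ∀ a ∈ s, ∃ y ∈ Im c t, κ a ≤ (A.P (i a) (j a) y).rank) :
    ∃ y ∈ Im c t, ∀ a ∈ s, κ a ≤ (A.P (i a) (j a) y).rank := by
  classical
  choose! y0 hy0 hr0 using h
  have hcert : ∀ a, ∃ (U : Matrix (Fin (κ a)) (Fin r) F) (V : Matrix (Fin r) (Fin (κ a)) F),
      a ∈ s → U * A.P (i a) (j a) (y0 a) * V = 1 := by
    intro a
    by_cases ha : a ∈ s
    · obtain ⟨U, V, h⟩ := exists_cert _ (hr0 a ha)
      exact ⟨U, V, fun _ => h⟩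
    · exact ⟨0, 0, fun h => absurd h ha⟩
  choose U V hUV using hcert
  obtain ⟨y, hy, hy'⟩ := Im_common c t s
    (f := fun a y => (U a * A.P (i a) (j a) y * V a).det)
    (fun a _ => (((IsPolyMat.const _).mul (A.P_poly _ _)).mul (IsPolyMat.const _)).det)
    (fun a ha => ⟨y0 a, hy0 a ha, by rw [hUV a ha, Matrix.det_one]; exact one_ne_zero⟩)
  exact ⟨y, hy, fun a ha => le_rank_of_cert _ (U a) (V a) (hy' a ha)⟩

/-- The largest rank of the product of the layers `i, ..., j-1`. -/
noncomputable def maxRank (A : KProg F σ r) (i j : ℕ) : ℕ := by
  classical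
  exact Nat.findGreatest (fun k => ∃ y, k ≤ (A.P i j y).rank) r

theorem le_maxRank (A : KProg F σ r) (i j : ℕ) (y : σ → F) :
    (A.P i j y).rank ≤ maxRank A i j := by
  classical
  unfold maxRank
  apply Nat.le_findGreatest
  · simpa using Matrix.rank_le_card_width (A.P i j y)
  · exact ⟨y, le_rfl⟩

theorem exists_maxRank (A : KProg F σ r) (i j : ℕ) : ∃ y, maxRank A i j ≤ (A.P i j y).rank := by
  classical
  unfold maxRank
  have := Nat.findGreatest_spec (P := fun k => ∃ y, k ≤ (A.P i j y).rank) (n := r) (m := 0)
    (Nat.zero_le _) ⟨0, Nat.zero_le _⟩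
  exact this

/-- A base point attaining the maximal rank on all intervals inside `[lo, hi)`. -/
theorem exists_base [Infinite F] [Fintype σ] [DecidableEq σ] (A : KProg F σ r) (c : σ → F)
    (t lo hi : ℕ) (h : ∀ i j, lo ≤ i → i ≤ j → j ≤ hi →
      ∃ y ∈ Im c t, maxRank A i j ≤ (A.P i j y).rank) :
    ∃ b ∈ Im c t, ∀ i j, lo ≤ i → i ≤ j → j ≤ hi → ∀ y, (A.P i j y).rank ≤ (A.P i j b).rank := by
  classical
  obtain ⟨b, hb, hr⟩ := common_rank A c t
    ((Finset.range (hi + 1) ×ˢ Finset.range (hi + 1)).filter
      (fun a : ℕ × ℕ => lo ≤ a.1 ∧ a.1 ≤ a.2 ∧ a.2 ≤ hi)) Prod.fst Prod.snd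
    (fun a => maxRank A a.1 a.2) (by
      intro a ha
      rw [Finset.mem_filter] at ha
      exact h a.1 a.2 ha.2.1 ha.2.2.1 ha.2.2.2)
  refine ⟨b, hb, fun i j h1 h2 h3 y => (le_maxRank A i j y).trans ?_⟩
  have := hr (i, j) (by
    rw [Finset.mem_filter, Finset.mem_product, Finset.mem_range, Finset.mem_range]
    exact ⟨⟨by show i < hi + 1; omega, by show j < hi + 1; omega⟩, h1, h2, h3⟩)
  exact this

/-- A generic choice of the values of the variables in `W`: the base point keeps its ranks and a
given polynomial condition is kept. -/
theorem exists_frozen [Infinite F] [Fintype σ] [DecidableEq σ] (A : KProg F σ r)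
    (b y : σ → F) (lo hi : ℕ)
    (hb : ∀ i j, lo ≤ i → i ≤ j → j ≤ hi → ∀ y, (A.P i j y).rank ≤ (A.P i j b).rank)
    (W : Finset σ) {f : (σ → F) → F} (hf : IsPoly f) (hy : f y ≠ 0) :
    ∃ y2 : σ → F, f y2 ≠ 0 ∧ ∀ i j, lo ≤ i → i ≤ j → j ≤ hi → ∀ y,
      (A.P i j y).rank ≤ (A.P i j (fun v => if v ∈ W then y2 v else b v)).rank := by
  classical
  have hcert : ∀ ij : ℕ × ℕ, ∃ (U : Matrix (Fin (A.P ij.1 ij.2 b).rank) (Fin r) F)
      (V : Matrix (Fin r) (Fin (A.P ij.1 ij.2 b).rank) F), U * A.P ij.1 ij.2 b * V = 1 :=
    fun ij => exists_cert _ le_rfl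
  choose U V hUV using hcert
  let fr : (σ → F) → (σ → F) := fun y v => if v ∈ W then y v else b v
  have hfr : ∀ v, IsPoly (fun y : σ → F => fr y v) := by
    intro v
    by_cases hv : v ∈ W
    · simpa only [fr, hv, ↓reduceIte] using IsPoly.coord v
    · simpa only [fr, hv, ↓reduceIte] using IsPoly.const (b v)
  let g : (σ → F) → F := fun y => ∏ ij ∈ Finset.range (hi + 1) ×ˢ Finset.range (hi + 1),
    (U ij * A.P ij.1 ij.2 (fr y) * V ij).det
  have hg : IsPoly g := by
    refine IsPoly.prod _ fun ij _ => ?_
    exact (IsPolyMat.det (((IsPolyMat.const (U ij)).mul (A.P_poly _ _)).mul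
      (IsPolyMat.const (V ij)))).comp (g := fr) hfr
  have hg0 : g b ≠ 0 := by
    show ∏ ij ∈ Finset.range (hi + 1) ×ˢ Finset.range (hi + 1),
      (U ij * A.P ij.1 ij.2 (fr b) * V ij).det ≠ 0
    rw [Finset.prod_ne_zero_iff]
    intro ij _
    have : fr b = b := by
      ext v
      show (if v ∈ W then b v else b v) = b v
      split_ifs <;> rfl
    rw [this, hUV, Matrix.det_one]
    exact one_ne_zero
  obtain ⟨τ, hgτ, hfτ⟩ := exists_on_line hg hf hg0 hy
  refine ⟨_, hfτ, ?_⟩
  intro i j h1 h2 h3 y
  refine (hb i j h1 h2 h3 y).trans ?_
  apply le_rank_of_cert _ (U (i, j)) (V (i, j))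
  have := Finset.prod_ne_zero_iff.mp hgτ (i, j) (by
    rw [Finset.mem_product, Finset.mem_range, Finset.mem_range]
    exact ⟨by show i < hi + 1; omega, by show j < hi + 1; omega⟩)
  exact this

/-- **Theorem S**, for programs that read each variable at most `k` times. -/
theorem levelsK [Infinite F] [Fintype σ] [DecidableEq σ] (A : KProg F σ r) (c : σ → F)
    (hc : Function.Injective c) (k q : ℕ) (hk : ∀ v lo hi, occ A.V v lo hi ≤ k)
    (hq : ∀ l, (A.V l).card ≤ q) :
    ∀ (h κ : ℕ), r ≤ κ + h → ∀ i j, i ≤ j → (∃ y, κ ≤ (A.P i j y).rank) →
      ∃ y ∈ Im c (tK r k q h), κ ≤ (A.P i j y).rank := by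
  classical
  intro h
  induction h with
  | zero =>
    intro κ hκ i j hij ⟨y, hy⟩
    have hr : κ = r := by
      have : (A.P i j y).rank ≤ r := by simpa using Matrix.rank_le_card_width (A.P i j y)
      omega
    subst hr
    -- every layer is invertible at `y`
    have hlay : ∀ l ∈ Finset.Ico i j, (A.T l y).det ≠ 0 := by
      intro l hl
      rw [Finset.mem_Ico] at hl
      apply det_of_rank
      have h1 := A.rank_mono y hl.1 (Nat.le_succ l) hl.2
      rw [show A.P l l.succ y = A.T l y from A.P_succ l y] at h1
      omega
    obtain ⟨y', hy', hd⟩ := Im_common c (tK κ k q 0) (Finset.Ico i j)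
      (f := fun l y => (A.T l y).det) (fun l _ => (A.poly l).det) (by
        intro l hl
        refine ⟨fun v => if v ∈ A.V l then y v else 0, ?_, ?_⟩
        · have h1 := Im_perturb hc (Im_zero c 0) (A.V l) (hq l)
            (y' := fun v => if v ∈ A.V l then y v else 0) (by
              intro v hv
              simp [hv])
          exact Im_mono c (by unfold tK; omega) h1
        · show (A.T l _).det ≠ 0
          rw [A.dep l _ y (by intro v hv; simp [hv])]
          exact hlay l hl)
    refine ⟨y', hy', ?_⟩
    have hdet : (A.P i j y').det ≠ 0 := by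
      have e : (A.P i j y').det = seg (fun l => (A.T l y').det) i j :=
        map_seg (Matrix.detMonoidHom : Matrix (Fin κ) (Fin κ) F →* F) (fun l => A.T l y') i j
      rw [e]
      apply seg_induction (p := fun x => x ≠ 0) one_ne_zero (fun a b ha hb => mul_ne_zero ha hb)
      intro l h1 h2
      exact hd l (Finset.mem_Ico.mpr ⟨h1, h2⟩)
    rw [rank_of_det hdet]
  | succ h ih =>
    intro κ hκ i j hij hex
    by_cases hκ' : r ≤ κ + h
    · obtain ⟨y, hy, hr⟩ := ih κ hκ' i j hij hex
      exact ⟨y, Im_mono c (by rw [tK_succ]; omega) hy, hr⟩
    · have hκr : κ + h + 1 = r := by omega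
      -- induction on the length
      have main : ∀ (len i j : ℕ), i ≤ j → j ≤ i + len → (∃ y, κ ≤ (A.P i j y).rank) →
          ∃ y ∈ Im c (tK r k q (h + 1)), κ ≤ (A.P i j y).rank := by
        intro len
        induction len with
        | zero =>
          intro i j hij hlen _
          have : i = j := by omega
          subst this
          refine ⟨0, Im_zero c _, ?_⟩
          rw [A.P_self, Matrix.rank_one]
          simp only [Fintype.card_fin]
          omega
        | succ len ihl =>
          intro i j hij hlen hex
          by_cases hbig : ∃ y, κ + 1 ≤ (A.P i j y).rank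
          · obtain ⟨y, hy, hr⟩ := ih (κ + 1) (by omega) i j hij hbig
            exact ⟨y, Im_mono c (by rw [tK_succ]; omega) hy, by omega⟩
          obtain ⟨y, hy⟩ := hex
          by_cases hshort : j ≤ i + 2
          · -- at most two layers
            refine ⟨fun v => if v ∈ (Finset.Ico i j).biUnion A.V then y v else 0, ?_, ?_⟩
            · have h1 := Im_perturb hc (Im_zero c 0) ((Finset.Ico i j).biUnion A.V)
                (Finset.card_biUnion_le_card_mul _ _ q fun l _ => hq l)
                (y' := fun v => if v ∈ (Finset.Ico i j).biUnion A.V then y v else 0) (by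
                  intro v hv
                  simp only [hv, ↓reduceIte, Pi.zero_apply])
              apply Im_mono c _ h1
              rw [tK_succ, Nat.card_Ico]
              have : (j - i) * q ≤ 2 * q := Nat.mul_le_mul_right _ (by omega)
              omega
            · rw [A.P_congr (y' := y)]
              · exact hy
              · intro l h1 h2 v hv
                have : v ∈ (Finset.Ico i j).biUnion A.V :=
                  Finset.mem_biUnion.mpr ⟨l, Finset.mem_Ico.mpr ⟨h1, h2⟩, hv⟩
                simp only [this, ↓reduceIte]
          push Not at hshort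
          have hP : ∀ y, A.P i j y = A.T i y * A.P (i + 1) (j - 1) y * A.T (j - 1) y := by
            intro y
            have e1 : A.T i y = A.P i (i + 1) y := (A.P_succ i y).symm
            have e2 : A.T (j - 1) y = A.P (j - 1) (j - 1 + 1) y := (A.P_succ (j - 1) y).symm
            rw [e1, e2, A.P_mul (by omega) (by omega), A.P_mul (by omega) (by omega)]
            congr 1
            omega
          have hP1 : ∀ y, A.P i (j - 1) y = A.T i y * A.P (i + 1) (j - 1) y := by
            intro y
            have e1 : A.T i y = A.P i (i + 1) y := (A.P_succ i y).symm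
            rw [e1, A.P_mul (by omega) (by omega)]
          have hP2 : ∀ y, A.P (i + 1) j y = A.P (i + 1) (j - 1) y * A.T (j - 1) y := by
            intro y
            have e2 : A.T (j - 1) y = A.P (j - 1) (j - 1 + 1) y := (A.P_succ (j - 1) y).symm
            rw [e2, A.P_mul (by omega) (by omega)]
            congr 1
            omega
          by_cases hint : ∃ y, κ + 1 ≤ (A.P (i + 1) (j - 1) y).rank
          · -- the interior has larger rank: use Lemma K
            obtain ⟨b, hbI, hbr⟩ := exists_base A c (tK r k q h) (i + 1) (j - 1) (by
              intro i' j' h1 h2 h3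
              apply ih
              · obtain ⟨y, hy⟩ := hint
                have g1 := A.rank_mono y h1 h2 h3
                have g2 := le_maxRank A i' j' y
                omega
              · exact h2
              · exact exists_maxRank A i' j')
            obtain ⟨U, V, hUV⟩ := exists_cert _ hy
            -- freeze the variables of the end layers
            let W : Finset σ := A.V i ∪ A.V (j - 1)
            obtain ⟨y2, hy2, hb2⟩ := exists_frozen A b y (i + 1) (j - 1) hbr W
              (f := fun y => (U * A.P i j y * V).det)
              (((IsPolyMat.const U).mul (A.P_poly _ _)).mul (IsPolyMat.const V)).det (by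
                show (U * A.P i j y * V).det ≠ 0
                rw [hUV, Matrix.det_one]
                exact one_ne_zero)
            let fr : (σ → F) → (σ → F) := fun y v => if v ∈ W then y2 v else y v
            have hfrpoly : ∀ v, IsPoly (fun y : σ → F => fr y v) := by
              intro v
              by_cases hv : v ∈ W
              · simpa only [fr, hv, ↓reduceIte] using IsPoly.const (y2 v)
              · simpa only [fr, hv, ↓reduceIte] using IsPoly.coord v
            let B : KProg F σ r :=
              { T := fun l y => A.T l (fr y)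
                V := A.V
                poly := fun l u v => (A.poly l u v).comp hfrpoly
                dep := by
                  intro l y y' hyy'
                  apply A.dep
                  intro v hv
                  show (if v ∈ W then y2 v else y v) = (if v ∈ W then y2 v else y' v)
                  split_ifs
                  · rfl
                  · exact hyy' v hv }
            have hBP : ∀ i' j' y, B.P i' j' y = A.P i' j' (fr y) := fun _ _ _ => rfl
            have hfr2 : fr y2 = y2 := by
              ext v
              show (if v ∈ W then y2 v else y2 v) = y2 v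
              split_ifs <;> rfl
            obtain ⟨S, y3, hSc, hy3, hdet⟩ := lemmaK B b (i + 1) (j - 1) (by omega)
              (fun i' j' h1 h2 h3 y => by
                rw [hBP, hBP]
                exact hb2 i' j' h1 h2 h3 (fr y))
              k q (fun v => hk v _ _) hq (kpow κ) (kpow_poly κ) (kpow_transpose κ)
              (detFun (U * A.T i y2) (A.T (j - 1) y2 * V)) ⟨y2, by
                rw [detFun_kpow, hBP, hfr2]
                have e : U * A.T i y2 * A.P (i + 1) (j - 1) y2 * (A.T (j - 1) y2 * V) =
                    U * A.P i j y2 * V := by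
                  rw [hP]
                  simp only [Matrix.mul_assoc]
                rw [e]
                exact hy2⟩
            rw [detFun_kpow, hBP] at hdet
            have hSW : (S ∪ W).card ≤ kBs r k q + 2 * q := by
              have h1 : S.card ≤ kBs r k q := by
                refine hSc.le.trans ?_
                rw [Fintype.card_fun, Fintype.card_fin, Fintype.card_fin]
                unfold kBs
                exact Finset.single_le_sum (f := fun κ => kB r k q (r ^ κ))
                  (fun _ _ => Nat.zero_le _) (Finset.mem_range.mpr (by omega))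
              have h2 : W.card ≤ q + q := (Finset.card_union_le _ _).trans
                (Nat.add_le_add (hq _) (hq _))
              have h3 := Finset.card_union_le S W
              omega
            refine ⟨fr y3, ?_, ?_⟩
            · rw [tK_succ]
              apply Im_perturb hc hbI (S ∪ W) hSW
              intro v hv
              rw [Finset.mem_union, not_or] at hv
              show (if v ∈ W then y2 v else y3 v) = b v
              rw [if_neg hv.2]
              exact hy3 v hv.1
            · apply le_rank_of_cert _ U V
              rw [hP]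
              have e1 : A.T i (fr y3) = A.T i y2 := by
                apply A.dep
                intro v hv
                show (if v ∈ W then y2 v else y3 v) = y2 v
                rw [if_pos (Finset.mem_union_left _ hv)]
              have e2 : A.T (j - 1) (fr y3) = A.T (j - 1) y2 := by
                apply A.dep
                intro v hv
                show (if v ∈ W then y2 v else y3 v) = y2 v
                rw [if_pos (Finset.mem_union_right _ hv)]
              rw [e1, e2]
              have e : U * (A.T i y2 * A.P (i + 1) (j - 1) (fr y3) * A.T (j - 1) y2) * V =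
                  U * A.T i y2 * A.P (i + 1) (j - 1) (fr y3) * (A.T (j - 1) y2 * V) := by
                simp only [Matrix.mul_assoc]
              rw [e]
              exact hdet
          · -- the interior has rank at most `κ`: Frobenius
            push Not at hint
            have hr1 : κ ≤ (A.P i (j - 1) y).rank := by
              rw [hP1]
              refine hy.trans ?_
              rw [hP]
              exact Matrix.rank_mul_le_left _ _
            have hr2 : κ ≤ (A.P (i + 1) j y).rank := by
              rw [hP2]
              refine hy.trans ?_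
              rw [hP, Matrix.mul_assoc]
              exact Matrix.rank_mul_le_right _ _
            obtain ⟨y1, hy1, hk1⟩ := ihl i (j - 1) (by omega) (by omega) ⟨y, hr1⟩
            obtain ⟨y2, hy2, hk2⟩ := ihl (i + 1) j (by omega) (by omega) ⟨y, hr2⟩
            obtain ⟨y3, hy3, hk3⟩ := common_rank A c (tK r k q (h + 1)) (Finset.univ : Finset Bool)
              (fun a => if a then i else i + 1) (fun a => if a then j - 1 else j) (fun _ => κ) (by
                intro a _
                cases a
                · exact ⟨y2, hy2, by simpa using hk2⟩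
                · exact ⟨y1, hy1, by simpa using hk1⟩)
            refine ⟨y3, hy3, ?_⟩
            have g1 := hk3 true (Finset.mem_univ _)
            have g2 := hk3 false (Finset.mem_univ _)
            simp only [↓reduceIte, Bool.false_eq_true] at g1 g2
            have g3 := frobenius (A.T i y3) (A.P (i + 1) (j - 1) y3) (A.T (j - 1) y3)
            have g4 := hint y3
            rw [hP1] at g1
            rw [hP2] at g2
            rw [hP]
            omega
      exact main (j - i) i j hij (by omega) hex

end

end Pool.Agent.UO
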