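import Mathlib
import Pool.Agent.Helper12_UO.LevelK

/-! Branching programs as polynomials, and the generator for them. -/

namespace Pool.Agent.UO

open Matrix

section Program

variable {E : Type*} [Field E]

theorem seedLength_eq (r k q : ℕ) : seedLength r k q = tK r k q (r - 1) := rfl

theorem mem_layerVars {r : ℕ} (M : Matrix (Fin r) (Fin r) (MvPolynomial ℕ E)) (i : ℕ) :
    i ∈ layerVars M ↔ ∃ a b, i ∈ (M a b).vars := by
  unfold layerVars
  simp

/-- Extension of a point by zeros. -/
def extZ {n : ℕ} (y : Fin n → E) (i : ℕ) : E := if h : i < n then y ⟨i, h⟩ else 0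

theorem extZ_poly {n : ℕ} (i : ℕ) : IsPoly (fun y : Fin n → E => extZ y i) := by
  by_cases h : i < n
  · simpa only [extZ, h, ↓reduceDIte] using IsPoly.coord (⟨i, h⟩ : Fin n)
  · simpa only [extZ, h, ↓reduceDIte] using IsPoly.const (0 : E)

theorem eval_extZ_poly {n : ℕ} (f : MvPolynomial ℕ E) :
    IsPoly (fun y : Fin n → E => MvPolynomial.eval (extZ y) f) :=
  IsPoly.comp (f := fun x => MvPolynomial.eval x f) ⟨f, fun _ => rfl⟩ extZ_poly

theorem eval_congr_vars {f : MvPolynomial ℕ E} {x x' : ℕ → E} (h : ∀ i ∈ f.vars, x i = x' i) :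
    MvPolynomial.eval x f = MvPolynomial.eval x' f :=
  MvPolynomial.eval₂Hom_congr' rfl (fun i hi _ => h i hi) rfl

/-- **The generator hits programs.** -/
theorem program_hit [Infinite E] {n r k q : ℕ} {c : Fin n → E} (hc : Function.Injective c)
    {f : MvPolynomial ℕ E} (hf : IsProgram n r k q f) (hf0 : f ≠ 0) :
    ∃ y ∈ Im c (seedLength r k q), MvPolynomial.eval (extZ y) f ≠ 0 := by
  classical
  obtain ⟨m, M, u, v, hrange, hq, hk, hfe⟩ := hf
  -- a point where `f` does not vanish
  obtain ⟨y0, hy0⟩ : ∃ y : Fin n → E, MvPolynomial.eval (extZ y) f ≠ 0 := by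
    by_contra hcon
    push Not at hcon
    apply hf0
    apply MvPolynomial.funext
    intro x
    rw [map_zero, ← hcon fun i => x i]
    have hvars : ∀ l a b, ∀ i ∈ (M l a b).vars, x i = extZ (fun i : Fin n => x i) i := by
      intro l a b i hi
      have : i < n := Finset.mem_range.mp (hrange l ((mem_layerVars _ _).mpr ⟨a, b, hi⟩))
      simp only [extZ, this, ↓reduceDIte]
    have hprod : (MvPolynomial.eval x).mapMatrix (List.ofFn M).prod =
        (MvPolynomial.eval (extZ (fun i : Fin n => x i))).mapMatrix (List.ofFn M).prod := by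
      rw [map_list_prod, map_list_prod, List.map_ofFn, List.map_ofFn]
      congr 2
      funext l
      ext a b
      exact eval_congr_vars (hvars l a b)
    rw [hfe]
    have h1 : ∀ x : ℕ → E, MvPolynomial.eval x ((fun a => MvPolynomial.C (u a)) ⬝ᵥ
        ((List.ofFn M).prod *ᵥ fun a => MvPolynomial.C (v a))) =
        u ⬝ᵥ ((MvPolynomial.eval x).mapMatrix (List.ofFn M).prod *ᵥ v) := by
      intro x
      simp [dotProduct, Matrix.mulVec, map_sum, map_mul]
    rw [h1, h1, hprod]
  have hr : 0 < r := by
    by_contra h0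
    have : r = 0 := by omega
    subst this
    apply hf0
    rw [hfe]
    simp [dotProduct]
  obtain ⟨o, ho⟩ : ∃ o : Fin r, o = ⟨0, hr⟩ := ⟨_, rfl⟩
  obtain ⟨T, hT⟩ : ∃ T : ℕ → (Fin n → E) → Matrix (Fin r) (Fin r) E, ∀ l y, T l y =
      if l = 0 then Matrix.of (fun a b => if a = o then u b else 0) else
        if h : l - 1 < m then (MvPolynomial.eval (extZ y)).mapMatrix (M ⟨l - 1, h⟩)
        else Matrix.of (fun a b => if b = o then v a else 0) := ⟨fun l y => _, fun l y => rfl⟩
  obtain ⟨V, hV⟩ : ∃ V : ℕ → Finset (Fin n), ∀ l, V l = if l = 0 then ∅ else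
      if h : l - 1 < m then
        Finset.univ.filter (fun i : Fin n => (i : ℕ) ∈ layerVars (M ⟨l - 1, h⟩)) else ∅ :=
    ⟨fun l => _, fun l => rfl⟩
  let A : KProg E (Fin n) r :=
    { T := T
      V := V
      poly := by
        intro l
        have : T l = fun y => T l y := rfl
        rw [this]
        by_cases h0 : l = 0
        · simp only [hT, h0, ↓reduceIte]
          exact IsPolyMat.const _
        · by_cases h : l - 1 < m
          · simp only [hT, h0, h, ↓reduceIte, ↓reduceDIte]
            exact fun a b => eval_extZ_poly _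
          · simp only [hT, h0, h, ↓reduceIte, ↓reduceDIte]
            exact IsPolyMat.const _
      dep := by
        intro l y y' hyy'
        by_cases h0 : l = 0
        · simp only [hT, h0, ↓reduceIte]
        · by_cases h : l - 1 < m
          · simp only [hV, h0, h, ↓reduceIte, ↓reduceDIte] at hyy'
            simp only [hT, h0, h, ↓reduceIte, ↓reduceDIte]
            ext a b
            refine eval_congr_vars fun i hi => ?_
            unfold extZ
            split_ifs with hi'
            · apply hyy'
              rw [Finset.mem_filter]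
              exact ⟨Finset.mem_univ _, (mem_layerVars _ _).mpr ⟨a, b, hi⟩⟩
            · rfl
          · simp only [hT, h0, h, ↓reduceIte, ↓reduceDIte] }
  have hAT0 : ∀ y, A.T 0 y = Matrix.of (fun a b => if a = o then u b else 0) := by
    intro y
    show T 0 y = _
    rw [hT, if_pos rfl]
  have hATl : ∀ (y : Fin n → E) (l : ℕ) (h : l < m), A.T (l + 1) y =
      (MvPolynomial.eval (extZ y)).mapMatrix (M ⟨l, h⟩) := by
    intro y l h
    show T (l + 1) y = _
    rw [hT, if_neg (Nat.succ_ne_zero l)]
    have h' : l + 1 - 1 < m := by omega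
    rw [dif_pos h']
    rfl
  have hATm : ∀ y, A.T (m + 1) y = Matrix.of (fun a b => if b = o then v a else 0) := by
    intro y
    show T (m + 1) y = _
    rw [hT, if_neg (Nat.succ_ne_zero m), dif_neg (by omega)]
  have hmid : ∀ y : Fin n → E, A.P 1 (m + 1) y = (MvPolynomial.eval (extZ y)).mapMatrix (List.ofFn M).prod := by
    intro y
    rw [map_list_prod, List.map_ofFn]
    show ((List.range' 1 (m + 1 - 1)).map fun k => A.T k y).prod = _
    congr 1
    apply List.ext_getElem
    · simp
    · intro i h1 h2
      rw [List.length_ofFn] at h2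
      simp only [List.getElem_map, List.getElem_range', List.getElem_ofFn, Function.comp_apply]
      rw [show 1 + 1 * i = i + 1 by ring]
      exact hATl y i h2
  have hval : ∀ y : Fin n → E, MvPolynomial.eval (extZ y) f =
      u ⬝ᵥ ((MvPolynomial.eval (extZ y)).mapMatrix (List.ofFn M).prod *ᵥ v) := by
    intro y
    rw [hfe]
    simp [dotProduct, Matrix.mulVec, map_sum, map_mul]
  have hP : ∀ y : Fin n → E, A.P 0 (m + 2) y = Matrix.of
      (fun a b => if a = o then (if b = o then MvPolynomial.eval (extZ y) f else 0) else 0) := by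
    intro y
    rw [← A.P_mul (Nat.zero_le (m + 1)) (Nat.le_succ _) y,
      ← A.P_mul (Nat.zero_le 1) (show 1 ≤ m + 1 by omega) y]
    rw [show A.P 0 1 y = A.T 0 y from A.P_succ 0 y,
      show A.P (m + 1) (m + 2) y = A.T (m + 1) y from A.P_succ (m + 1) y, hmid, hAT0, hATm, hval]
    ext a b
    rw [Matrix.mul_assoc, Matrix.mul_apply, Matrix.of_apply]
    simp only [Matrix.mul_apply, Matrix.of_apply]
    by_cases ha : a = o
    · by_cases hb : b = o
      · simp only [ha, hb, ↓reduceIte, dotProduct, Matrix.mulVec]
      · simp only [ha, hb, ↓reduceIte, mul_zero, Finset.sum_const_zero]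
    · simp only [ha, ↓reduceIte, zero_mul, Finset.sum_const_zero]
  have hrank : ∀ y : Fin n → E, 1 ≤ (A.P 0 (m + 2) y).rank ↔ MvPolynomial.eval (extZ y) f ≠ 0 := by
    intro y
    constructor
    · intro h h0
      have : A.P 0 (m + 2) y = 0 := by
        rw [hP, h0]
        ext a b
        simp
      rw [this, Matrix.rank_zero] at h
      omega
    · intro h
      apply le_rank_of_cert _ (Matrix.of fun (_ : Fin 1) a => if a = o then (1 : E) else 0)
        (Matrix.of fun a (_ : Fin 1) => if a = o then (1 : E) else 0)
      rw [Matrix.det_fin_one, hP]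
      simpa [Matrix.mul_apply] using h
  obtain ⟨y, hy, hy1⟩ := levelsK A c hc k q (by
      intro i lo hi
      refine le_trans ?_ (hk i)
      unfold occ
      show ((Finset.Ico lo hi).filter fun l => i ∈ V l).card ≤ _
      have hsub : ∀ l ∈ (Finset.Ico lo hi).filter (fun l => i ∈ V l), l ≠ 0 ∧
          ∃ h : l - 1 < m, (i : ℕ) ∈ layerVars (M ⟨l - 1, h⟩) := by
        intro l hl
        rw [Finset.mem_filter, hV] at hl
        by_cases h0 : l = 0
        · rw [if_pos h0] at hl
          exact absurd hl.2 (Finset.notMem_empty _)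
        · rw [if_neg h0] at hl
          by_cases h : l - 1 < m
          · rw [dif_pos h, Finset.mem_filter] at hl
            exact ⟨h0, h, hl.2.2⟩
          · rw [dif_neg h] at hl
            exact absurd hl.2 (Finset.notMem_empty _)
      choose! g1 g2 g3 using hsub
      rcases Nat.eq_zero_or_pos m with hm | hm
      · have : (Finset.Ico lo hi).filter (fun l => i ∈ V l) = ∅ := by
          rw [Finset.eq_empty_iff_forall_notMem]
          intro l hl
          have := g2 l hl
          omega
        rw [this]
        simp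
      · apply Finset.card_le_card_of_injOn (fun l => if h : l - 1 < m then (⟨l - 1, h⟩ : Fin m) else
          ⟨0, hm⟩)
        · intro l hl
          have hl' := Finset.mem_coe.mp hl
          show (if h : l - 1 < m then (⟨l - 1, h⟩ : Fin m) else ⟨0, hm⟩) ∈ _
          rw [dif_pos (g2 l hl'), Finset.mem_coe, Finset.mem_filter]
          exact ⟨Finset.mem_univ _, g3 l hl'⟩
        · intro l hl l' hl' h
          have hl1 := Finset.mem_coe.mp hl
          have hl2 := Finset.mem_coe.mp hl'
          have h' : (if h : l - 1 < m then (⟨l - 1, h⟩ : Fin m) else ⟨0, hm⟩) =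
            (if h : l' - 1 < m then (⟨l' - 1, h⟩ : Fin m) else ⟨0, hm⟩) := h
          rw [dif_pos (g2 l hl1), dif_pos (g2 l' hl2), Fin.mk.injEq] at h'
          have e1 := g1 l hl1
          have e2 := g1 l' hl2
          omega) (by
      intro l
      show (V l).card ≤ q
      rw [hV]
      split_ifs with h0 h
      · simp
      · refine le_trans ?_ (hq ⟨l - 1, h⟩)
        apply Finset.card_le_card_of_injOn (fun i : Fin n => (i : ℕ))
        · intro i hi
          rw [Finset.mem_coe, Finset.mem_filter] at hi
          exact hi.2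
        · intro i _ j _ hij
          exact Fin.ext hij
      · simp) (r - 1) 1 (by omega) 0 (m + 2) (Nat.zero_le _) ⟨y0, (hrank y0).mpr hy0⟩
  exact ⟨y, hy, (hrank y).mp hy1⟩

end Program

end Pool.Agent.UO
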