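import Mathlib
import Pool.Agent.Helper12_UO.Assemble

/-! From infinite fields to small integer points. -/

namespace Pool.Agent.UO

open MvPolynomial

theorem point_map {R S : Type*} [CommRing R] [CommRing S] (φ : R →+* S) {t : ℕ} (n : ℕ)
    (w z : Fin t → R) (i : ℕ) :
    φ (point n w z i) = point n (fun j => φ (w j)) (fun j => φ (z j)) i := by
  unfold point
  split_ifs
  · rw [map_sum]
    refine Finset.sum_congr rfl fun j _ => ?_
    rw [map_mul, map_prod]
    congr 1
    refine Finset.prod_congr rfl fun l _ => ?_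
    rw [map_sub, map_natCast]
  · exact map_zero φ

theorem point_eq_ext {E : Type*} [Field E] {t : ℕ} (n : ℕ) (w z : Fin t → E) :
    point n w z = extZ (SV (fun i : Fin n => ((i : ℕ) : E)) w z) := by
  classical
  funext i
  unfold point extZ
  split_ifs with h
  · unfold SV
    refine Finset.sum_congr rfl fun j _ => ?_
    congr 1
    refine Finset.prod_bij' (fun l _ => if hl : l < n then (⟨l, hl⟩ : Fin n) else ⟨i, h⟩)
      (fun l _ => (l : ℕ)) ?_ ?_ ?_ ?_ ?_
    · intro l hl
      rw [Finset.mem_erase, Finset.mem_range] at hl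
      rw [dif_pos hl.2, Finset.mem_erase]
      exact ⟨fun h => hl.1 (by simpa using congrArg Fin.val h), Finset.mem_univ _⟩
    · intro l hl
      rw [Finset.mem_erase] at hl
      rw [Finset.mem_erase, Finset.mem_range]
      exact ⟨fun h => hl.1 (Fin.ext h), l.2⟩
    · intro l hl
      rw [Finset.mem_erase, Finset.mem_range] at hl
      simp only [hl.2, ↓reduceDIte]
    · intro l hl
      apply Fin.ext
      simp
    · intro l hl
      rw [Finset.mem_erase, Finset.mem_range] at hl
      simp only [hl.2, ↓reduceDIte]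
  · rfl

/-- The generator hits all members of a finite family of programs together. -/
theorem family_hit {E : Type*} [Field E] [CharZero E] (n r k q t : ℕ)
    (ht : seedLength r k q ≤ t) (s : List (MvPolynomial ℕ E))
    (hs : ∀ f ∈ s, IsProgram n r k q f) (h0 : s.prod ≠ 0) :
    ∃ w z : Fin t → E, eval (point n w z) s.prod ≠ 0 := by
  classical
  have : Infinite E := inferInstance
  obtain ⟨y, ⟨w, z, rfl⟩, hy⟩ := Im_common (fun i : Fin n => ((i : ℕ) : E)) t s.toFinset
    (f := fun g y => eval (extZ y) g) (fun g _ => eval_extZ_poly g) (by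
      intro g hg
      rw [List.mem_toFinset] at hg
      have hg0 : g ≠ 0 := by
        rintro rfl
        exact h0 (List.prod_eq_zero hg)
      obtain ⟨y, hy, hy'⟩ := program_hit (c := fun i : Fin n => ((i : ℕ) : E))
        (fun i j hij => Fin.ext (Nat.cast_injective hij)) (hs g hg) hg0
      exact ⟨y, Im_mono _ ht hy, hy'⟩)
  refine ⟨w, z, ?_⟩
  rw [point_eq_ext, map_list_prod]
  intro hz
  rw [List.prod_eq_zero_iff, List.mem_map] at hz
  obtain ⟨g, hg, hg0⟩ := hz
  exact hy g (List.mem_toFinset.mpr hg) hg0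

theorem degreeOf_point {R : Type*} [CommRing R] [Nontrivial R] (t n i : ℕ) (s : Fin t ⊕ Fin t) :
    degreeOf s (point n (fun j => (X (Sum.inl j) : MvPolynomial (Fin t ⊕ Fin t) R))
      (fun j => X (Sum.inr j)) i) ≤ n := by
  classical
  unfold point
  split_ifs with h
  · refine (degreeOf_sum_le _ _ _).trans (Finset.sup_le fun j _ => ?_)
    refine (degreeOf_mul_le _ _ _).trans ?_
    show degreeOf s (X (Sum.inr j)) + degreeOf s (∏ l ∈ (Finset.range n).erase i,
        ((X (Sum.inl j) : MvPolynomial (Fin t ⊕ Fin t) R) - (l : MvPolynomial (Fin t ⊕ Fin t) R))) ≤ n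
    have h1 : degreeOf s (∏ l ∈ (Finset.range n).erase i,
        ((X (Sum.inl j) : MvPolynomial (Fin t ⊕ Fin t) R) - (l : MvPolynomial (Fin t ⊕ Fin t) R))) ≤
        (n - 1) * degreeOf s (X (Sum.inl j) : MvPolynomial (Fin t ⊕ Fin t) R) := by
      refine (degreeOf_prod_le _ _ _).trans ((Finset.sum_le_sum
        (g := fun _ => degreeOf s (X (Sum.inl j) : MvPolynomial (Fin t ⊕ Fin t) R))
        fun l _ => ?_).trans ?_)
      · refine (degreeOf_sub_le _ _ _).trans ?_
        rw [show ((l : ℕ) : MvPolynomial (Fin t ⊕ Fin t) R) = C (l : R) by simp, degreeOf_C]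
        simp
      · rw [Finset.sum_const, Finset.card_erase_of_mem (Finset.mem_range.mpr h),
          Finset.card_range, smul_eq_mul]
    obtain ⟨a, ha⟩ : ∃ a, a = degreeOf s (∏ l ∈ (Finset.range n).erase i,
        ((X (Sum.inl j) : MvPolynomial (Fin t ⊕ Fin t) R) -
          (l : MvPolynomial (Fin t ⊕ Fin t) R))) := ⟨_, rfl⟩
    rw [← ha] at h1 ⊢
    rw [degreeOf_X] at h1 ⊢
    by_cases h2 : s = Sum.inr j
    · have h3 : s ≠ Sum.inl j := by
        rw [h2]
        simp
      rw [if_neg h3] at h1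
      rw [if_pos h2]
      omega
    · rw [if_neg h2]
      split_ifs at h1 <;> omega
  · rw [degreeOf_zero]
    exact Nat.zero_le n

theorem degreeOf_aeval_le {R : Type*} [CommRing R] {τ : Type*} (g : ℕ → MvPolynomial τ R)
    (P : MvPolynomial ℕ R) (n D : ℕ) (s : τ) (hg : ∀ i, degreeOf s (g i) ≤ n)
    (hD : P.totalDegree ≤ D) : degreeOf s (aeval g P) ≤ n * D := by
  classical
  rw [aeval_def, eval₂_eq]
  refine (degreeOf_sum_le _ _ _).trans (Finset.sup_le fun d hd => ?_)
  refine (degreeOf_mul_le _ _ _).trans ?_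
  rw [algebraMap_eq, degreeOf_C, zero_add]
  refine (degreeOf_prod_le _ _ _).trans ?_
  calc ∑ i ∈ d.support, degreeOf s (g i ^ d i) ≤ ∑ i ∈ d.support, n * d i := by
        refine Finset.sum_le_sum fun i _ => ?_
        refine (degreeOf_pow_le _ _ _).trans ?_
        rw [mul_comm]
        exact Nat.mul_le_mul_right _ (hg i)
    _ = n * ∑ i ∈ d.support, d i := by rw [Finset.mul_sum]
    _ ≤ n * D := Nat.mul_le_mul_left _ ((le_totalDegree hd).trans hD)

/-- A small integer point on the generator where a factor of the product does not vanish. -/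
theorem int_hit {E : Type*} [Field E] [CharZero E] (n r k q D t : ℕ)
    (ht : seedLength r k q ≤ t) (P : MvPolynomial ℕ ℤ) (hD : P.totalDegree ≤ D)
    (s : List (MvPolynomial ℕ E)) (hs : ∀ f ∈ s, IsProgram n r k q f) (h0 : s.prod ≠ 0)
    (hdvd : map (Int.castRingHom E) P ∣ s.prod) :
    ∃ w z : Fin t → ℕ, (∀ j, w j ≤ n * D) ∧ (∀ j, z j ≤ n * D) ∧
      eval (point n (fun j => (w j : ℤ)) (fun j => (z j : ℤ))) P ≠ 0 := by
  classical
  obtain ⟨w0, z0, h1⟩ := family_hit n r k q t ht s hs h0
  obtain ⟨H, hH⟩ : ∃ H : MvPolynomial (Fin t ⊕ Fin t) ℤ, H = aeval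
    (point n (fun j => (X (Sum.inl j) : MvPolynomial (Fin t ⊕ Fin t) ℤ))
      (fun j => X (Sum.inr j))) P := ⟨_, rfl⟩
  have heval : ∀ x : (Fin t ⊕ Fin t) → ℤ, eval x H =
      eval (point n (fun j => x (Sum.inl j)) (fun j => x (Sum.inr j))) P := by
    intro x
    rw [hH]
    have h3 : (eval x).comp (aeval (R := ℤ)
        (point n (fun j => (X (Sum.inl j) : MvPolynomial (Fin t ⊕ Fin t) ℤ))
        (fun j => X (Sum.inr j)))).toRingHom =
        eval (point n (fun j => x (Sum.inl j)) (fun j => x (Sum.inr j))) := by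
      apply MvPolynomial.ringHom_ext
      · intro a
        simp
      · intro i
        simp only [AlgHom.toRingHom_eq_coe, RingHom.coe_comp, RingHom.coe_coe,
          Function.comp_apply, aeval_X, eval_X]
        rw [point_map (eval x)]
        simp only [eval_X]
    exact RingHom.congr_fun h3 P
  have hHne : H ≠ 0 := by
    intro hH0
    apply h1
    obtain ⟨g, hg⟩ := hdvd
    rw [hg, map_mul]
    have h3 : (eval (point n w0 z0)).comp (map (Int.castRingHom E)) =
        (eval₂Hom (Int.castRingHom E) (Sum.elim w0 z0)).comp (aeval (R := ℤ)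
        (point n (fun j => (X (Sum.inl j) : MvPolynomial (Fin t ⊕ Fin t) ℤ))
        (fun j => X (Sum.inr j)))).toRingHom := by
      apply MvPolynomial.ringHom_ext
      · intro a
        simp
      · intro i
        simp only [AlgHom.toRingHom_eq_coe, RingHom.coe_comp, RingHom.coe_coe,
          Function.comp_apply, aeval_X, map_X, eval_X]
        rw [point_map (eval₂Hom (Int.castRingHom E) (Sum.elim w0 z0))]
        simp only [coe_eval₂Hom, eval₂_X, Sum.elim_inl, Sum.elim_inr]
    have h4 := RingHom.congr_fun h3 P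
    simp only [AlgHom.toRingHom_eq_coe, RingHom.coe_comp, RingHom.coe_coe,
      Function.comp_apply] at h4
    rw [h4, ← hH, hH0, map_zero, zero_mul]
  by_contra hcon
  push Not at hcon
  apply hHne
  apply eq_zero_of_eval_zero_at_prod_finset H
    (fun _ => (Finset.range (n * D + 1)).image (fun a : ℕ => (a : ℤ)))
  · intro i
    rw [Finset.card_image_of_injective _ Nat.cast_injective, Finset.card_range, hH]
    exact Nat.lt_succ_of_le (degreeOf_aeval_le _ P n D i (fun j => degreeOf_point t n j i) hD)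
  · intro x hx
    have hx' : ∀ i, ∃ a : ℕ, a ≤ n * D ∧ (a : ℤ) = x i := by
      intro i
      obtain ⟨a, ha, ha'⟩ := Finset.mem_image.mp (hx i)
      exact ⟨a, Nat.lt_succ_iff.mp (Finset.mem_range.mp ha), ha'⟩
    choose a ha ha' using hx'
    rw [heval]
    have := hcon (fun j => a (Sum.inl j)) (fun j => a (Sum.inr j)) (fun j => ha _) (fun j => ha _)
    simpa only [ha'] using this

theorem natAbs_prod' {ι : Type*} (s : Finset ι) (f : ι → ℤ) :
    (∏ i ∈ s, f i).natAbs = ∏ i ∈ s, (f i).natAbs :=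
  map_prod Int.natAbsHom f s

theorem natAbs_eval_le (P : MvPolynomial ℕ ℤ) (x : ℕ → ℤ) (B D : ℕ) (hB : 1 ≤ B)
    (hx : ∀ i, (x i).natAbs ≤ B) (hD : P.totalDegree ≤ D) :
    (eval x P).natAbs ≤ length P * B ^ D := by
  classical
  rw [eval_eq]
  refine (Int.natAbs_sum_le _ _).trans ?_
  unfold length
  rw [Finset.sum_mul]
  refine Finset.sum_le_sum fun d hd => ?_
  rw [Int.natAbs_mul]
  apply Nat.mul_le_mul_left
  rw [natAbs_prod']
  calc ∏ i ∈ d.support, (x i ^ d i).natAbs ≤ ∏ i ∈ d.support, B ^ d i := by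
        refine Finset.prod_le_prod' fun i _ => ?_
        rw [Int.natAbs_pow]
        exact Nat.pow_le_pow_left (hx i) _
    _ = B ^ ∑ i ∈ d.support, d i := by rw [Finset.prod_pow_eq_pow_sum]
    _ ≤ B ^ D := Nat.pow_le_pow_right hB ((le_totalDegree hd).trans hD)

theorem natAbs_point_le (n D t : ℕ) (w z : Fin t → ℕ) (hw : ∀ j, w j ≤ n * D)
    (hz : ∀ j, z j ≤ n * D) (i : ℕ) :
    (point n (fun j => (w j : ℤ)) (fun j => (z j : ℤ)) i).natAbs ≤
      2 ^ (t + n * (n * (D + 1))) := by
  unfold point
  split_ifs with h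
  · have hn : 1 ≤ n := by omega
    refine (Int.natAbs_sum_le _ _).trans ?_
    have h1 : ∀ j : Fin t, ((z j : ℤ) * ∏ l ∈ (Finset.range n).erase i, ((w j : ℤ) - (l : ℤ))).natAbs ≤
        (n * (D + 1)) ^ n := by
      intro j
      rw [Int.natAbs_mul]
      have h2 : (∏ l ∈ (Finset.range n).erase i, ((w j : ℤ) - (l : ℤ))).natAbs ≤
          (n * (D + 1)) ^ (n - 1) := by
        rw [natAbs_prod']
        refine (Finset.prod_le_prod' (g := fun _ => n * (D + 1)) fun l hl => ?_).trans ?_
        · rw [Finset.mem_erase, Finset.mem_range] at hl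
          have := hw j
          have h3 : n * (D + 1) = n * D + n := by ring
          omega
        · rw [Finset.prod_const, Finset.card_erase_of_mem (Finset.mem_range.mpr h),
            Finset.card_range]
      calc (z j : ℤ).natAbs * (∏ l ∈ (Finset.range n).erase i, ((w j : ℤ) - (l : ℤ))).natAbs
          ≤ (n * (D + 1)) * (n * (D + 1)) ^ (n - 1) := by
            apply Nat.mul_le_mul _ h2
            rw [Int.natAbs_natCast]
            exact (hz j).trans (Nat.mul_le_mul_left _ (Nat.le_succ D))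
        _ = (n * (D + 1)) ^ n := by
            rw [← pow_succ', Nat.sub_add_cancel hn]
    calc ∑ j : Fin t, ((z j : ℤ) * ∏ l ∈ (Finset.range n).erase i, ((w j : ℤ) - (l : ℤ))).natAbs
        ≤ ∑ _j : Fin t, (n * (D + 1)) ^ n := Finset.sum_le_sum fun j _ => h1 j
      _ = t * (n * (D + 1)) ^ n := by simp
      _ ≤ 2 ^ t * (2 ^ (n * (D + 1))) ^ n :=
          Nat.mul_le_mul Nat.lt_two_pow_self.le (Nat.pow_le_pow_left Nat.lt_two_pow_self.le n)
      _ = 2 ^ (t + n * (n * (D + 1))) := by
          rw [← pow_mul, ← pow_add, mul_comm (n * (D + 1)) n]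
  · simp

end Pool.Agent.UO
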