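import Mathlib
import Pool.Agent.Helper12_UO.Defs

/-! The lowest homogeneous part of a read-once program is a read-once program in the same order. -/

namespace Pool.Agent.UO

open Matrix MvPolynomial

section

variable {K : Type*} [Field K] {w : ℕ}

/-- All coefficients of degree less than `e` vanish. -/
def LowZero (e : ℕ) (P : MvPolynomial ℕ K) : Prop := ∀ d : ℕ →₀ ℕ, d.degree < e → coeff d P = 0

theorem LowZero.mono {e e' : ℕ} {P : MvPolynomial ℕ K} (h : LowZero e P) (he : e' ≤ e) :
    LowZero e' P := fun d hd => h d (lt_of_lt_of_le hd he)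

theorem LowZero.zero (e : ℕ) : LowZero e (0 : MvPolynomial ℕ K) := fun d _ => coeff_zero d

theorem eq_zero_of_lowZero {e : ℕ} {P : MvPolynomial ℕ K} (h : LowZero e P)
    (hP : P.totalDegree < e) : P = 0 := by
  ext d
  rw [coeff_zero]
  by_cases hd : d.degree < e
  · exact h d hd
  · by_contra hne
    have h1 := le_totalDegree (mem_support_iff.mpr hne)
    have h2 : (d.sum fun _ e => e) = d.degree := rfl
    omega

/-- Combination of polynomials with constant coefficients. -/
noncomputable def comb (x : Fin w → K) (g : Fin w → MvPolynomial ℕ K) : MvPolynomial ℕ K :=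
  ∑ b, C (x b) * g b

theorem coeff_comb (x : Fin w → K) (g : Fin w → MvPolynomial ℕ K) (d : ℕ →₀ ℕ) :
    coeff d (comb x g) = ∑ b, x b * coeff d (g b) := by
  unfold comb
  rw [coeff_sum]
  exact Finset.sum_congr rfl fun b _ => coeff_C_mul d (x b) (g b)

/-- The order of a combination is the minimum of the orders of its terms. -/
def Adapted (g : Fin w → MvPolynomial ℕ K) : Prop :=
  ∀ (x : Fin w → K) (e : ℕ), LowZero e (comb x g) → ∀ a, x a ≠ 0 → LowZero e (g a)

/-- Change of basis. -/
noncomputable def mulG (G : Matrix (Fin w) (Fin w) K) (g : Fin w → MvPolynomial ℕ K) :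
    Fin w → MvPolynomial ℕ K := fun a => comb (G a) g

theorem comb_mulG (x : Fin w → K) (G : Matrix (Fin w) (Fin w) K)
    (g : Fin w → MvPolynomial ℕ K) : comb x (mulG G g) = comb (x ᵥ* G) g := by
  ext d
  rw [coeff_comb, coeff_comb]
  simp only [mulG, coeff_comb, Matrix.vecMul, dotProduct]
  simp only [Finset.mul_sum, Finset.sum_mul]
  rw [Finset.sum_comm]
  refine Finset.sum_congr rfl fun b _ => Finset.sum_congr rfl fun a _ => ?_
  ring

theorem totalDegree_comb_le (x : Fin w → K) (g : Fin w → MvPolynomial ℕ K) (c : ℕ)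
    (h : ∀ b, (g b).totalDegree ≤ c) : (comb x g).totalDegree ≤ c := by
  unfold comb
  apply totalDegree_finsetSum_le
  intro b _
  refine (totalDegree_mul _ _).trans ?_
  rw [totalDegree_C, zero_add]
  exact h b

/-- Every vector of polynomials has an adapted basis change. -/
theorem exists_adapted (g : Fin w → MvPolynomial ℕ K) :
    ∃ G : Matrix (Fin w) (Fin w) K, G.det ≠ 0 ∧ Adapted (mulG G g) := by
  classical
  obtain ⟨c, hc⟩ : ∃ c, ∀ b, (g b).totalDegree ≤ c :=
    ⟨Finset.univ.sup fun b => (g b).totalDegree, fun b => Finset.le_sup (f := fun b =>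
      (g b).totalDegree) (Finset.mem_univ b)⟩
  let cnt : MvPolynomial ℕ K → ℕ := fun P =>
    ((Finset.range (c + 1)).filter fun e => LowZero (e + 1) P).card
  have hcnt : ∀ P, cnt P ≤ c + 1 := by
    intro P
    refine (Finset.card_filter_le _ _).trans ?_
    rw [Finset.card_range]
  let μ : Matrix (Fin w) (Fin w) K → ℕ := fun G => ∑ a, cnt (comb (G a) g)
  have hμ : ∀ G, μ G ≤ w * (c + 1) := by
    intro G
    refine (Finset.sum_le_sum (g := fun _ => c + 1) fun a _ => hcnt _).trans ?_
    simp
  have hstep : ∀ G : Matrix (Fin w) (Fin w) K, G.det ≠ 0 → ¬ Adapted (mulG G g) →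
      ∃ G' : Matrix (Fin w) (Fin w) K, G'.det ≠ 0 ∧ μ G < μ G' := by
    intro G hG hna
    unfold Adapted at hna
    push Not at hna
    obtain ⟨x, e, hx, a, ha, hna⟩ := hna
    obtain ⟨G', hG'⟩ : ∃ G', G' = G.updateRow a (x ᵥ* G) := ⟨_, rfl⟩
    have hxG : x ᵥ* G = ∑ k, x k • G k := by
      ext b
      simp [Matrix.vecMul, dotProduct]
    refine ⟨G', ?_, ?_⟩
    · rw [hG', hxG, Matrix.det_updateRow_sum, smul_eq_mul]
      exact mul_ne_zero ha hG
    · have hlow : LowZero e (comb (G' a) g) := by
        rw [hG', Matrix.updateRow_self, ← comb_mulG]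
        exact hx
      have hdeg : ∀ x : Fin w → K, (comb x g).totalDegree ≤ c := fun x =>
        totalDegree_comb_le x g c hc
      have hlt : cnt (comb (G a) g) < cnt (comb (G' a) g) := by
        obtain ⟨e', he', he'c, h1, h2⟩ : ∃ e', 1 ≤ e' ∧ e' ≤ c + 1 ∧
            LowZero e' (comb (G' a) g) ∧ ¬ LowZero e' (comb (G a) g) := by
          refine ⟨min e (c + 1), ?_, min_le_right _ _, hlow.mono (min_le_left _ _), ?_⟩
          · have : e ≠ 0 := by
              rintro rfl
              exact hna fun d hd => absurd hd (Nat.not_lt_zero _)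
            omega
          · intro h
            rcases le_total e (c + 1) with h' | h'
            · rw [min_eq_left h'] at h
              exact hna h
            · rw [min_eq_right h'] at h
              have h0 := eq_zero_of_lowZero h (Nat.lt_succ_of_le (hdeg _))
              apply hna
              show LowZero e (comb (G a) g)
              rw [h0]
              exact LowZero.zero e
        apply Finset.card_lt_card
        rw [Finset.ssubset_iff_of_subset]
        · refine ⟨e' - 1, ?_, ?_⟩
          · rw [Finset.mem_filter, Finset.mem_range]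
            refine ⟨by omega, ?_⟩
            rw [Nat.sub_add_cancel he']
            exact h1
          · rw [Finset.mem_filter]
            rintro ⟨_, h3⟩
            rw [Nat.sub_add_cancel he'] at h3
            exact h2 h3
        · intro f hf
          rw [Finset.mem_filter] at hf ⊢
          refine ⟨hf.1, ?_⟩
          rcases le_or_gt (f + 1) e' with h' | h'
          · exact h1.mono h'
          · exact absurd (hf.2.mono h'.le) h2
      refine Finset.sum_lt_sum (fun b _ => ?_) ⟨a, Finset.mem_univ a, hlt⟩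
      by_cases hb : b = a
      · rw [hb]
        exact hlt.le
      · rw [hG', Matrix.updateRow_ne hb]
  by_contra hcon
  push Not at hcon
  have hall : ∀ j : ℕ, ∃ G : Matrix (Fin w) (Fin w) K, G.det ≠ 0 ∧ j ≤ μ G := by
    intro j
    induction j with
    | zero => exact ⟨1, by simp, Nat.zero_le _⟩
    | succ j ih =>
      obtain ⟨G, hG, hj⟩ := ih
      obtain ⟨G', hG', hlt⟩ := hstep G hG (hcon G hG)
      exact ⟨G', hG', by omega⟩
  obtain ⟨G, hG, hj⟩ := hall (w * (c + 1) + 1)
  have := hμ G
  omega

/-- The order of a polynomial (zero for the zero polynomial). -/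
noncomputable def ordN (P : MvPolynomial ℕ K) : ℕ :=
  sInf {e | ∃ d : ℕ →₀ ℕ, coeff d P ≠ 0 ∧ d.degree = e}

theorem lowZero_ordN (P : MvPolynomial ℕ K) : LowZero (ordN P) P := by
  intro d hd
  by_contra hne
  have : ordN P ≤ d.degree := Nat.sInf_le ⟨d, hne, rfl⟩
  omega

theorem exists_ordN {P : MvPolynomial ℕ K} (hP : P ≠ 0) :
    ∃ d : ℕ →₀ ℕ, coeff d P ≠ 0 ∧ d.degree = ordN P := by
  obtain ⟨d, hd⟩ := MvPolynomial.exists_coeff_ne_zero hP
  exact Nat.sInf_mem (s := {e | ∃ d : ℕ →₀ ℕ, coeff d P ≠ 0 ∧ d.degree = e}) ⟨_, d, hd, rfl⟩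

theorem le_ordN {P : MvPolynomial ℕ K} (hP : P ≠ 0) {e : ℕ} (h : LowZero e P) : e ≤ ordN P := by
  obtain ⟨d, hd, hd'⟩ := exists_ordN hP
  by_contra hlt
  exact hd (h d (by omega))

/-- The lowest homogeneous part. -/
noncomputable def inn (P : MvPolynomial ℕ K) : MvPolynomial ℕ K :=
  homogeneousComponent (ordN P) P

theorem coeff_inn (P : MvPolynomial ℕ K) (d : ℕ →₀ ℕ) :
    coeff d (inn P) = if d.degree = ordN P then coeff d P else 0 :=
  coeff_homogeneousComponent _ _ _

theorem inn_zero : inn (0 : MvPolynomial ℕ K) = 0 := by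
  unfold inn
  exact map_zero _

theorem inn_ne_zero {P : MvPolynomial ℕ K} (hP : P ≠ 0) : inn P ≠ 0 := by
  obtain ⟨d, hd, hd'⟩ := exists_ordN hP
  intro h0
  apply hd
  have := coeff_inn P d
  rw [if_pos hd', h0, coeff_zero] at this
  exact this.symm

theorem inn_C (x : K) : inn (C x : MvPolynomial ℕ K) = C x := by
  by_cases hx : x = 0
  · rw [hx, map_zero, inn_zero]
  · have h0 : ordN (C x : MvPolynomial ℕ K) = 0 := by
      apply Nat.eq_zero_of_le_zero
      exact Nat.sInf_le ⟨0, by simpa using hx, by simp⟩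
    ext d
    rw [coeff_inn, h0, coeff_C]
    by_cases hd : d = 0
    · subst hd
      simp
    · have h1 : (0 : ℕ →₀ ℕ) ≠ d := fun h => hd h.symm
      rw [if_neg h1]
      split_ifs <;> rfl

/-- Coefficients of products of polynomials in disjoint sets of variables. -/
theorem coeff_mul_disjoint {V : Finset ℕ} {q g : MvPolynomial ℕ K} (hq : q.vars ⊆ V)
    (hg : ∀ i ∈ g.vars, i ∉ V) (x y : ℕ →₀ ℕ) (hx : x.support ⊆ V)
    (hy : ∀ i ∈ y.support, i ∉ V) :
    coeff (x + y) (q * g) = coeff x q * coeff y g := by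
  classical
  rw [coeff_mul]
  rw [Finset.sum_eq_single (x, y)]
  · intro ⟨x', y'⟩ hxy hne
    rw [Finset.HasAntidiagonal.mem_antidiagonal] at hxy
    by_contra hne'
    have h1 : coeff x' q ≠ 0 := left_ne_zero_of_mul hne'
    have h2 : coeff y' g ≠ 0 := right_ne_zero_of_mul hne'
    have hx' : ∀ i, x' i ≠ 0 → i ∈ V := fun i hi =>
      hq ((mem_vars_iff_mem_support i).mpr ⟨x', mem_support_iff.mpr h1, Finsupp.mem_support_iff.mpr hi⟩)
    have hy' : ∀ i, y' i ≠ 0 → i ∉ V := fun i hi =>
      hg i ((mem_vars_iff_mem_support i).mpr ⟨y', mem_support_iff.mpr h2, Finsupp.mem_support_iff.mpr hi⟩)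
    have hcomp : ∀ i, x' i + y' i = x i + y i := by
      intro i
      have := DFunLike.congr_fun hxy i
      simpa using this
    apply hne
    have hxx : x' = x := by
      ext i
      have h3 := hcomp i
      by_cases hi : i ∈ V
      · have h4 : y' i = 0 := by
          by_contra h
          exact hy' i h hi
        have h5 : y i = 0 := by
          by_contra h
          exact hy i (Finsupp.mem_support_iff.mpr h) hi
        omega
      · have h4 : x' i = 0 := by
          by_contra h
          exact hi (hx' i h)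
        have h5 : x i = 0 := by
          by_contra h
          exact hi (hx (Finsupp.mem_support_iff.mpr h))
        omega
    have hyy : y' = y := by
      ext i
      have h3 := hcomp i
      rw [hxx] at h3
      omega
    rw [hxx, hyy]
  · intro h
    exfalso
    apply h
    rw [Finset.HasAntidiagonal.mem_antidiagonal]

/-- One step of the construction. -/
theorem inn_step (q : Fin w → MvPolynomial ℕ K) (g : Fin w → MvPolynomial ℕ K)
    (V : Finset ℕ) (hq : ∀ b, (q b).vars ⊆ V) (hg : ∀ b, ∀ i ∈ (g b).vars, i ∉ V)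
    (hA : Adapted g) :
    ∃ q' : Fin w → MvPolynomial ℕ K, (∀ b, (q' b).vars ⊆ V) ∧
      inn (∑ b, q b * g b) = ∑ b, q' b * inn (g b) := by
  classical
  obtain ⟨P, hP⟩ : ∃ P, P = ∑ b, q b * g b := ⟨_, rfl⟩
  rw [← hP]
  by_cases hP0 : P = 0
  · refine ⟨fun _ => 0, fun b => by simp, ?_⟩
    rw [hP0, inn_zero]
    simp
  obtain ⟨δ, hδ⟩ : ∃ δ, δ = ordN P := ⟨_, rfl⟩
  -- the key vanishing
  have hkey : ∀ b, g b ≠ 0 → ∀ x : ℕ →₀ ℕ, x.degree + ordN (g b) < δ → coeff x (q b) = 0 := by
    intro b hb x hx
    by_contra hne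
    have hxV : x.support ⊆ V := by
      intro i hi
      exact hq b ((mem_vars_iff_mem_support i).mpr ⟨x, mem_support_iff.mpr hne, hi⟩)
    have hlow : LowZero (δ - x.degree) (comb (fun b => coeff x (q b)) g) := by
      intro y hy
      rw [coeff_comb]
      by_cases hyV : ∀ i ∈ y.support, i ∉ V
      · have h1 : coeff (x + y) P = 0 := by
          apply lowZero_ordN P
          rw [map_add, ← hδ]
          omega
        rw [hP, coeff_sum] at h1
        rw [← h1]
        refine Finset.sum_congr rfl fun b _ => ?_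
        rw [coeff_mul_disjoint (hq b) (hg b) x y hxV hyV]
      · push Not at hyV
        obtain ⟨i, hi, hiV⟩ := hyV
        apply Finset.sum_eq_zero
        intro b _
        have : coeff y (g b) = 0 := by
          by_contra hne
          exact hg b i ((mem_vars_iff_mem_support i).mpr ⟨y, mem_support_iff.mpr hne, hi⟩) hiV
        rw [this, mul_zero]
    have h2 := le_ordN hb (hA _ _ hlow b hne)
    omega
  refine ⟨fun b => if g b ≠ 0 ∧ ordN (g b) ≤ δ then homogeneousComponent (δ - ordN (g b)) (q b)
    else 0, ?_, ?_⟩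
  · intro b
    by_cases h : g b ≠ 0 ∧ ordN (g b) ≤ δ
    · simp only [h, and_self, ↓reduceIte, ne_eq, not_false_eq_true]
      intro i hi
      rw [mem_vars_iff_mem_support] at hi
      obtain ⟨d, hd, hi⟩ := hi
      rw [mem_support_iff, coeff_homogeneousComponent] at hd
      apply hq b
      rw [mem_vars_iff_mem_support]
      refine ⟨d, mem_support_iff.mpr ?_, hi⟩
      intro h0
      rw [h0] at hd
      simp at hd
    · simp only [h, ↓reduceIte]
      simp
  · ext d
    rw [coeff_inn, coeff_sum, ← hδ]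
    by_cases hd : d.degree = δ
    · rw [if_pos hd, hP, coeff_sum]
      refine Finset.sum_congr rfl fun b _ => ?_
      by_cases h : g b ≠ 0 ∧ ordN (g b) ≤ δ
      · simp only [h, and_self, ↓reduceIte, ne_eq, not_false_eq_true]
        rw [coeff_mul, coeff_mul]
        refine Finset.sum_congr rfl fun xy hxy => ?_
        rw [Finset.HasAntidiagonal.mem_antidiagonal] at hxy
        have hdeg : xy.1.degree + xy.2.degree = δ := by
          rw [← hd, ← hxy, map_add]
        rw [coeff_homogeneousComponent, coeff_inn]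
        rcases lt_trichotomy xy.2.degree (ordN (g b)) with h1 | h1 | h1
        · rw [lowZero_ordN (g b) xy.2 h1, if_neg h1.ne, mul_zero, mul_zero]
        · rw [if_pos h1, if_pos (by omega)]
        · rw [hkey b h.1 xy.1 (by omega), if_neg (by omega), zero_mul, zero_mul]
      · simp only [h, ↓reduceIte]
        rw [zero_mul, coeff_zero]
        by_cases hb : g b = 0
        · rw [hb, mul_zero, coeff_zero]
        · have hlt : δ < ordN (g b) := by
            by_contra h'
            exact h ⟨hb, by omega⟩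
          rw [coeff_mul]
          apply Finset.sum_eq_zero
          intro xy hxy
          rw [Finset.HasAntidiagonal.mem_antidiagonal] at hxy
          have hdeg : xy.1.degree + xy.2.degree = δ := by
            rw [← hd, ← hxy, map_add]
          rw [lowZero_ordN (g b) xy.2 (by omega), mul_zero]
    · rw [if_neg hd]
      symm
      apply Finset.sum_eq_zero
      intro b _
      by_cases h : g b ≠ 0 ∧ ordN (g b) ≤ δ
      · simp only [h, and_self, ↓reduceIte, ne_eq, not_false_eq_true]
        rw [coeff_mul]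
        apply Finset.sum_eq_zero
        intro xy hxy
        rw [Finset.HasAntidiagonal.mem_antidiagonal] at hxy
        have hdeg : xy.1.degree + xy.2.degree = d.degree := by
          rw [← hxy, map_add]
        rw [coeff_homogeneousComponent, coeff_inn]
        by_cases h1 : xy.2.degree = ordN (g b)
        · rw [if_neg (by omega), zero_mul]
        · rw [if_neg h1, mul_zero]
      · simp only [h, ↓reduceIte]
        rw [zero_mul, coeff_zero]

theorem layerVars_subset {M : Matrix (Fin w) (Fin w) (MvPolynomial ℕ K)} {V : Finset ℕ} :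
    layerVars M ⊆ V ↔ ∀ a b, (M a b).vars ⊆ V := by
  unfold layerVars
  rw [Finset.biUnion_subset]
  constructor
  · intro h a b
    have h1 := h a (Finset.mem_univ a)
    rw [Finset.biUnion_subset] at h1
    exact h1 b (Finset.mem_univ b)
  · intro h a _
    rw [Finset.biUnion_subset]
    exact fun b _ => h a b

theorem vars_sum_subset' {ι : Type*} (s : Finset ι) (f : ι → MvPolynomial ℕ K) (V : Finset ℕ)
    (h : ∀ i ∈ s, (f i).vars ⊆ V) : (∑ i ∈ s, f i).vars ⊆ V := by
  classical
  refine (vars_sum_subset s f).trans ?_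
  rw [Finset.biUnion_subset]
  exact h

theorem vars_mul_subset' {f g : MvPolynomial ℕ K} {V : Finset ℕ} (hf : f.vars ⊆ V)
    (hg : g.vars ⊆ V) : (f * g).vars ⊆ V := by
  classical
  exact (vars_mul f g).trans (Finset.union_subset hf hg)

theorem inn_list (z : Fin w → K) : ∀ Ts : List (Matrix (Fin w) (Fin w) (MvPolynomial ℕ K)),
    Ts.Pairwise (fun T T' => Disjoint (layerVars T) (layerVars T')) →
    ∃ (G : Matrix (Fin w) (Fin w) K) (Ts' : List (Matrix (Fin w) (Fin w) (MvPolynomial ℕ K)))
      (z' : Fin w → K), G.det ≠ 0 ∧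
      List.Forall₂ (fun T' T => layerVars T' ⊆ layerVars T) Ts' Ts ∧
      Adapted (mulG G (Ts.prod *ᵥ fun i => C (z i))) ∧
      (∀ a, ∀ i ∈ (mulG G (Ts.prod *ᵥ fun i => C (z i)) a).vars, ∃ T ∈ Ts, i ∈ layerVars T) ∧
      (fun a => inn (mulG G (Ts.prod *ᵥ fun i => C (z i)) a)) =
        Ts'.prod *ᵥ fun i => C (z' i) := by
  classical
  intro Ts
  induction Ts with
  | nil =>
    intro _
    obtain ⟨G, hG, hA⟩ := exists_adapted (fun i => C (z i) : Fin w → MvPolynomial ℕ K)
    have hval : ∀ a, mulG G (fun i => C (z i)) a = C ((G *ᵥ z) a) := by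
      intro a
      unfold mulG comb Matrix.mulVec dotProduct
      simp [map_sum]
    refine ⟨G, [], G *ᵥ z, hG, List.Forall₂.nil, ?_, ?_, ?_⟩
    · rw [List.prod_nil, Matrix.one_mulVec]
      exact hA
    · intro a i hi
      rw [List.prod_nil, Matrix.one_mulVec, hval, vars_C] at hi
      exact absurd hi (Finset.notMem_empty i)
    · rw [List.prod_nil, Matrix.one_mulVec, Matrix.one_mulVec]
      funext a
      rw [hval, inn_C]
  | cons T Ts ih =>
    intro hp
    rw [List.pairwise_cons] at hp
    obtain ⟨G1, Ts1, z', hG1, hF, hA1, hV1, hin⟩ := ih hp.2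
    obtain ⟨S1, hS1⟩ : ∃ S1, S1 = Ts.prod *ᵥ fun i => (C (z i) : MvPolynomial ℕ K) := ⟨_, rfl⟩
    rw [← hS1] at hA1 hV1 hin
    obtain ⟨G, hG, hA⟩ := exists_adapted (T *ᵥ S1)
    have hS : (T :: Ts).prod *ᵥ (fun i => (C (z i) : MvPolynomial ℕ K)) = T *ᵥ S1 := by
      rw [List.prod_cons, ← Matrix.mulVec_mulVec, hS1]
    rw [hS]
    -- the transition matrix in the new bases
    obtain ⟨q, hq⟩ : ∃ q : Matrix (Fin w) (Fin w) (MvPolynomial ℕ K),
        q = G.map C * T * (G1⁻¹).map C := ⟨_, rfl⟩
    have hmul : ∀ (H : Matrix (Fin w) (Fin w) K) (g : Fin w → MvPolynomial ℕ K),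
        mulG H g = H.map C *ᵥ g := by
      intro H g
      rfl
    have hgq : mulG G (T *ᵥ S1) = q *ᵥ mulG G1 S1 := by
      rw [hmul, hmul, hq, Matrix.mulVec_mulVec, Matrix.mulVec_mulVec, Matrix.mul_assoc,
        Matrix.mul_assoc, ← Matrix.map_mul, Matrix.nonsing_inv_mul _ (isUnit_iff_ne_zero.mpr hG1),
        Matrix.map_one _ C_0 C_1, Matrix.mul_one]
    have hqV : ∀ a b, (q a b).vars ⊆ layerVars T := by
      intro a b
      rw [hq, Matrix.mul_apply]
      refine vars_sum_subset' _ _ _ fun d _ => vars_mul_subset' ?_ ?_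
      · rw [Matrix.mul_apply]
        refine vars_sum_subset' _ _ _ fun d' _ => vars_mul_subset' ?_ ?_
        · rw [Matrix.map_apply, vars_C]
          exact Finset.empty_subset _
        · exact layerVars_subset.mp (Finset.Subset.refl _) _ _
      · rw [Matrix.map_apply, vars_C]
        exact Finset.empty_subset _
    have hdis : ∀ b, ∀ i ∈ (mulG G1 S1 b).vars, i ∉ layerVars T := by
      intro b i hi hiT
      obtain ⟨T', hT', hi'⟩ := hV1 b i hi
      exact Finset.disjoint_left.mp (hp.1 T' hT') hiT hi'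
    have hstep := fun a => inn_step (q a) (mulG G1 S1) (layerVars T) (hqV a) hdis hA1
    choose q' hq'V hq' using hstep
    refine ⟨G, Matrix.of q' :: Ts1, z', hG, List.Forall₂.cons ?_ hF, hA, ?_, ?_⟩
    · exact layerVars_subset.mpr hq'V
    · intro a i hi
      rw [hgq] at hi
      have h1 : (q *ᵥ mulG G1 S1) a = ∑ b, q a b * mulG G1 S1 b := rfl
      rw [h1] at hi
      have h2 := (vars_sum_subset _ _) hi
      rw [Finset.mem_biUnion] at h2
      obtain ⟨b, _, hb⟩ := h2
      have h3 := (vars_mul _ _) hb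
      rw [Finset.mem_union] at h3
      rcases h3 with h3 | h3
      · exact ⟨T, List.mem_cons_self, hqV a b h3⟩
      · obtain ⟨T', hT', hi'⟩ := hV1 b i h3
        exact ⟨T', List.mem_cons_of_mem _ hT', hi'⟩
    · rw [List.prod_cons, ← Matrix.mulVec_mulVec, ← hin]
      funext a
      rw [hgq]
      exact hq' a

theorem eq_C_of_vars {P : MvPolynomial ℕ K} (h : P.vars ⊆ ∅) : ∃ x, P = C x := by
  refine ⟨coeff 0 P, ?_⟩
  ext d
  rw [coeff_C]
  split_ifs with hd
  · rw [← hd]
  · by_contra hne
    apply hd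
    symm
    ext i
    by_contra hi
    exact Finset.notMem_empty i (h ((mem_vars_iff_mem_support i).mpr ⟨d, mem_support_iff.mpr hne,
      Finsupp.mem_support_iff.mpr hi⟩))

/-- The lowest homogeneous part of a read-once program is a read-once program. -/
theorem isProgram_inn (nv c n : ℕ) (T : Fin n → Matrix (Fin w) (Fin w) (MvPolynomial ℕ K))
    (hdisj : ∀ l l', l ≠ l' → Disjoint (layerVars (T l)) (layerVars (T l')))
    (hrange : ∀ l, layerVars (T l) ⊆ Finset.range nv) (hcard : ∀ l, (layerVars (T l)).card ≤ c)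
    (a z : Fin w → K) :
    IsProgram nv w 1 c (inn ((fun i => C (a i)) ⬝ᵥ
      ((List.ofFn T).prod *ᵥ fun i => (C (z i) : MvPolynomial ℕ K)))) := by
  classical
  obtain ⟨G, Ts', z', hG, hF, hA, hV, hin⟩ := inn_list z (List.ofFn T) (by
    rw [List.pairwise_ofFn]
    intro i j hij
    exact hdisj i j hij.ne)
  obtain ⟨S, hS⟩ : ∃ S, S = (List.ofFn T).prod *ᵥ fun i => (C (z i) : MvPolynomial ℕ K) :=
    ⟨_, rfl⟩
  rw [← hS] at hA hV hin ⊢
  have hP : (fun i => (C (a i) : MvPolynomial ℕ K)) ⬝ᵥ S =
      ∑ b, C ((a ᵥ* G⁻¹) b) * mulG G S b := by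
    have h1 : comb a S = comb (a ᵥ* G⁻¹) (mulG G S) := by
      rw [comb_mulG, Matrix.vecMul_vecMul, Matrix.nonsing_inv_mul _ (isUnit_iff_ne_zero.mpr hG),
        Matrix.vecMul_one]
    exact h1
  rw [hP]
  obtain ⟨q', hq'V, hq'⟩ := inn_step (fun b => C ((a ᵥ* G⁻¹) b)) (mulG G S) ∅ (by
    intro b
    rw [vars_C]) (fun b i _ => Finset.notMem_empty i) hA
  rw [hq']
  choose u hu using fun b => eq_C_of_vars (hq'V b)
  have hlen := hF.length_eq
  rw [List.forall₂_iff_get] at hF
  have hlay : ∀ l : Fin Ts'.length, ∃ l' : Fin n, (l' : ℕ) = l ∧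
      layerVars (Ts'.get l) ⊆ layerVars (T l') := by
    intro l
    have h1 : (l : ℕ) < (List.ofFn T).length := by
      rw [← hlen]
      exact l.2
    have h2 := hF.2 l l.2 h1
    have h3 : (l : ℕ) < n := by
      rw [List.length_ofFn] at h1
      exact h1
    refine ⟨⟨l, h3⟩, rfl, ?_⟩
    have h4 : (List.ofFn T).get ⟨l, h1⟩ = T ⟨l, h3⟩ := by
      simp
    rw [h4] at h2
    exact h2
  choose g hg1 hg2 using hlay
  refine ⟨Ts'.length, fun l => Ts'.get l, u, z', ?_, ?_, ?_, ?_⟩
  · exact fun l => (hg2 l).trans (hrange _)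
  · exact fun l => (Finset.card_le_card (hg2 l)).trans (hcard _)
  · intro i
    rw [Finset.card_le_one]
    intro l hl l' hl'
    rw [Finset.mem_filter] at hl hl'
    by_contra hne
    have h1 : g l ≠ g l' := by
      intro h
      apply hne
      apply Fin.ext
      rw [← hg1 l, ← hg1 l', h]
    exact Finset.disjoint_left.mp (hdisj _ _ h1) (hg2 l hl.2) (hg2 l' hl'.2)
  · rw [List.ofFn_get, ← hin]
    unfold dotProduct
    exact Finset.sum_congr rfl fun b _ => by rw [hu b]

end

end Pool.Agent.UO
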