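import Pool.Agent.Helper12_CW.Global
import Pool.Agent.Helper12_UO.Transfer

set_option autoImplicit false

/-! A nonzero program of exponential degree in unknown blocks has a nonzero coefficient of low block
degrees at a small point, modulo a small prime. -/

namespace Pool.Agent.UO

open Polynomial Matrix Pool.Agent.Helper12_FV Pool.Agent.Helper12_CW

theorem isProgram_single {E : Type*} [CommRing E] (nv c : ℕ) (g : MvPolynomial ℕ E)
    (h1 : g.vars ⊆ Finset.range nv) (h2 : g.vars.card ≤ c) : IsProgram nv 1 1 c g := by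
  have hl : layerVars (Matrix.of fun _ _ => g : Matrix (Fin 1) (Fin 1) (MvPolynomial ℕ E)) =
      g.vars := by
    unfold layerVars
    simp
  refine ⟨1, fun _ => Matrix.of fun _ _ => g, fun _ => 1, fun _ => 1, ?_, ?_, ?_, ?_⟩
  · intro l
    rw [hl]
    exact h1
  · intro l
    rw [hl]
    exact h2
  · intro i
    exact (Finset.card_le_univ _).trans (by simp)
  · simp [dotProduct, Matrix.mulVec]

theorem seedLength_one (c : ℕ) : seedLength 1 1 c = c := by
  unfold seedLength
  simp

section low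

variable {c : ℕ}

theorem exists_low (n m k D b B w N M1 M2 v1 v2 ε Rb nv : ℕ) (hn : 1 ≤ n)
    (ι : ℕ → Fin c → ℕ) (hι : ∀ B < n, ∀ s, ι B s < nv)
    (hinj : ∀ B < n, Function.Injective (ι B))
    (f : ℕ → Fin m → MvPolynomial (Fin c) ℤ) (A : ℕ → Fin k → MvPolynomial (Fin c) ℤ)
    (e : ℕ → Fin k → Fin m → ℕ) (M : ℕ → Fin k → Matrix (Fin w) (Fin w) ℤ) (a z : Fin w → ℤ)
    (hprim : ∀ B j, ∀ t : ℤ, MvPolynomial.C t ∣ f B j → IsUnit t)
    (hfD : ∀ B j, (f B j).totalDegree ≤ D) (hAD : ∀ B i, (A B i).totalDegree ≤ D)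
    (hfl : ∀ B j, len (f B j) ≤ 2 ^ b) (hAl : ∀ B i, len (A B i) ≤ 2 ^ b)
    (he : ∀ B i j, e B i j ≤ 2 ^ b) (hM : ∀ B u i j, (M B u i j).natAbs ≤ 2 ^ b)
    (ha : ∀ i, (a i).natAbs ≤ 2 ^ b) (hz : ∀ i, (z i).natAbs ≤ 2 ^ b)
    (hB1 : k * (D + k * (m * D)) ≤ B)
    (hM1 : n * (m * D + m * D * (m * D) * (2 * D * D)) ≤ M1)
    (hv1 : 2 * 2 ^ (c + nv * (nv * (M1 + 1))) ≤ 2 ^ v1) (hε : b + v1 * D + 2 * D ≤ ε)
    (hM2 : n * (D + k * B * (m * D)) + n * (m * D) ≤ M2) (hM2' : 1 ≤ M2)
    (hv2 : 2 * M2 ≤ 2 ^ v2)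
    (hRb1 : B < Rb)
    (hRb2 : m * D + m * D * (m * D) * (2 * D * D) + (D + k * B * (m * D)) < Rb)
    (hN : B + k ≤ N)
    (hne : prog n a z (fun B u => A B u * ∏ j, f B j ^ e B u j) M ≠ 0) :
    ∃ p, p.Prime ∧ Rb < p ∧ p ≤ 64 * (Rb * Rb + LT n k w b (v2 * D) (1 + k * B * (m * D)) +
        n * LB k (m * D) D (m + D + b) ε B + 1) ^ 2 ∧
      ∃ (ww zz : Fin c → ℕ) (d : ℕ → Fin c →₀ ℕ), (∀ i, (d i).degree < N) ∧
        val n (fun i => ((a i : ℤ) : ZMod p)) (fun i => ((z i : ℤ) : ZMod p))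
          (fun B => ∑ u, (sh (fun s => point nv (fun j => ((ww j : ℕ) : ZMod p))
            (fun j => ((zz j : ℕ) : ZMod p)) (ι B s)) (A B u * ∏ j, f B j ^ e B u j)).coeff (d B) •
            (M B u).map (fun x : ℤ => (x : ZMod p))) ≠ 0 := by
  classical
  have hblock := fun B' => block m k D b B (f B') (A B') (e B') (hprim B') (hfD B') (hAD B')
    (hfl B') (hAl B') (he B') hB1
  choose κ Cf h P1 P2 hg hhdeg hhsize hP1 hP1deg hrest using hblock
  -- there is at least one term
  have hk : 0 < k := by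
    rcases Nat.eq_zero_or_pos k with rfl | hk
    · exfalso
      apply hne
      obtain ⟨n', rfl⟩ : ∃ n', n = n' + 1 := ⟨n - 1, by omega⟩
      unfold prog
      rw [val_succ']
      simp
    · exact hk
  have : Nonempty (Fin k) := ⟨⟨0, hk⟩⟩
  -- a nonzero reduced program
  obtain ⟨F, hFdef⟩ : ∃ F : (ℕ → Fin k) → MvPolynomial ℕ ℤ, ∀ q, F q =
      val n (fun i => MvPolynomial.C (a i)) (fun i => MvPolynomial.C (z i))
        (fun B' => ∑ u with κ B' u = q B', (ren B' (h B' u)) • (M B' u).map MvPolynomial.C) :=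
    ⟨fun q => _, fun q => rfl⟩
  obtain ⟨q, hq⟩ : ∃ q, F q ≠ 0 := by
    by_contra hcon
    push Not at hcon
    apply hne
    refine swap (X := fun _ => Unit) (Y := fun _ => Fin k)
      (fun B' _ => ∑ u, (ren B' (A B' u * ∏ j, f B' j ^ e B' u j)) • (M B' u).map MvPolynomial.C)
      (fun B' y => ∑ u with κ B' u = y, (ren B' (h B' u)) • (M B' u).map MvPolynomial.C) n ?_ _ _
      (fun q => by rw [← hFdef, hcon]) (fun _ => ())
    intro B' _ r s hy _
    rw [dot_sum, ← Finset.sum_fiberwise_of_maps_to (t := Finset.univ) (g := κ B')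
      (fun u _ => Finset.mem_univ _)]
    apply Finset.sum_eq_zero
    intro y _
    have h1 := hy y
    rw [dot_sum] at h1
    have h2 : ∀ u ∈ Finset.univ.filter (fun u => κ B' u = y),
        ren B' (A B' u * ∏ j, f B' j ^ e B' u j) * (r ⬝ᵥ ((M B' u).map MvPolynomial.C *ᵥ s)) =
        ren B' (Cf B' y) * (ren B' (h B' u) * (r ⬝ᵥ ((M B' u).map MvPolynomial.C *ᵥ s))) := by
      intro u hu
      rw [Finset.mem_filter] at hu
      rw [hg, hu.2, map_mul, mul_assoc]
    rw [Finset.sum_congr rfl h2, ← Finset.mul_sum, h1, mul_zero]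
  -- the evaluation point
  have hf0 : ∀ B' j, f B' j ≠ 0 := by
    intro B' j h0
    have := hprim B' j 0 (by rw [h0]; exact dvd_zero _)
    exact not_isUnit_zero this
  obtain ⟨x, hxM, hx⟩ := exists_pt (F q * ∏ B' ∈ Finset.range n, ∏ j, ren B' (f B' j))
    (mul_ne_zero hq (Finset.prod_ne_zero_iff.2 fun B' _ => Finset.prod_ne_zero_iff.2 fun j _ =>
      ren_ne_zero B' (hf0 B' j))) M2 (by
      refine le_trans ?_ hM2
      refine (MvPolynomial.totalDegree_mul _ _).trans (add_le_add ?_ ?_)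
      · rw [hFdef]
        refine (totalDegree_val_le (D + k * B * (m * D)) a _ n ?_ 0 _ ?_).trans (le_of_eq
          (add_zero _))
        · intro B' _ i j
          rw [Matrix.sum_apply]
          apply MvPolynomial.totalDegree_finsetSum_le
          intro u _
          rw [Matrix.smul_apply, Matrix.map_apply, smul_eq_mul]
          refine (MvPolynomial.totalDegree_mul _ _).trans ?_
          rw [MvPolynomial.totalDegree_C, add_zero]
          exact (MvPolynomial.totalDegree_rename_le _ _).trans (hhdeg B' u)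
        · intro i
          rw [MvPolynomial.totalDegree_C]
      · refine (MvPolynomial.totalDegree_finsetProd _ _).trans ?_
        refine (Finset.sum_le_sum (g := fun _ => m * D) fun B' _ => ?_).trans (by simp)
        refine (MvPolynomial.totalDegree_finsetProd _ _).trans ?_
        refine (Finset.sum_le_sum (g := fun _ => D) fun j _ => ?_).trans (by simp)
        exact (MvPolynomial.totalDegree_rename_le _ _).trans (hfD B' j))
  rw [map_mul] at hx
  obtain ⟨xb, hxb⟩ : ∃ xb : ℕ → Fin c → ℤ, ∀ B', xb B' = fun s : Fin c => x (B' * c + s) :=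
    ⟨_, fun _ => rfl⟩
  have hxf : ∀ B' < n, ∀ j, MvPolynomial.eval (xb B') (f B' j) ≠ 0 := by
    intro B' hB' j
    have h1 := right_ne_zero_of_mul hx
    rw [map_prod] at h1
    have h2 := Finset.prod_ne_zero_iff.1 h1 B' (Finset.mem_range.2 hB')
    rw [map_prod] at h2
    have h3 := Finset.prod_ne_zero_iff.1 h2 j (Finset.mem_univ j)
    rw [eval_ren] at h3
    rw [hxb]
    exact h3
  obtain ⟨T, hTdef⟩ : ∃ T : ℤ, T = MvPolynomial.eval x (F q) := ⟨_, rfl⟩
  have hT0 : T ≠ 0 := by
    rw [hTdef]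
    exact left_ne_zero_of_mul hx
  have hTval : T = val n a z (fun B' => ∑ u with κ B' u = q B',
      (MvPolynomial.eval (xb B') (h B' u)) • M B' u) := by
    rw [hTdef, hFdef, map_val]
    simp only [MvPolynomial.eval_C]
    apply val_congr
    intro B' _
    ext i j
    rw [Matrix.map_apply, Matrix.sum_apply, Matrix.sum_apply, map_sum]
    apply Finset.sum_congr rfl
    intro u _
    rw [Matrix.smul_apply, Matrix.smul_apply, Matrix.map_apply, smul_eq_mul, smul_eq_mul, map_mul,
      MvPolynomial.eval_C, eval_ren, hxb]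
  have hTle : T.natAbs ≤ 2 ^ LT n k w b (v2 * D) (1 + k * B * (m * D)) := by
    rw [hTval]
    refine (natAbs_val_le (k * (2 ^ ((b + v2 * D) * (1 + k * B * (m * D))) * 2 ^ b)) (2 ^ b) a ha _
      n ?_ (2 ^ b) z hz).trans ?_
    · intro B' hB' i j
      rw [Matrix.sum_apply]
      refine (natAbs_sum_le _ _).trans ?_
      refine (Finset.sum_le_sum (g := fun _ =>
        2 ^ ((b + v2 * D) * (1 + k * B * (m * D))) * 2 ^ b) fun u _ => ?_).trans ?_
      · rw [Matrix.smul_apply, smul_eq_mul, Int.natAbs_mul]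
        apply Nat.mul_le_mul _ (hM B' u i j)
        refine hhsize B' M2 v2 hM2' hv2 (xb B') (fun s => ?_) (hxf B' hB') u
        rw [hxb]
        exact hxM _
      · rw [Finset.sum_const, smul_eq_mul]
        apply Nat.mul_le_mul_right
        exact (Finset.card_le_univ _).trans (by rw [Fintype.card_fin])
    · unfold Helper12_CW.LT
      have e1 : w ≤ 2 ^ w := Nat.lt_two_pow_self.le
      have e2 : k ≤ 2 ^ k := Nat.lt_two_pow_self.le
      calc w * (2 ^ b * ((w * (k * (2 ^ ((b + v2 * D) * (1 + k * B * (m * D))) * 2 ^ b))) ^ n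
            * 2 ^ b))
          ≤ 2 ^ w * (2 ^ b * ((2 ^ w * (2 ^ k * (2 ^ ((b + v2 * D) * (1 + k * B * (m * D)))
            * 2 ^ b))) ^ n * 2 ^ b)) := by
            apply Nat.mul_le_mul e1
            apply Nat.mul_le_mul_left
            apply Nat.mul_le_mul_right
            apply Nat.pow_le_pow_left
            apply Nat.mul_le_mul e1
            exact Nat.mul_le_mul_right _ e2
        _ = 2 ^ (w + 2 * b + n * (w + (k + (b + v2 * D) * (1 + k * B * (m * D)) + b))) := by
            rw [← pow_add, ← pow_add, ← pow_add, ← pow_mul, ← pow_add, ← pow_add, ← pow_add]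
            congr 1
            ring
  -- the common direction and the points
  obtain ⟨MM, hMM⟩ : ∃ MM, MM = 2 ^ (c + nv * (nv * (M1 + 1))) := ⟨_, rfl⟩
  have hMM1 : 1 ≤ MM := by
    rw [hMM]
    exact Nat.one_le_pow _ _ (by norm_num)
  have hsmall : ∀ y : Fin c → ℤ, (∀ s, y s ∈ Finset.Icc (0 : ℤ) M1) →
      ∀ s, (y s).natAbs ≤ MM := by
    intro y hy s
    have h1 := Finset.mem_Icc.1 (hy s)
    have h2 := hι 0 (by omega) s
    have h3 : M1 ≤ c + nv * (nv * (M1 + 1)) := by
      have : 1 ≤ nv * nv := Nat.one_le_iff_ne_zero.mpr (by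
        have : nv ≠ 0 := by omega
        exact mul_ne_zero this this)
      calc M1 ≤ 1 * (M1 + 1) := by omega
        _ ≤ (nv * nv) * (M1 + 1) := Nat.mul_le_mul_right _ this
        _ = nv * (nv * (M1 + 1)) := by ring
        _ ≤ c + nv * (nv * (M1 + 1)) := Nat.le_add_left _ _
    have h4 : M1 ≤ MM := by
      rw [hMM]
      exact h3.trans Nat.lt_two_pow_self.le
    omega
  obtain ⟨β, hβS, hβ⟩ := Helper12_FV.exists_point (∏ B' ∈ Finset.range n, P1 B')
    (Finset.prod_ne_zero_iff.2 fun B' _ => hP1 B') (Finset.Icc (0 : ℤ) M1) (by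
      rw [Int.card_Icc]
      have h1 : (∏ B' ∈ Finset.range n, P1 B').totalDegree ≤ M1 := by
        refine le_trans ?_ hM1
        refine (MvPolynomial.totalDegree_finsetProd _ _).trans ?_
        refine (Finset.sum_le_sum (g := fun _ => m * D + m * D * (m * D) * (2 * D * D))
          fun B' _ => ?_).trans (by simp)
        exact (hP1deg B').trans (Nat.le_add_right _ _)
      omega)
  have hβ' : ∀ B' < n, MvPolynomial.eval β (P1 B') ≠ 0 := by
    rw [map_prod] at hβ
    intro B' hB'
    exact Finset.prod_ne_zero_iff.1 hβ B' (Finset.mem_range.2 hB')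
  have hprodmap : ((List.range n).map fun B' => MvPolynomial.map (Int.castRingHom ℚ)
      (MvPolynomial.rename (ι B') (P2 B' β))).prod = MvPolynomial.map (Int.castRingHom ℚ)
      (∏ B' ∈ Finset.range n, MvPolynomial.rename (ι B') (P2 B' β)) := by
    rw [map_prod]
    symm
    show Multiset.prod (Multiset.map _ (Multiset.range n)) = _
    rw [← Multiset.coe_range, Multiset.map_coe, Multiset.prod_coe]
  obtain ⟨ww, zz, hww, hzz, hα⟩ := int_hit (E := ℚ) nv 1 1 c M1 c (seedLength_one c).le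
    (∏ B' ∈ Finset.range n, MvPolynomial.rename (ι B') (P2 B' β)) (by
      refine le_trans ?_ hM1
      refine (MvPolynomial.totalDegree_finsetProd _ _).trans ?_
      refine (Finset.sum_le_sum (g := fun _ => m * D + m * D * (m * D) * (2 * D * D))
        fun B' hB' => ?_).trans (by simp)
      exact (MvPolynomial.totalDegree_rename_le _ _).trans
        (hrest B' β (hβ' B' (Finset.mem_range.1 hB'))).2.1)
    ((List.range n).map fun B' => MvPolynomial.map (Int.castRingHom ℚ)
      (MvPolynomial.rename (ι B') (P2 B' β))) (by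
      intro g hg
      rw [List.mem_map] at hg
      obtain ⟨B', hB', rfl⟩ := hg
      rw [List.mem_range] at hB'
      have h1 : (MvPolynomial.map (Int.castRingHom ℚ)
          (MvPolynomial.rename (ι B') (P2 B' β))).vars ⊆ Finset.univ.image (ι B') := by
        refine (MvPolynomial.vars_map _ _).trans ?_
        refine (MvPolynomial.vars_rename _ _).trans ?_
        exact Finset.image_subset_image (Finset.subset_univ _)
      apply isProgram_single
      · intro i hi
        have := h1 hi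
        rw [Finset.mem_image] at this
        obtain ⟨s, _, rfl⟩ := this
        rw [Finset.mem_range]
        exact hι B' hB' s
      · exact (Finset.card_le_card h1).trans (Finset.card_image_le.trans (by simp))) (by
      rw [hprodmap]
      intro h0
      have h1 := (map_eq_zero_iff _ (MvPolynomial.map_injective (Int.castRingHom ℚ)
        (Int.cast_injective))).mp h0
      rw [Finset.prod_eq_zero_iff] at h1
      obtain ⟨B', hB', h2⟩ := h1
      have h3 := (MvPolynomial.rename_injective (ι B') (hinj B' (Finset.mem_range.1 hB')))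
        (h2.trans (map_zero _).symm)
      exact (hrest B' β (hβ' B' (Finset.mem_range.1 hB'))).1 h3) (by
      rw [hprodmap])
  have hαB : ∀ B' < n, MvPolynomial.eval (fun s => point nv (fun j => (ww j : ℤ))
      (fun j => (zz j : ℤ)) (ι B' s)) (P2 B' β) ≠ 0 := by
    intro B' hB'
    rw [map_prod] at hα
    have h1 := Finset.prod_ne_zero_iff.1 hα B' (Finset.mem_range.2 hB')
    rw [MvPolynomial.eval_rename] at h1
    exact h1
  obtain ⟨α, hαdef⟩ : ∃ α : ℕ → Fin c → ℤ, ∀ B', α B' = fun s => point nv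
      (fun j => (ww j : ℤ)) (fun j => (zz j : ℤ)) (ι B' s) := ⟨_, fun _ => rfl⟩
  have hα' : ∀ B' < n, MvPolynomial.eval (α B') (P2 B' β) ≠ 0 := by
    intro B' hB'
    rw [hαdef]
    exact hαB B' hB'
  have hαsmall : ∀ B' s, (α B' s).natAbs ≤ MM := by
    intro B' s
    rw [hαdef, hMM]
    exact natAbs_point_le nv M1 c ww zz hww hzz _
  have hbads : ∀ B' : Fin n, _ := fun B' => (hrest B' β (hβ' B' B'.2)).2.2 (α B')
    (hα' B' B'.2) MM v1 ε hMM1 (by rw [hMM]; exact hv1) hε (hαsmall B') (hsmall β hβS)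
  choose bad hbad0 hbadle hbad using hbads
  -- the prime
  set NB : ℕ := Rb.factorial * T.natAbs * ∏ B', bad B' with hNB
  have hNBne : NB ≠ 0 := by
    rw [hNB]
    exact mul_ne_zero (mul_ne_zero (Nat.factorial_ne_zero _) (Int.natAbs_ne_zero.2 hT0))
      (Finset.prod_ne_zero_iff.2 fun B' _ => hbad0 B')
  have hNBle : NB ≤ 2 ^ (Rb * Rb + LT n k w b (v2 * D) (1 + k * B * (m * D)) +
      n * LB k (m * D) D (m + D + b) ε B) := by
    rw [hNB, pow_add, pow_add]
    apply Nat.mul_le_mul (Nat.mul_le_mul ?_ hTle)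
    · calc ∏ B', bad B' ≤ ∏ _B' : Fin n, 2 ^ LB k (m * D) D (m + D + b) ε B :=
            Finset.prod_le_prod' fun B' _ => hbadle B'
        _ = 2 ^ (n * LB k (m * D) D (m + D + b) ε B) := by
            rw [Finset.prod_const, Finset.card_univ, Fintype.card_fin, ← pow_mul, mul_comm]
    · calc Rb.factorial ≤ Rb ^ Rb := Nat.factorial_le_pow Rb
        _ ≤ (2 ^ Rb) ^ Rb := Nat.pow_le_pow_left Nat.lt_two_pow_self.le _
        _ = 2 ^ (Rb * Rb) := by rw [← pow_mul]
  obtain ⟨p, hp, hple, hpnd⟩ := Helper78_ACIT.exists_prime_not_dvd NB _ hNBne hNBle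
  have : Fact p.Prime := ⟨hp⟩
  have hRp : Rb < p := by
    by_contra hcon
    push Not at hcon
    apply hpnd
    rw [hNB, mul_assoc]
    exact (hp.dvd_factorial.2 hcon).mul_right _
  have hTp : ((T : ℤ) : ZMod p) ≠ 0 := by
    intro h0
    rw [ZMod.intCast_zmod_eq_zero_iff_dvd, Int.natCast_dvd] at h0
    apply hpnd
    rw [hNB]
    exact ((h0.mul_left _)).mul_right _
  have hbadp : ∀ B', ¬ p ∣ bad B' := by
    intro B' h0
    apply hpnd
    rw [hNB]
    exact (h0.trans (Finset.dvd_prod_of_mem bad (Finset.mem_univ B'))).mul_left _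
  refine ⟨p, hp, hRp, hple, ww, zz, ?_⟩
  have hαp : ∀ B', (fun s => ((α B' s : ℤ) : ZMod p)) = fun s => point nv
      (fun j => ((ww j : ℕ) : ZMod p)) (fun j => ((zz j : ℕ) : ZMod p)) (ι B' s) := by
    intro B'
    funext s
    have h1 := point_map (Int.castRingHom (ZMod p)) nv (fun j => (ww j : ℤ))
      (fun j => (zz j : ℤ)) (ι B' s)
    rw [hαdef]
    simpa using h1
  by_contra hcon
  push Not at hcon
  -- low coefficients vanish
  obtain ⟨G, hG⟩ : ∃ G : ℕ → Fin k → MvPolynomial (Fin c) (ZMod p), ∀ B' u, G B' u =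
      sh (fun s => ((α B' s : ℤ) : ZMod p)) (A B' u * ∏ j, f B' j ^ e B' u j) :=
    ⟨fun B' u => _, fun B' u => rfl⟩
  obtain ⟨M', hM'⟩ : ∃ M' : ℕ → Fin k → Matrix (Fin w) (Fin w) (ZMod p), ∀ B' u, M' B' u =
      (M B' u).map (fun x : ℤ => (x : ZMod p)) := ⟨fun B' u => _, fun B' u => rfl⟩
  have hlow : ∀ d : ℕ → Fin c →₀ ℕ, (∀ i, (d i).degree < N) →
      val n (fun i => ((a i : ℤ) : ZMod p)) (fun i => ((z i : ℤ) : ZMod p))
        (fun i => ∑ u, (G i u).coeff (d i) • M' i u) = 0 := by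
    intro d hd
    rw [← hcon d hd]
    apply val_congr
    intro B' _
    refine Finset.sum_congr rfl fun u _ => ?_
    rw [hG, hM', hαp]
  have hN0 : 0 < N := by omega
  have hY : Nonempty {d : Fin c →₀ ℕ // d.degree < N} := ⟨⟨0, by simpa using hN0⟩⟩
  have key := @swap (ZMod p) _ w (fun _ => Unit) (fun _ => {d : Fin c →₀ ℕ // d.degree < N})
    (fun _ => hY)
    (fun B' _ => ∑ u with κ B' u = q B', ((MvPolynomial.eval (xb B') (h B' u) : ℤ) : ZMod p) •
      (M B' u).map (fun x : ℤ => (x : ZMod p)))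
    (fun B' d => ∑ u, (G B' u).coeff (d : Fin c →₀ ℕ) • M' B' u) n ?_
    (fun i => ((a i : ℤ) : ZMod p)) (fun i => ((z i : ℤ) : ZMod p)) ?_ (fun _ => ())
  · apply hTp
    rw [hTval]
    have h1 := map_val (Int.castRingHom (ZMod p)) n a z (fun B' => ∑ u with κ B' u = q B',
      (MvPolynomial.eval (xb B') (h B' u)) • M B' u)
    rw [eq_intCast] at h1
    rw [h1, ← key]
    simp only [eq_intCast]
    apply val_congr
    intro B' _
    ext i j
    rw [Matrix.map_apply, Matrix.sum_apply, Matrix.sum_apply, map_sum]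
    apply Finset.sum_congr rfl
    intro u _
    rw [Matrix.smul_apply, Matrix.smul_apply, Matrix.map_apply, smul_eq_mul, smul_eq_mul, map_mul,
      eq_intCast, eq_intCast]
  · intro B' hB' r s hy _
    have h1 := hbad ⟨B', hB'⟩ p (hbadp _) (lt_trans hRb1 hRp) (lt_trans hRb2 hRp) N hN
      (fun u => r ⬝ᵥ (M' B' u *ᵥ s)) (by
        intro d hd
        have h2 := hy ⟨d, hd⟩
        rw [dot_sum] at h2
        refine Eq.trans ?_ h2
        apply Finset.sum_congr rfl
        intro u _
        rw [hG, mul_comm]) (q B')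
    have h2 := congrArg (MvPolynomial.eval (fun s => ((xb B' s : ℤ) : ZMod p) -
      ((α B' s : ℤ) : ZMod p))) h1
    rw [map_sum, map_zero] at h2
    rw [dot_sum]
    refine Eq.trans ?_ h2
    apply Finset.sum_congr rfl
    intro u _
    rw [map_mul, MvPolynomial.eval_C, eval_sh, eval₂_cast, hM', mul_comm]
  · intro d
    exact hlow (fun i => (d i : Fin c →₀ ℕ)) (fun i => (d i).2)

end low

end Pool.Agent.UO
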