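import Mathlib
import Pool.Agent.Helper12_UO.Init
import Pool.Agent.Helper12_UO.Low

/-! Hitting of programs of exponential degree in unknown blocks. -/

namespace Pool.Agent.UO

open Polynomial Matrix Pool.Agent.Helper12_CW

/-- Coefficients of a product of layers in disjoint sets of variables. -/
theorem coeff_val {K : Type} [Field K] {w : ℕ} (a : Fin w → K) (V : ℕ → Finset ℕ)
    (T : ℕ → Matrix (Fin w) (Fin w) (MvPolynomial ℕ K)) (d : ℕ → (ℕ →₀ ℕ)) :
    ∀ n : ℕ, (∀ i < n, ∀ u v, (T i u v).vars ⊆ V i) → (∀ i < n, (d i).support ⊆ V i) →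
    (∀ i < n, ∀ j < n, i ≠ j → Disjoint (V i) (V j)) →
    ∀ (z : Fin w → MvPolynomial ℕ K) (W : Finset ℕ) (y : ℕ →₀ ℕ),
    (∀ u, (z u).vars ⊆ W) → (∀ i < n, Disjoint (V i) W) → y.support ⊆ W →
    MvPolynomial.coeff (∑ i ∈ Finset.range n, d i + y)
      (val n (fun i => MvPolynomial.C (a i)) z T) =
      val n a (fun u => MvPolynomial.coeff y (z u))
        (fun i => (T i).map (MvPolynomial.coeff (d i))) := by
  classical
  intro n
  induction n with
  | zero =>
    intro _ _ _ z W y _ _ _
    rw [val_zero, val_zero, Finset.range_zero, Finset.sum_empty, zero_add]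
    unfold dotProduct
    rw [MvPolynomial.coeff_sum]
    exact Finset.sum_congr rfl fun i _ => MvPolynomial.coeff_C_mul _ _ _
  | succ n ih =>
    intro hT hd hdis z W y hz hW hy
    rw [val_succ, val_succ]
    have h1 := ih (fun i hi => hT i (Nat.lt_succ_of_lt hi))
      (fun i hi => hd i (Nat.lt_succ_of_lt hi))
      (fun i hi j hj => hdis i (Nat.lt_succ_of_lt hi) j (Nat.lt_succ_of_lt hj))
      (T n *ᵥ z) (V n ∪ W) (d n + y) (by
        intro u
        have : (T n *ᵥ z) u = ∑ v, T n u v * z v := rfl
        rw [this]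
        refine vars_sum_subset' _ _ _ fun v _ => vars_mul_subset' ?_ ?_
        · exact (hT n (Nat.lt_succ_self n) u v).trans Finset.subset_union_left
        · exact (hz v).trans Finset.subset_union_right) (by
        intro i hi
        rw [Finset.disjoint_union_right]
        exact ⟨hdis i (Nat.lt_succ_of_lt hi) n (Nat.lt_succ_self n) hi.ne,
          hW i (Nat.lt_succ_of_lt hi)⟩) (by
        refine Finsupp.support_add.trans (Finset.union_subset_union ?_ hy)
        exact hd n (Nat.lt_succ_self n))
    rw [Finset.sum_range_succ, add_assoc, h1]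
    congr 1
    funext u
    have : (T n *ᵥ z) u = ∑ v, T n u v * z v := rfl
    rw [this, MvPolynomial.coeff_sum]
    show _ = ∑ v, MvPolynomial.coeff (d n) (T n u v) * MvPolynomial.coeff y (z v)
    refine Finset.sum_congr rfl fun v _ => ?_
    rw [coeff_mul_disjoint (V := V n) (hT n (Nat.lt_succ_self n) u v) (fun i hi hi' =>
      Finset.disjoint_left.mp (hW n (Nat.lt_succ_self n)) hi' (hz v hi)) _ _
      (hd n (Nat.lt_succ_self n)) (fun i hi hi' =>
      Finset.disjoint_left.mp (hW n (Nat.lt_succ_self n)) hi' (hy hi))]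

theorem IsProgram.map {R S : Type*} [CommRing R] [CommRing S] (φ : R →+* S) {n r k q : ℕ}
    {f : MvPolynomial ℕ R} (hf : IsProgram n r k q f) :
    IsProgram n r k q (MvPolynomial.map φ f) := by
  classical
  obtain ⟨m, M, u, v, h1, h2, h3, rfl⟩ := hf
  have hsub : ∀ l, layerVars ((M l).map (MvPolynomial.map φ)) ⊆ layerVars (M l) := by
    intro l i hi
    unfold layerVars at hi ⊢
    simp only [Finset.mem_biUnion, Finset.mem_univ, true_and, Matrix.map_apply] at hi ⊢
    obtain ⟨a, b, hi⟩ := hi
    exact ⟨a, b, MvPolynomial.vars_map _ _ hi⟩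
  refine ⟨m, fun l => (M l).map (MvPolynomial.map φ), fun a => φ (u a), fun a => φ (v a),
    fun l => (hsub l).trans (h1 l), fun l => (Finset.card_le_card (hsub l)).trans (h2 l),
    fun i => le_trans (Finset.card_le_card fun l hl => ?_) (h3 i), ?_⟩
  · rw [Finset.mem_filter] at hl ⊢
    exact ⟨hl.1, hsub l hl.2⟩
  · have h4 : (List.ofFn fun l => (M l).map (MvPolynomial.map φ)).prod =
        (MvPolynomial.map φ).mapMatrix (List.ofFn M).prod := by
      rw [map_list_prod, List.map_ofFn]
      rfl
    rw [h4]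
    simp only [dotProduct, Matrix.mulVec, map_sum, map_mul, MvPolynomial.map_C,
      RingHom.mapMatrix_apply, Matrix.map_apply]

theorem totalDegree_inn_le {K : Type*} [Field K] (P : MvPolynomial ℕ K) :
    (inn P).totalDegree ≤ ordN P := by
  apply Finset.sup_le
  intro d hd
  rw [MvPolynomial.mem_support_iff, coeff_inn] at hd
  split_ifs at hd with h
  · exact h.le
  · exact absurd rfl hd

/-- Nonvanishing over an extension gives a point over `ZMod p` for large `p`. -/
theorem zmod_hit (p : ℕ) [Fact p.Prime] {K : Type*} [Field K] [Algebra (ZMod p) K] (n D t : ℕ)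
    (hp : n * D < p) (P : MvPolynomial ℕ (ZMod p)) (hD : P.totalDegree ≤ D) (w0 z0 : Fin t → K)
    (h1 : MvPolynomial.eval (point n w0 z0) (MvPolynomial.map (algebraMap (ZMod p) K) P) ≠ 0) :
    ∃ w z : Fin t → ZMod p, MvPolynomial.eval (point n w z) P ≠ 0 := by
  classical
  obtain ⟨H, hH⟩ : ∃ H : MvPolynomial (Fin t ⊕ Fin t) (ZMod p), H = MvPolynomial.aeval
    (point n (fun j => (MvPolynomial.X (Sum.inl j) : MvPolynomial (Fin t ⊕ Fin t) (ZMod p)))
      (fun j => MvPolynomial.X (Sum.inr j))) P := ⟨_, rfl⟩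
  have heval : ∀ x : (Fin t ⊕ Fin t) → ZMod p, MvPolynomial.eval x H =
      MvPolynomial.eval (point n (fun j => x (Sum.inl j)) (fun j => x (Sum.inr j))) P := by
    intro x
    rw [hH]
    have h3 : (MvPolynomial.eval x).comp (MvPolynomial.aeval (R := ZMod p)
        (point n (fun j => (MvPolynomial.X (Sum.inl j) : MvPolynomial (Fin t ⊕ Fin t) (ZMod p)))
        (fun j => MvPolynomial.X (Sum.inr j)))).toRingHom =
        MvPolynomial.eval (point n (fun j => x (Sum.inl j)) (fun j => x (Sum.inr j))) := by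
      apply MvPolynomial.ringHom_ext
      · intro a
        simp
      · intro i
        simp only [AlgHom.toRingHom_eq_coe, RingHom.coe_comp, RingHom.coe_coe,
          Function.comp_apply, MvPolynomial.aeval_X, MvPolynomial.eval_X]
        rw [point_map (MvPolynomial.eval x)]
        simp only [MvPolynomial.eval_X]
    exact RingHom.congr_fun h3 P
  have hHne : H ≠ 0 := by
    intro hH0
    apply h1
    have h3 : (MvPolynomial.eval (point n w0 z0)).comp (MvPolynomial.map (algebraMap (ZMod p) K)) =
        (MvPolynomial.eval₂Hom (algebraMap (ZMod p) K) (Sum.elim w0 z0)).comp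
        (MvPolynomial.aeval (R := ZMod p)
        (point n (fun j => (MvPolynomial.X (Sum.inl j) : MvPolynomial (Fin t ⊕ Fin t) (ZMod p)))
        (fun j => MvPolynomial.X (Sum.inr j)))).toRingHom := by
      apply MvPolynomial.ringHom_ext
      · intro a
        simp
      · intro i
        simp only [AlgHom.toRingHom_eq_coe, RingHom.coe_comp, RingHom.coe_coe,
          Function.comp_apply, MvPolynomial.aeval_X, MvPolynomial.map_X, MvPolynomial.eval_X]
        rw [point_map (MvPolynomial.eval₂Hom (algebraMap (ZMod p) K) (Sum.elim w0 z0))]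
        simp only [MvPolynomial.coe_eval₂Hom, MvPolynomial.eval₂_X, Sum.elim_inl, Sum.elim_inr]
    have h4 := RingHom.congr_fun h3 P
    simp only [AlgHom.toRingHom_eq_coe, RingHom.coe_comp, RingHom.coe_coe,
      Function.comp_apply] at h4
    rw [h4, ← hH, hH0, map_zero]
  by_contra hcon
  push Not at hcon
  apply hHne
  apply MvPolynomial.eq_zero_of_eval_zero_at_prod_finset H (fun _ => Finset.univ)
  · intro i
    rw [Finset.card_univ, ZMod.card, hH]
    exact lt_of_le_of_lt (degreeOf_aeval_le _ P n D i (fun j => degreeOf_point t n j i) hD) hp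
  · intro x _
    rw [heval]
    exact hcon _ _

/-- Homogeneous components along a line through the origin. -/
theorem coeff_line {R : Type*} [CommRing R] (y : ℕ → R) (P : MvPolynomial ℕ R) (e : ℕ) :
    (MvPolynomial.eval₂Hom (C : R →+* R[X]) (fun i => X * C (y i)) P).coeff e =
      MvPolynomial.eval y (MvPolynomial.homogeneousComponent e P) := by
  classical
  induction P using MvPolynomial.induction_on' with
  | monomial d a =>
    have h1 : MvPolynomial.eval₂Hom (C : R →+* R[X]) (fun i => X * C (y i))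
        (MvPolynomial.monomial d a) = X ^ d.degree * C (a * ∏ i ∈ d.support, y i ^ d i) := by
      rw [MvPolynomial.coe_eval₂Hom, MvPolynomial.eval₂_monomial]
      have h2 : (d.prod fun i k => (X * C (y i) : R[X]) ^ k) =
          X ^ d.degree * C (∏ i ∈ d.support, y i ^ d i) := by
        unfold Finsupp.prod
        simp only [mul_pow, Finset.prod_mul_distrib, Finset.prod_pow_eq_pow_sum, map_prod, map_pow]
        rfl
      rw [h2, map_mul]
      ring
    rw [h1, coeff_X_pow_mul', MvPolynomial.homogeneousComponent_apply]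
    by_cases hd : d.degree = e
    · subst hd
      rw [if_pos le_rfl, Nat.sub_self, coeff_C_zero]
      by_cases ha : a = 0
      · subst ha
        simp
      · have hs : (MvPolynomial.monomial d a).support = {d} := by
          rw [MvPolynomial.support_monomial, if_neg ha]
        rw [hs, Finset.filter_singleton, if_pos rfl, Finset.sum_singleton,
          MvPolynomial.coeff_monomial, if_pos rfl, MvPolynomial.eval_monomial]
        rfl
    · have h3 : ∑ x ∈ (MvPolynomial.monomial d a).support with x.degree = e,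
          MvPolynomial.monomial x (MvPolynomial.coeff x (MvPolynomial.monomial d a)) = 0 := by
        apply Finset.sum_eq_zero
        intro x hx
        rw [Finset.mem_filter] at hx
        rw [MvPolynomial.coeff_monomial, if_neg, map_zero]
        rintro rfl
        exact hd hx.2
      rw [h3, map_zero]
      split_ifs with h4
      · rw [coeff_C, if_neg (by omega)]
      · rfl
  | add p q hp hq =>
    rw [map_add, coeff_add, hp, hq, map_add, map_add]

section main

variable {c : ℕ}

/-- The substitution `x_i = α_i + X y_i`. -/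
noncomputable def onPoint (p : ℕ) (α y : ℕ → ZMod p) : MvPolynomial ℕ ℤ →+* (ZMod p)[X] :=
  MvPolynomial.eval₂Hom (Int.castRingHom (ZMod p)[X]) (fun i => C (α i) + X * C (y i))

/-- The layer `B` shifted to the point `α`. -/
noncomputable def layer {k w : ℕ} (p : ℕ) (α : ℕ → ZMod p) (ι : Fin c → ℕ)
    (g : Fin k → MvPolynomial (Fin c) ℤ) (M : Fin k → Matrix (Fin w) (Fin w) ℤ) :
    Matrix (Fin w) (Fin w) (MvPolynomial ℕ (ZMod p)) :=
  ∑ u, MvPolynomial.rename ι (sh (fun s => α (ι s)) (g u)) •
    (M u).map (fun x : ℤ => MvPolynomial.C (x : ZMod p))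

theorem onPoint_rename (p : ℕ) (α y : ℕ → ZMod p) (ι : Fin c → ℕ) (g : MvPolynomial (Fin c) ℤ) :
    onPoint p α y (MvPolynomial.rename ι g) =
      MvPolynomial.eval₂Hom (C : ZMod p →+* (ZMod p)[X]) (fun i => X * C (y i))
        (MvPolynomial.rename ι (sh (fun s => α (ι s)) g)) := by
  have h : (onPoint p α y).comp (MvPolynomial.rename (R := ℤ) ι).toRingHom =
      (MvPolynomial.eval₂Hom (C : ZMod p →+* (ZMod p)[X]) (fun i => X * C (y i))).comp
        ((MvPolynomial.rename (R := ZMod p) ι).toRingHom.comp (sh (fun s => α (ι s)))) := by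
    apply MvPolynomial.ringHom_ext
    · intro t
      simp [onPoint]
    · intro s
      simp [onPoint, sh]
  exact RingHom.congr_fun h g

theorem layer_apply {k w : ℕ} (p : ℕ) (α : ℕ → ZMod p) (ι : Fin c → ℕ)
    (g : Fin k → MvPolynomial (Fin c) ℤ) (M : Fin k → Matrix (Fin w) (Fin w) ℤ) (i j : Fin w) :
    layer p α ι g M i j = ∑ u, MvPolynomial.rename ι (sh (fun s => α (ι s)) (g u)) *
      MvPolynomial.C ((M u i j : ℤ) : ZMod p) := by
  unfold layer
  rw [Matrix.sum_apply]
  rfl

theorem layer_vars {k w : ℕ} (p : ℕ) (α : ℕ → ZMod p) (ι : Fin c → ℕ)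
    (g : Fin k → MvPolynomial (Fin c) ℤ) (M : Fin k → Matrix (Fin w) (Fin w) ℤ) (i j : Fin w)
    [Fact p.Prime] :
    (layer p α ι g M i j).vars ⊆ Finset.univ.image ι := by
  classical
  rw [layer_apply]
  refine vars_sum_subset' _ _ _ fun u _ => vars_mul_subset' ?_ ?_
  · exact (MvPolynomial.vars_rename _ _).trans (Finset.image_subset_image (Finset.subset_univ _))
  · rw [MvPolynomial.vars_C]
    exact Finset.empty_subset _

/-- The program in unknown blocks. -/
noncomputable def progU {k w : ℕ} (n : ℕ) (ι : ℕ → Fin c → ℕ) (a z : Fin w → ℤ)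
    (g : ℕ → Fin k → MvPolynomial (Fin c) ℤ) (M : ℕ → Fin k → Matrix (Fin w) (Fin w) ℤ) :
    MvPolynomial ℕ ℤ :=
  val n (fun i => MvPolynomial.C (a i)) (fun i => MvPolynomial.C (z i))
    (fun B => ∑ u, MvPolynomial.rename (ι B) (g B u) • (M B u).map MvPolynomial.C)

theorem onPoint_progU {k w : ℕ} (p n : ℕ) (α y : ℕ → ZMod p) (ι : ℕ → Fin c → ℕ)
    (a z : Fin w → ℤ) (g : ℕ → Fin k → MvPolynomial (Fin c) ℤ)
    (M : ℕ → Fin k → Matrix (Fin w) (Fin w) ℤ) :
    onPoint p α y (progU n ι a z g M) =
      MvPolynomial.eval₂Hom (C : ZMod p →+* (ZMod p)[X]) (fun i => X * C (y i))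
        (val n (fun i => MvPolynomial.C ((a i : ℤ) : ZMod p))
          (fun i => MvPolynomial.C ((z i : ℤ) : ZMod p))
          (fun B => layer p α (ι B) (g B) (M B))) := by
  have hC : ∀ t : ℤ, onPoint p α y (MvPolynomial.C t) = C ((t : ℤ) : ZMod p) := by
    intro t
    simp [onPoint]
  have hC' : ∀ t : ZMod p, MvPolynomial.eval₂Hom (C : ZMod p →+* (ZMod p)[X])
      (fun i => X * C (y i)) (MvPolynomial.C t) = C t := by
    intro t
    simp
  unfold progU
  rw [map_val, map_val]
  simp only [hC, hC']
  apply val_congr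
  intro B _
  ext1 i j
  rw [Matrix.map_apply, Matrix.map_apply, Matrix.sum_apply, layer_apply, map_sum, map_sum]
  apply Finset.sum_congr rfl
  intro u _
  rw [Matrix.smul_apply, Matrix.map_apply, smul_eq_mul, map_mul, map_mul, onPoint_rename, hC, hC']

/-- Reordering the variables. -/
theorem progU_ne_zero {k w : ℕ} (n : ℕ) (ι : ℕ → Fin c → ℕ) (a z : Fin w → ℤ)
    (g : ℕ → Fin k → MvPolynomial (Fin c) ℤ) (M : ℕ → Fin k → Matrix (Fin w) (Fin w) ℤ)
    (h : progU n ι a z g M ≠ 0) : prog n a z g M ≠ 0 := by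
  intro h0
  apply h
  obtain ⟨τ, hτ⟩ : ∃ τ : ℕ → ℕ, ∀ (B : ℕ) (s : Fin c), τ (B * c + s) = ι B s := by
    refine ⟨fun i => if hi : i % c < c then ι (i / c) ⟨i % c, hi⟩ else 0, ?_⟩
    intro B s
    have hs : (s : ℕ) < c := s.2
    have e1 : (B * c + s) % c = s := by
      rw [Nat.add_comm, Nat.add_mul_mod_self_right, Nat.mod_eq_of_lt hs]
    have e2 : (B * c + s) / c = B := by
      rw [Nat.add_comm, Nat.add_mul_div_right _ _ (lt_of_le_of_lt (Nat.zero_le _) hs),
        Nat.div_eq_of_lt hs, zero_add]
    have e3 : (B * c + s) % c < c := by rw [e1]; exact hs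
    show (if hi : (B * c + s) % c < c then ι ((B * c + s) / c) ⟨(B * c + s) % c, hi⟩ else 0) = _
    rw [dif_pos e3]
    have e4 : (⟨(B * c + s) % c, e3⟩ : Fin c) = s := Fin.ext e1
    rw [e4, e2]
  have h1 := congrArg (MvPolynomial.rename τ).toRingHom h0
  rw [map_zero] at h1
  rw [← h1]
  unfold prog progU
  rw [map_val]
  have hC : ∀ t : ℤ, (MvPolynomial.rename (R := ℤ) τ).toRingHom (MvPolynomial.C t) =
      MvPolynomial.C t := fun t => MvPolynomial.rename_C τ t
  simp only [hC]
  apply val_congr
  intro B _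
  ext1 i j
  rw [Matrix.map_apply, Matrix.sum_apply, Matrix.sum_apply, map_sum]
  apply Finset.sum_congr rfl
  intro u _
  rw [Matrix.smul_apply, Matrix.smul_apply, Matrix.map_apply, smul_eq_mul, smul_eq_mul, map_mul, hC,
    ren_apply]
  congr 1
  show _ = MvPolynomial.rename τ (MvPolynomial.rename (fun s : Fin c => B * c + s) (g B u))
  rw [MvPolynomial.rename_rename]
  congr 1
  congr 1
  funext s
  exact (hτ B s).symm

end main

end Pool.Agent.UO
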