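import Pool.Agent.Helper12_CW.Bound

set_option autoImplicit false

/-!
Explicit bounds for programs in unknown blocks.
-/

namespace Pool.Agent.UO

open Pool.Agent.Helper12_FV Pool.Agent.Helper12_CW

lemma bound_le' (nv n m k b c D w N Q : ℕ) (hQ : Q = nv + n + m + k + w + b + D + N + 2)
    (hc : c ≤ nv) (Rb : ℕ)
    (hRb : Rb = nv * (n * N) + (k * (D + k * (m * D)) + (m * D + m * D * (m * D) * (2 * D * D) +
      (D + k * (k * (D + k * (m * D))) * (m * D)))) + 1) :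
    n * (m * D + m * D * (m * D) * (2 * D * D)) ≤ Q ^ 9 ∧
    2 * 2 ^ (c + nv * (nv * (Q ^ 9 + 1))) ≤ 2 ^ (Q ^ 13) ∧ b + Q ^ 13 * D + 2 * D ≤ Q ^ 16 ∧
    n * (D + k * (k * (D + k * (m * D))) * (m * D)) + n * (m * D) ≤ Q ^ 11 ∧
    2 * Q ^ 11 ≤ 2 ^ (12 * Q) ∧
    64 * (Rb * Rb + Helper12_CW.LT n k w b (12 * Q * D) (1 + k * (k * (D + k * (m * D))) * (m * D)) +
        n * LB k (m * D) D (m + D + b) (Q ^ 16) (k * (D + k * (m * D))) + 1) ^ 2 ≤ Q ^ 64 := by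
  have hQ2 : 2 ≤ Q := by omega
  have e1 : ∀ {x : ℕ}, x ≤ Q → x ≤ Q ^ 1 := fun h => by rwa [pow_one]
  have hnv : nv ≤ Q ^ 1 := e1 (by omega)
  have hn : n ≤ Q ^ 1 := e1 (by omega)
  have hm : m ≤ Q ^ 1 := e1 (by omega)
  have hk : k ≤ Q ^ 1 := e1 (by omega)
  have hw : w ≤ Q ^ 1 := e1 (by omega)
  have hb : b ≤ Q ^ 1 := e1 (by omega)
  have hD : D ≤ Q ^ 1 := e1 (by omega)
  have hN : N ≤ Q ^ 1 := e1 (by omega)
  have hQ1 : Q ≤ Q ^ 1 := e1 le_rfl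
  have h2 : 2 ≤ Q ^ 1 := e1 hQ2
  have h1 : 1 ≤ Q ^ 1 := e1 (by omega)
  have hT : m * D ≤ Q ^ 2 := mulb hm hD
  have hB : k * (D + k * (m * D)) ≤ Q ^ 5 :=
    mulb hk (addb hQ2 (upb 3 hQ2 hD (by norm_num)) (mulb hk hT))
  obtain ⟨T, hTe⟩ : ∃ T, T = m * D := ⟨_, rfl⟩
  rw [← hTe] at hT hB hRb ⊢
  obtain ⟨B, hBe⟩ : ∃ B, B = k * (D + k * T) := ⟨_, rfl⟩
  rw [← hBe] at hB hRb ⊢
  have h3 : T * T * (2 * D * D) ≤ Q ^ 7 := mulb (mulb hT hT) (mulb (mulb h2 hD) hD)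
  have h4 : k * B * T ≤ Q ^ 8 := mulb (mulb hk hB) hT
  have h5 : D + k * B * T ≤ Q ^ 9 := addb hQ2 (upb 8 hQ2 hD (by norm_num)) h4
  have h6 : T + T * T * (2 * D * D) ≤ Q ^ 8 := addb hQ2 (upb 7 hQ2 hT (by norm_num)) h3
  have h16 : 16 ≤ Q ^ 4 := by
    calc 16 = 2 ^ 4 := by norm_num
      _ ≤ Q ^ 4 := Nat.pow_le_pow_left hQ2 _
  have hpow : ∀ j, Q ^ j ≤ 2 ^ (j * Q) := by
    intro j
    calc Q ^ j ≤ (2 ^ Q) ^ j := Nat.pow_le_pow_left Nat.lt_two_pow_self.le _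
      _ = 2 ^ (j * Q) := by rw [← pow_mul, mul_comm]
  refine ⟨mulb hn h6, ?_, ?_, ?_, ?_, ?_⟩
  · rw [← pow_succ']
    apply Nat.pow_le_pow_right (by norm_num)
    have a1 : Q ^ 9 + 1 ≤ Q ^ 10 := addb hQ2 le_rfl (Nat.one_le_pow _ _ (by omega))
    have a2 : nv * (nv * (Q ^ 9 + 1)) ≤ Q ^ 12 := mulb hnv (mulb hnv a1)
    have a3 : c + 1 ≤ Q ^ 1 := e1 (by omega)
    have a4 : (c + 1) + nv * (nv * (Q ^ 9 + 1)) ≤ Q ^ 13 :=
      addb hQ2 (upb 12 hQ2 a3 (by norm_num)) a2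
    omega
  · have a1 : Q ^ 13 * D ≤ Q ^ 14 := mulb le_rfl hD
    have a2 : b + Q ^ 13 * D ≤ Q ^ 15 := addb hQ2 (upb 14 hQ2 hb (by norm_num)) a1
    have a3 : 2 * D ≤ Q ^ 2 := mulb h2 hD
    exact addb hQ2 a2 (upb 15 hQ2 a3 (by norm_num))
  · exact addb hQ2 (mulb hn h5) (upb 10 hQ2 (mulb hn hT) (by norm_num))
  · calc 2 * Q ^ 11 ≤ Q * Q ^ 11 := Nat.mul_le_mul_right _ hQ2
      _ = Q ^ 12 := by ring
      _ ≤ _ := hpow 12
  · have hRb' : Rb ≤ Q ^ 13 := by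
      rw [hRb]
      have a0 : nv * (n * N) ≤ Q ^ 3 := mulb hnv (mulb hn hN)
      have a1 : T + T * T * (2 * D * D) + (D + k * B * T) ≤ Q ^ 10 :=
        addb hQ2 (upb 9 hQ2 h6 (by norm_num)) h5
      have a2 : B + (T + T * T * (2 * D * D) + (D + k * B * T)) ≤ Q ^ 11 :=
        addb hQ2 (upb 10 hQ2 hB (by norm_num)) a1
      have a3 : nv * (n * N) + (B + (T + T * T * (2 * D * D) + (D + k * B * T))) ≤ Q ^ 12 :=
        addb hQ2 (upb 11 hQ2 a0 (by norm_num)) a2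
      exact addb hQ2 a3 (upb 12 hQ2 h1 (by norm_num))
    obtain ⟨ε, hε⟩ : ∃ ε, ε = Q ^ 16 := ⟨_, rfl⟩
    have hε' : ε ≤ Q ^ 16 := hε.le
    rw [← hε]
    obtain ⟨c', hc'⟩ : ∃ c', c' = m + D + b := ⟨_, rfl⟩
    have hc'' : c' ≤ Q ^ 1 := e1 (by omega)
    rw [← hc']
    have hLB : LB k T D c' ε B ≤ Q ^ 25 := by
      unfold LB
      have a2 : ε * T ≤ Q ^ 18 := mulb hε' hT
      have a3 : 2 * D * (2 * D) ≤ Q ^ 4 := mulb (mulb h2 hD) (mulb h2 hD)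
      have a4 : ε * (2 * D) ≤ Q ^ 18 := mulb hε' (mulb h2 hD)
      have a5 : (2 * D * (2 * D) + ε * (2 * D)) * (T * T) ≤ Q ^ 23 :=
        mulb (addb hQ2 (upb 18 hQ2 a3 (by norm_num)) a4) (mulb hT hT)
      have a6 : D + c' + B + 1 ≤ Q ^ 7 := by
        have b1 : D + c' ≤ Q ^ 2 := addb hQ2 hD hc''
        have b2 : D + c' + B ≤ Q ^ 6 := addb hQ2 (upb 5 hQ2 b1 (by norm_num)) hB
        exact addb hQ2 b2 (upb 6 hQ2 h1 (by norm_num))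
      have a7 : 2 * B + 1 ≤ Q ^ 7 := addb hQ2 (mulb h2 hB) (upb 6 hQ2 h1 (by norm_num))
      have a8 : k * k * T * (D * (2 * B + 1)) ≤ Q ^ 12 := mulb (mulb (mulb hk hk) hT) (mulb hD a7)
      have a9 : (D + c' + B + 1) * (k * k * T * (D * (2 * B + 1))) ≤ Q ^ 19 := mulb a6 a8
      have c2 : ε * T + ε * T ≤ Q ^ 19 := addb hQ2 a2 a2
      have c3 : ε * T + ε * T + (2 * D * (2 * D) + ε * (2 * D)) * (T * T) ≤ Q ^ 24 :=
        addb hQ2 (upb 23 hQ2 c2 (by norm_num)) a5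
      exact addb hQ2 c3 (upb 24 hQ2 a9 (by norm_num))
    have hLT : Helper12_CW.LT n k w b (12 * Q * D) (1 + k * B * T) ≤ Q ^ 21 := by
      unfold Helper12_CW.LT
      have a1 : b + 12 * Q * D ≤ Q ^ 6 := by
        have hD' : D ≤ Q := by omega
        have hb' : b ≤ Q := by omega
        have h7 : 12 * Q * D ≤ 12 * Q * Q := Nat.mul_le_mul_left _ hD'
        have h8 : Q ^ 6 = Q ^ 4 * (Q * Q) := by ring
        have h9 : 2 * Q ≤ Q * Q := Nat.mul_le_mul_right _ hQ2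
        rw [h8]
        nlinarith [Nat.mul_le_mul_right (Q * Q) h16]
      have a2 : 1 + k * B * T ≤ Q ^ 9 := addb hQ2 (upb 8 hQ2 h1 (by norm_num)) h4
      have a3 : (b + 12 * Q * D) * (1 + k * B * T) ≤ Q ^ 15 := mulb a1 a2
      have a4 : k + (b + 12 * Q * D) * (1 + k * B * T) ≤ Q ^ 16 :=
        addb hQ2 (upb 15 hQ2 hk (by norm_num)) a3
      have a5 : k + (b + 12 * Q * D) * (1 + k * B * T) + b ≤ Q ^ 17 :=
        addb hQ2 a4 (upb 16 hQ2 hb (by norm_num))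
      have a6 : w + (k + (b + 12 * Q * D) * (1 + k * B * T) + b) ≤ Q ^ 18 :=
        addb hQ2 (upb 17 hQ2 hw (by norm_num)) a5
      have a7 : n * (w + (k + (b + 12 * Q * D) * (1 + k * B * T) + b)) ≤ Q ^ 19 := mulb hn a6
      have a8 : w + 2 * b ≤ Q ^ 3 :=
        addb hQ2 (upb 2 hQ2 hw (by norm_num)) (mulb h2 hb)
      exact upb 21 hQ2 (addb hQ2 (upb 19 hQ2 a8 (by norm_num)) a7) (by norm_num)
    obtain ⟨LL, hLL⟩ : ∃ LL, LL = Rb * Rb + Helper12_CW.LT n k w b (12 * Q * D) (1 + k * B * T) +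
        n * LB k T D c' ε B := ⟨_, rfl⟩
    have hL1 : LL ≤ Q ^ 28 := by
      rw [hLL]
      have a1 : Rb * Rb ≤ Q ^ 26 := mulb hRb' hRb'
      have a2 : n * LB k T D c' ε B ≤ Q ^ 26 := mulb hn hLB
      exact addb hQ2 (addb hQ2 a1 (upb 26 hQ2 hLT (by norm_num))) (upb 27 hQ2 a2 (by norm_num))
    rw [← hLL]
    have h64' : 64 ≤ Q ^ 6 := by
      calc 64 = 2 ^ 6 := by norm_num
        _ ≤ Q ^ 6 := Nat.pow_le_pow_left hQ2 _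
    have h10 : (LL + 1) ^ 2 ≤ Q ^ 58 := by
      have h11 : LL + 1 ≤ Q ^ 29 := addb hQ2 hL1 (Nat.one_le_pow _ _ (by omega))
      calc (LL + 1) ^ 2 ≤ (Q ^ 29) ^ 2 := Nat.pow_le_pow_left h11 2
        _ = Q ^ 58 := by rw [← pow_mul]
    calc 64 * (LL + 1) ^ 2 ≤ Q ^ 6 * Q ^ 58 := Nat.mul_le_mul h64' h10
      _ = Q ^ 64 := by rw [← pow_add]

end Pool.Agent.UO
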