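import Mathlib
import Pool.Agent.Helper12_UO.Expo

/-! The hitting theorem for programs of exponential degree in unknown blocks. -/

namespace Pool.Agent.UO

open Polynomial Matrix Pool.Agent.Helper12_FV Pool.Agent.Helper12_CW

theorem exists_hit_unknown {c : ℕ} (n m k D b B w N M1 M2 v1 v2 ε Rb nv t : ℕ) (hn : 1 ≤ n)
    (ht : seedLength w 1 c ≤ t)
    (ι : ℕ → Fin c → ℕ) (hι : ∀ B < n, ∀ s, ι B s < nv)
    (hinj : ∀ B < n, ∀ B' < n, ∀ s s', ι B s = ι B' s' → B = B' ∧ s = s')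
    (f : ℕ → Fin m → MvPolynomial (Fin c) ℤ) (A : ℕ → Fin k → MvPolynomial (Fin c) ℤ)
    (e : ℕ → Fin k → Fin m → ℕ) (M : ℕ → Fin k → Matrix (Fin w) (Fin w) ℤ) (a z : Fin w → ℤ)
    (hprim : ∀ B j, ∀ t : ℤ, MvPolynomial.C t ∣ f B j → IsUnit t)
    (hfD : ∀ B j, (f B j).totalDegree ≤ D) (hAD : ∀ B i, (A B i).totalDegree ≤ D)
    (hfl : ∀ B j, len (f B j) ≤ 2 ^ b) (hAl : ∀ B i, len (A B i) ≤ 2 ^ b)
    (he : ∀ B i j, e B i j ≤ 2 ^ b) (hM : ∀ B u i j, (M B u i j).natAbs ≤ 2 ^ b)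
    (ha : ∀ i, (a i).natAbs ≤ 2 ^ b) (hz : ∀ i, (z i).natAbs ≤ 2 ^ b)
    (hB1 : k * (D + k * (m * D)) ≤ B)
    (hM1 : n * (m * D + m * D * (m * D) * (2 * D * D)) ≤ M1)
    (hv1 : 2 * 2 ^ (c + nv * (nv * (M1 + 1))) ≤ 2 ^ v1) (hε : b + v1 * D + 2 * D ≤ ε)
    (hM2 : n * (D + k * B * (m * D)) + n * (m * D) ≤ M2) (hM2' : 1 ≤ M2)
    (hv2 : 2 * M2 ≤ 2 ^ v2)
    (hRb1 : B < Rb)
    (hRb2 : m * D + m * D * (m * D) * (2 * D * D) + (D + k * B * (m * D)) < Rb)
    (hRb3 : nv * (n * N) ≤ Rb)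
    (hN : B + k ≤ N)
    (hne : progU n ι a z (fun B u => A B u * ∏ j, f B j ^ e B u j) M ≠ 0) :
    ∃ p, p.Prime ∧ p ≤ 64 * (Rb * Rb + Helper12_CW.LT n k w b (v2 * D) (1 + k * B * (m * D)) +
        n * LB k (m * D) D (m + D + b) ε B + 1) ^ 2 ∧
      ∃ (β γ : Fin c → ZMod p) (y y' : Fin t → ZMod p), ¬ (X : (ZMod p)[X]) ^ (n * N) ∣
        onPoint p (point nv β γ) (point nv y y')
          (progU n ι a z (fun B u => A B u * ∏ j, f B j ^ e B u j) M) := by
  classical
  have hinj1 : ∀ B < n, Function.Injective (ι B) := fun B hB s s' h => (hinj B hB B hB s s' h).2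
  obtain ⟨p, hp, hRp, hple, ww, zz, d, hd, hval⟩ := exists_low n m k D b B w N M1 M2 v1 v2 ε Rb nv
    hn ι hι hinj1 f A e M a z hprim hfD hAD hfl hAl he hM ha hz hB1 hM1 hv1 hε hM2 hM2' hv2 hRb1
    hRb2 hN (progU_ne_zero n ι a z _ M hne)
  have hfact : Fact p.Prime := ⟨hp⟩
  have hN1 : 1 ≤ N := by
    have := hd 0
    omega
  obtain ⟨α, hα⟩ : ∃ α : ℕ → ZMod p, α = point nv (fun j => ((ww j : ℕ) : ZMod p))
    (fun j => ((zz j : ℕ) : ZMod p)) := ⟨_, rfl⟩
  obtain ⟨g, hg⟩ : ∃ g : ℕ → Fin k → MvPolynomial (Fin c) ℤ, g = fun B u =>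
    A B u * ∏ j, f B j ^ e B u j := ⟨_, rfl⟩
  rw [← hg] at hne ⊢
  obtain ⟨T, hT⟩ : ∃ T : ℕ → Matrix (Fin w) (Fin w) (MvPolynomial ℕ (ZMod p)), ∀ B, T B =
    layer p α (ι B) (g B) (M B) := ⟨_, fun _ => rfl⟩
  obtain ⟨F, hF⟩ : ∃ F, F = val n (fun i => MvPolynomial.C ((a i : ℤ) : ZMod p))
    (fun i => MvPolynomial.C ((z i : ℤ) : ZMod p)) T := ⟨_, rfl⟩
  obtain ⟨V, hV⟩ : ∃ V : ℕ → Finset ℕ, ∀ B, V B = Finset.univ.image (ι B) := ⟨_, fun _ => rfl⟩
  have hTV : ∀ B u v, (T B u v).vars ⊆ V B := by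
    intro B u v
    rw [hT, hV]
    exact layer_vars p α (ι B) (g B) (M B) u v
  have hVdis : ∀ i < n, ∀ j < n, i ≠ j → Disjoint (V i) (V j) := by
    intro i hi j hj hij
    rw [Finset.disjoint_left]
    intro x hx hx'
    rw [hV, Finset.mem_image] at hx hx'
    obtain ⟨s, _, rfl⟩ := hx
    obtain ⟨s', _, h⟩ := hx'
    exact hij (hinj i hi j hj s s' h.symm).1
  -- a nonzero coefficient of low degree
  obtain ⟨δ, hδ⟩ : ∃ δ : ℕ → (ℕ →₀ ℕ), ∀ B, δ B = (d B).mapDomain (ι B) := ⟨_, fun _ => rfl⟩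
  have hcoeff : MvPolynomial.coeff (∑ i ∈ Finset.range n, δ i + 0) F ≠ 0 := by
    rw [hF, coeff_val (fun i => ((a i : ℤ) : ZMod p)) V T δ n (fun i _ => hTV i) (by
      intro i hi
      rw [hδ, hV]
      exact Finsupp.mapDomain_support.trans
        (Finset.image_subset_image (Finset.subset_univ _))) hVdis _ ∅ 0 (by
      intro u
      rw [MvPolynomial.vars_C]) (fun i _ => Finset.disjoint_empty_right _) (by simp)]
    intro h0
    apply hval
    rw [← h0]
    have e1 : (fun u => MvPolynomial.coeff 0 (MvPolynomial.C ((z u : ℤ) : ZMod p) :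
        MvPolynomial ℕ (ZMod p))) = fun u => ((z u : ℤ) : ZMod p) := by
      funext u
      rw [MvPolynomial.coeff_zero_C]
    rw [e1]
    apply val_congr
    intro B hB
    ext i j
    rw [Matrix.map_apply, hT, layer_apply, Matrix.sum_apply, MvPolynomial.coeff_sum]
    refine Finset.sum_congr rfl fun u _ => ?_
    rw [Matrix.smul_apply, Matrix.map_apply, smul_eq_mul,
      mul_comm (MvPolynomial.rename (ι B) _) (MvPolynomial.C _), MvPolynomial.coeff_C_mul, hδ,
      MvPolynomial.coeff_rename_mapDomain _ (hinj1 B hB), hg, hα, mul_comm]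
  have hF0 : F ≠ 0 := by
    rintro rfl
    exact hcoeff (MvPolynomial.coeff_zero _)
  have hord : ordN F < n * N := by
    by_contra hge
    push Not at hge
    apply hcoeff
    apply lowZero_ordN F
    refine lt_of_lt_of_le ?_ hge
    rw [add_zero, map_sum]
    have h1 : ∀ i ∈ Finset.range n, (δ i).degree < N := by
      intro i _
      rw [hδ, Finsupp.degree_mapDomain]
      exact hd i
    calc ∑ i ∈ Finset.range n, (δ i).degree < ∑ _i ∈ Finset.range n, N :=
          Finset.sum_lt_sum_of_nonempty (by simpa using (by omega : n ≠ 0)) h1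
      _ = n * N := by simp
  -- the lowest homogeneous part is a program
  have hprog : IsProgram nv w 1 c (inn F) := by
    have h1 := isProgram_inn nv c n (fun l : Fin n => T l) (by
      intro l l' hll
      have h2 : ∀ l : Fin n, layerVars (T l) ⊆ V l := fun l => layerVars_subset.mpr (hTV l)
      exact Finset.disjoint_of_subset_left (h2 l) (Finset.disjoint_of_subset_right (h2 l')
        (hVdis l l.2 l' l'.2 fun h => hll (Fin.ext h)))) (by
      intro l
      refine (layerVars_subset.mpr (hTV l)).trans ?_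
      intro x hx
      rw [hV, Finset.mem_image] at hx
      obtain ⟨s, _, rfl⟩ := hx
      exact Finset.mem_range.mpr (hι l l.2 s)) (by
      intro l
      refine (Finset.card_le_card (layerVars_subset.mpr (hTV l))).trans ?_
      rw [hV]
      exact Finset.card_image_le.trans (by simp)) (fun i => ((a i : ℤ) : ZMod p))
      (fun i => ((z i : ℤ) : ZMod p))
    have h2 : (List.ofFn fun l : Fin n => T l) = (List.range n).map T := by
      apply List.ext_getElem
      · simp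
      · intro i h1 h2
        simp
    rw [h2] at h1
    rw [hF]
    exact h1
  obtain ⟨K, hKF, hKA, hKI⟩ : ∃ (K : Type) (_ : Field K) (_ : Algebra (ZMod p) K), Infinite K :=
    ⟨AlgebraicClosure (ZMod p), inferInstance, inferInstance, inferInstance⟩
  have hchar : CharP K p := charP_of_injective_algebraMap (algebraMap (ZMod p) K).injective p
  have hnN : 1 ≤ n * N := Nat.mul_pos hn hN1
  have hnv : nv ≤ Rb := le_trans (by simpa using Nat.mul_le_mul_left nv hnN) hRb3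
  obtain ⟨y0, hy0, hy0'⟩ := program_hit (c := fun i : Fin nv => ((i : ℕ) : K)) (by
    intro i j hij
    apply Fin.ext
    exact CharP.natCast_injOn_Iio K p (Set.mem_Iio.mpr (by have := i.2; omega))
      (Set.mem_Iio.mpr (by have := j.2; omega)) hij) (hprog.map (algebraMap (ZMod p) K)) (by
    intro h0
    exact inn_ne_zero hF0 ((map_eq_zero_iff _ (MvPolynomial.map_injective _
      (algebraMap (ZMod p) K).injective)).mp h0))
  obtain ⟨w0, z0, rfl⟩ := Im_mono _ ht hy0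
  rw [← point_eq_ext] at hy0'
  obtain ⟨y, y', hy⟩ := zmod_hit p nv (ordN F) t (lt_of_le_of_lt
    ((Nat.mul_le_mul_left nv hord.le).trans hRb3) hRp) (inn F) (totalDegree_inn_le F) w0 z0 hy0'
  refine ⟨p, hp, hple, fun j => ((ww j : ℕ) : ZMod p), fun j => ((zz j : ℕ) : ZMod p), y, y', ?_⟩
  intro hdvd
  have hF' : val n (fun i => MvPolynomial.C ((a i : ℤ) : ZMod p))
      (fun i => MvPolynomial.C ((z i : ℤ) : ZMod p))
      (fun B => layer p α (ι B) (g B) (M B)) = F := by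
    rw [hF]
    congr 1
    funext B
    rw [hT]
  rw [← hα, onPoint_progU, hF', X_pow_dvd_iff] at hdvd
  have h1 := hdvd (ordN F) hord
  rw [coeff_line] at h1
  exact hy h1

end Pool.Agent.UO
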